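import Pool.Agent.Mg.F5045a8.Gcbdcbf

section

/-! A free subgroup of infinite rank of SL(2,Z) containing minus a parabolic at every cusp. -/

namespace Pool.Agent.MP_5045a8_al

open Matrix Cardinal
open scoped MatrixGroups

theorem free_of_pp {G α : Type} [Group G] [MulAction G α] (T : ℤ → G) (X : ℤ → Set α)
    (hne : ∀ i, (X i).Nonempty) (hd : Pairwise (Function.onFun Disjoint X))
    (hpp : ∀ i j, i ≠ j → ∀ n : ℤ, n ≠ 0 → ∀ x ∈ X j, T i ^ n • x ∈ X i) :
    Function.Injective (FreeGroup.lift T) := by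
  have : FreeGroup.lift T =
      (Monoid.CoprodI.lift fun i => FreeGroup.lift fun _ : Unit => T i).comp
        (@freeGroupEquivCoprodI ℤ).toMonoidHom := by
    ext i
    simp
  rw [this, MonoidHom.coe_comp]
  refine Function.Injective.comp ?_ (MulEquiv.injective freeGroupEquivCoprodI)
  refine Monoid.CoprodI.lift_injective_of_ping_pong (H := fun _ : ℤ => FreeGroup Unit)
    (fun i => FreeGroup.lift fun _ : Unit => T i) (Or.inl ?_) X hne hd fun i j hij => ?_
  · rw [Cardinal.mk_int]; exact (Cardinal.natCast_lt_aleph0 (n := 3)).le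
  · refine FreeGroup.freeGroupUnitEquivInt.forall_congr_left.mpr ?_
    intro n hne1
    have hn : n ≠ 0 := by
      rintro rfl
      apply hne1
      simp [FreeGroup.freeGroupUnitEquivInt]
    rintro _ ⟨x, hx, rfl⟩
    have := hpp i j hij n hn x hx
    change FreeGroup.lift (fun _ => T i) (FreeGroup.of () ^ n) • x ∈ X i
    simpa only [map_zpow, FreeGroup.lift_apply_of] using this

theorem zpow_pp {G α : Type} [Group G] [MulAction G α] {g : G} {D P N : Set α}
    (h1 : ∀ x, x ∈ D ∨ x ∈ P → g • x ∈ P) (h2 : ∀ x, x ∈ D ∨ x ∈ N → g⁻¹ • x ∈ N)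
    {n : ℤ} (hn : n ≠ 0) {x : α} (hx : x ∈ D) : g ^ n • x ∈ P ∪ N := by
  have key : ∀ {g : G} {P : Set α}, (∀ x, x ∈ D ∨ x ∈ P → g • x ∈ P) → ∀ k : ℕ,
      g ^ (k + 1) • x ∈ P := by
    intro g P h k
    induction k with
    | zero => simpa using h x (Or.inl hx)
    | succ k ih => rw [pow_succ', mul_smul]; exact h _ (Or.inr ih)
  rcases lt_or_gt_of_ne hn with h | h
  · obtain ⟨k, rfl⟩ : ∃ k : ℕ, n = -((k + 1 : ℕ) : ℤ) := ⟨(-n - 1).toNat, by omega⟩
    right
    rw [_root_.zpow_neg, zpow_natCast, ← inv_pow]; exact key h2 k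
  · obtain ⟨k, rfl⟩ : ∃ k : ℕ, n = ((k + 1 : ℕ) : ℤ) := ⟨(n - 1).toNat, by omega⟩
    left
    rw [zpow_natCast]; exact key h1 k

/-- First generator of the commutator subgroup of SL(2,Z). -/
def sa : SL(2, ℤ) := ⟨!![2, 1; 1, 1], by simp [det_fin_two_of]⟩

/-- Second generator of the commutator subgroup of SL(2,Z). -/
def sb : SL(2, ℤ) := ⟨!![1, 1; 1, 2], by simp [det_fin_two_of]⟩

/-- The free generators. -/
def rho (i : ℤ) : G2 := SpecialLinearGroup.toGL (sa ^ i * sb * (sa ^ i)⁻¹)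

theorem smul_toGL (g : SL(2, ℤ)) (z : Fin 2 → ℤ) (i : Fin 2) :
    ((SpecialLinearGroup.toGL g : G2) • z) i = g i 0 * z 0 + g i 1 * z 1 := by
  change (g.1 *ᵥ z) i = _
  simp [mulVec, dotProduct, Fin.sum_univ_two]

theorem rho_inj : Function.Injective (FreeGroup.lift rho) := by
  let a : G2 := SpecialLinearGroup.toGL sa
  let b : G2 := SpecialLinearGroup.toGL sb
  let Xa : Set (Fin 2 → ℤ) := {z | (0 < z 1 ∧ z 1 < z 0) ∨ (z 0 < z 1 ∧ z 1 < 0)}
  let Ya : Set (Fin 2 → ℤ) := {z | (0 < -z 0 ∧ -z 0 < z 1) ∨ (z 1 < -z 0 ∧ -z 0 < 0)}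
  let Xb : Set (Fin 2 → ℤ) := {z | (0 < z 0 ∧ z 0 < z 1) ∨ (z 1 < z 0 ∧ z 0 < 0)}
  let Yb : Set (Fin 2 → ℤ) := {z | (0 < z 1 ∧ z 1 < -z 0) ∨ (-z 0 < z 1 ∧ z 1 < 0)}
  have ha : ∀ n : ℤ, n ≠ 0 → ∀ z ∈ Xb ∪ Yb, a ^ n • z ∈ Xa ∪ Ya := by
    intro n hn z hz
    refine zpow_pp (fun x hx => ?_) (fun x hx => ?_) hn hz
    · simp only [a, Xa, Xb, Yb, Set.mem_union, Set.mem_ofPred_eq, smul_toGL] at hx ⊢
      simp [sa]; omega
    · simp only [a, Ya, Xb, Yb, Set.mem_union, Set.mem_ofPred_eq, ← map_inv, smul_toGL] at hx ⊢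
      simp [sa, SpecialLinearGroup.SL2_inv_expl]; omega
  have hb : ∀ n : ℤ, n ≠ 0 → ∀ z ∈ Xa ∪ Ya, b ^ n • z ∈ Xb ∪ Yb := by
    intro n hn z hz
    refine zpow_pp (fun x hx => ?_) (fun x hx => ?_) hn hz
    · simp only [b, Xa, Xb, Ya, Set.mem_union, Set.mem_ofPred_eq, smul_toGL] at hx ⊢
      simp [sb]; omega
    · simp only [b, Ya, Xa, Yb, Set.mem_union, Set.mem_ofPred_eq, ← map_inv, smul_toGL] at hx ⊢
      simp [sb, SpecialLinearGroup.SL2_inv_expl]; omega
  have hmove : ∀ i j : ℤ, i ≠ j → ∀ z, (a ^ j)⁻¹ • z ∈ Xb ∪ Yb → (a ^ i)⁻¹ • z ∈ Xa ∪ Ya := by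
    intro i j hij z hz
    have := ha (j - i) (by omega) _ hz
    rwa [← mul_smul, show a ^ (j - i) * (a ^ j)⁻¹ = (a ^ i)⁻¹ by group] at this
  refine free_of_pp rho (fun i => {z | (a ^ i)⁻¹ • z ∈ Xb ∪ Yb}) (fun i => ⟨a ^ i • ![1, 2], ?_⟩)
    (fun i j hij => Set.disjoint_left.2 fun z h1 h2 => ?_) fun i j hij n hn z hz => ?_
  · rw [Set.mem_ofPred_eq, inv_smul_smul]
    simp [Xb]
  · have h3 := hmove i j hij z h2
    simp only [Xa, Ya, Xb, Yb, Set.mem_union, Set.mem_ofPred_eq] at h1 h3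
    omega
  · have := hb n hn _ (hmove i j hij z hz)
    have e : rho i = a ^ i * b * (a ^ i)⁻¹ := by simp [rho, a, b]
    simp only [Set.mem_ofPred_eq]
    rwa [e, conj_zpow, ← mul_smul, mul_assoc, inv_mul_cancel_left, mul_smul]

theorem hp_free : HP (FreeGroup ℤ) := hp_GL2.of_injective _ rho_inj

theorem conj_comm_mem (g : SL(2, ℤ)) :
    (SpecialLinearGroup.toGL (g * (sa * sb * sa⁻¹ * sb⁻¹) * g⁻¹) : G2) ∈
      (FreeGroup.lift rho).range := by
  let F : Subgroup SL(2, ℤ) := Subgroup.closure {sa, sb}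
  let N : Subgroup SL(2, ℤ) := (FreeGroup.lift rho).range.comap SpecialLinearGroup.toGL
  have haF : sa ∈ F := Subgroup.subset_closure (by simp)
  have hbF : sb ∈ F := Subgroup.subset_closure (by simp)
  have hgen : ∀ i : ℤ, sa ^ i * sb * (sa ^ i)⁻¹ ∈ N := fun i =>
    ⟨FreeGroup.of i, by simp [rho]⟩
  have hN : ∀ (j : ℤ), ∀ n ∈ N, sa ^ j * n * (sa ^ j)⁻¹ ∈ N := by
    rintro j n ⟨w, hw⟩
    refine ⟨FreeGroup.map (· + j) w, ?_⟩
    rw [map_mul, map_mul, ← hw]
    have : (FreeGroup.lift rho).comp (FreeGroup.map (· + j)) =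
        (MulAut.conj (SpecialLinearGroup.toGL (sa ^ j) : G2)).toMonoidHom.comp
          (FreeGroup.lift rho) := by
      ext1 i
      simp only [MonoidHom.comp_apply, FreeGroup.map.of, FreeGroup.lift_apply_of, rho,
        MulEquiv.coe_toMonoidHom, MulAut.conj_apply, ← map_inv, ← map_mul]
      congr 1; group
    rw [map_inv]
    exact DFunLike.congr_fun this w
  have hdec : ∀ x ∈ F, ∃ i : ℤ, x * (sa ^ i)⁻¹ ∈ N := by
    intro x hx
    induction hx using Subgroup.closure_induction with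
    | mem x hx =>
      rcases hx with rfl | rfl
      · exact ⟨1, by simp⟩
      · exact ⟨0, by simpa using hgen 0⟩
    | one => exact ⟨0, by simp⟩
    | mul x y _ _ hx hy =>
      obtain ⟨i, hi⟩ := hx
      obtain ⟨j, hj⟩ := hy
      exact ⟨i + j, by convert N.mul_mem hi (hN i _ hj) using 1; group⟩
    | inv x _ hx =>
      obtain ⟨i, hi⟩ := hx
      exact ⟨-i, by convert hN (-i) _ (N.inv_mem hi) using 1; group⟩
  have hcomm : ∀ x ∈ F, ∀ y ∈ F, x * y * x⁻¹ * y⁻¹ ∈ N := by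
    intro x hx y hy
    obtain ⟨i, hi⟩ := hdec x hx
    obtain ⟨j, hj⟩ := hdec y hy
    convert N.mul_mem (N.mul_mem (N.mul_mem hi (hN i _ hj)) (hN j _ (N.inv_mem hi)))
      (N.inv_mem hj) using 1
    group
  have hF : ∀ g : SL(2, ℤ), g * sa * g⁻¹ ∈ F ∧ g * sb * g⁻¹ ∈ F := by
    have step : ∀ g : SL(2, ℤ), g * sa * g⁻¹ ∈ F ∧ g * sb * g⁻¹ ∈ F → ∀ x ∈ F,
        g * x * g⁻¹ ∈ F := by
      intro g hg x hx
      induction hx using Subgroup.closure_induction with
      | mem x hx => rcases hx with rfl | rfl; exacts [hg.1, hg.2]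
      | one => simp
      | mul x y _ _ hx hy => convert F.mul_mem hx hy using 1; group
      | inv x _ hx => convert F.inv_mem hx using 1; group
    intro g
    have hg : g ∈ Subgroup.closure {ModularGroup.S, ModularGroup.T} := by
      rw [SpecialLinearGroup.SL2Z_generators]; trivial
    have ia := F.inv_mem haF
    have ib := F.inv_mem hbF
    induction hg using Subgroup.closure_induction'' with
    | mem x hx =>
      rcases hx with rfl | rfl
      · exact ⟨by convert ia using 1; decide, by convert ib using 1; decide⟩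
      · exact ⟨by convert F.mul_mem haF ib using 1; decide, by convert haF using 1; decide⟩
    | inv_mem x hx =>
      rcases hx with rfl | rfl
      · exact ⟨by convert ia using 1; decide, by convert ib using 1; decide⟩
      · exact ⟨by convert hbF using 1; decide, by convert F.mul_mem ia hbF using 1; decide⟩
    | one => simpa using ⟨haF, hbF⟩
    | mul x y _ _ hx hy =>
      exact ⟨by convert step x hx _ hy.1 using 1; group,
        by convert step x hx _ hy.2 using 1; group⟩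
  have := hcomm _ (hF g).1 _ (hF g).2
  change _ ∈ N
  convert this using 1
  group

theorem cusp_mem {p q : ℤ} (h : IsCoprime p q) : ∃ w, ((FreeGroup.lift rho w : G2) :
    Matrix (Fin 2) (Fin 2) ℤ) = !![-1 - 6 * p * q, 6 * p ^ 2; -6 * q ^ 2, -1 + 6 * p * q] := by
  obtain ⟨u, v, huv⟩ := h
  let g : SL(2, ℤ) := ⟨!![p + v, -v; q - u, u], by rw [det_fin_two_of]; linear_combination huv⟩
  obtain ⟨w, hw⟩ := conj_comm_mem g
  refine ⟨w, ?_⟩
  have e : sa * sb * sa⁻¹ * sb⁻¹ = ⟨!![-7, 6; -6, 5], by simp [det_fin_two_of]⟩ := by decide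
  rw [hw, e, SpecialLinearGroup.coe_GL_coe_matrix, SpecialLinearGroup.SL2_inv_expl]
  ext i j
  fin_cases i <;> fin_cases j <;> simp [g, mul_apply, Fin.sum_univ_two]
  · linear_combination -huv
  · ring
  · ring
  · linear_combination -huv

theorem continuum_classes {P : Subgroup G3 → Prop} (M : (ℕ → Bool) → Subgroup G3)
    (hM : Function.Injective M) (hP : ∀ β, P (M β)) :
    ∃ S : Set (Subgroup G3), #S = 𝔠 ∧ (∀ H ∈ S, P H) ∧
      ∀ H ∈ S, ∀ K ∈ S, H ≠ K → ¬ ∃ γ : G3, ∀ g, g ∈ K ↔ γ * g * γ⁻¹ ∈ H := by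
  let r : Setoid (ℕ → Bool) :=
    { r := fun β β' => ∃ γ : G3, ∀ g, g ∈ M β' ↔ γ * g * γ⁻¹ ∈ M β
      iseqv := ⟨fun _ => ⟨1, by simp⟩,
        fun ⟨γ, h⟩ => ⟨γ⁻¹, fun g => by rw [h]; simp [mul_assoc]⟩,
        fun ⟨γ, h⟩ ⟨δ, h'⟩ => ⟨γ * δ, fun g => by rw [h', h]; simp [mul_assoc]⟩⟩ }
  have hI : #(ℕ → Bool) = 𝔠 := by simp
  refine ⟨Set.range (M ∘ Quotient.out (s := r)), ?_, by rintro _ ⟨q, rfl⟩; exact hP _, ?_⟩
  · rw [Cardinal.mk_range_eq _ (hM.comp Quotient.out_injective)]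
    refine le_antisymm (hI ▸ Cardinal.mk_quotient_le) ?_
    by_contra hlt
    have hex : ∀ β : ℕ → Bool, ∃ γ : G3, ∀ g, g ∈ M β ↔ γ * g * γ⁻¹ ∈ M (Quotient.mk r β).out :=
      fun β => Quotient.mk_out (s := r) β
    choose γ hγ using hex
    have hinj : Function.Injective fun β => (Quotient.mk r β, γ β) := by
      intro β β' e
      simp only [Prod.mk.injEq] at e
      apply hM
      ext g
      rw [hγ β, hγ β', e.1, e.2]
    have h1 := Cardinal.mk_le_of_injective hinj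
    rw [hI, Cardinal.mk_prod, lift_id, lift_id] at h1
    exact absurd h1 (not_le.2 (Cardinal.mul_lt_of_lt aleph0_le_continuum (not_le.1 hlt)
      (Cardinal.mk_le_aleph0.trans_lt aleph0_lt_continuum)))
  · rintro _ ⟨q, rfl⟩ _ ⟨q', rfl⟩ hne h
    apply hne
    have : q = q' := by
      rw [← Quotient.out_eq q, ← Quotient.out_eq q']
      exact Quotient.sound h
    rw [this]

end Pool.Agent.MP_5045a8_al

end

section

/-! Continuum many maximal Haagerup subgroups inside the parabolic subgroup. -/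

namespace Pool.Agent.MP_5045a8_al

open Matrix Cardinal
open scoped MatrixGroups

/-- Lift of the first generator. -/
def ahat : P0 := ⟨mk3 !![2, 1, 0; 1, 1, 0; 0, 0, 1] (by simp [det_fin_three]), ⟨rfl, rfl⟩⟩

/-- Lifts of the second generator. -/
def bhat (w : ℤ) : P0 :=
  ⟨mk3 !![1, 1, w; 1, 2, 0; 0, 0, 1] (by simp [det_fin_three]), ⟨rfl, rfl⟩⟩

/-- The lifted free generators. -/
def genP (β : ℕ → Bool) (i : ℤ) : P0 :=
  ahat ^ i * bhat (if β i.toNat then 1 else 0) * (ahat ^ i)⁻¹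

/-- The lifted free group. -/
def liftH (β : ℕ → Bool) : Subgroup G3 := (FreeGroup.lift (genP β)).range.map P0.subtype

theorem pr_genP (β : ℕ → Bool) (i : ℤ) : pr (genP β i) = rho i := by
  have ea : pr ahat = SpecialLinearGroup.toGL sa := Units.ext rfl
  have eb : ∀ w, pr (bhat w) = SpecialLinearGroup.toGL sb := fun w => Units.ext rfl
  simp only [genP, rho, map_mul, map_inv, map_zpow, ea, eb]

theorem pr_lift (β : ℕ → Bool) (w : FreeGroup ℤ) :
    pr (FreeGroup.lift (genP β) w) = FreeGroup.lift rho w := by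
  have : pr.comp (FreeGroup.lift (genP β)) = FreeGroup.lift rho := by
    ext1 i; simp [pr_genP]
  exact DFunLike.congr_fun this w

theorem P0_stab {K : Subgroup G3} (h : K ≤ P0) : Stab K ![0, 0, 1] := by
  intro g hg
  have h1 := h hg
  have e : ![0, 0, 1] ᵥ* mat g = ![0, 0, mat g 2 2] := by
    simp only [ext3, vecMul, dot3]; simp [h1.1, h1.2]
  rw [e]
  rcases Int.eq_one_or_neg_one_of_mul_eq_one' (P0_det h1) with h2 | h2 <;> simp [h2.2]

theorem fix_iff {g : P0} : (∀ x, ![0, 0, 1] ⬝ᵥ x = 0 → mat g *ᵥ x = x) ↔ pr g = 1 := by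
  constructor
  · intro h
    have a := h ![1, 0, 0] (by simp)
    have b := h ![0, 1, 0] (by simp)
    simp only [ext3, mulVec, dot3] at a b
    simp at a b
    apply Units.ext
    rw [pr_val, a.1, a.2.1, b.1, b.2.1, Units.val_one, one_fin_two]
  · intro h x hx
    obtain ⟨a1, a2, a3, a4, -⟩ := ker_entries (g := g) h
    rw [dot3] at hx
    simp only [ext3, mulVec, dot3]
    simp at hx
    simp [a1, a2, a3, a4, g.2.1, g.2.2, hx]

theorem liftH_lift (β : ℕ → Bool) : IsPlaneLift ![0, 0, 1] (liftH β) := by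
  refine ⟨P0_stab (Subgroup.map_subtype_le _), ?_⟩
  rintro _ ⟨_, ⟨w, rfl⟩, rfl⟩ h
  have := fix_iff.1 h
  rw [pr_lift, map_eq_one_iff _ rho_inj] at this
  simp [this]

theorem liftH_centres (β : ℕ → Bool) : Centres (liftH β) ![0, 0, 1] := by
  intro x hx0 hx
  rw [dot3] at hx
  simp at hx
  have hg : 0 < Int.gcd (x 0) (x 1) := by
    rw [Int.gcd_pos_iff]
    by_contra hn
    push Not at hn
    exact hx0 (ext3.2 ⟨hn.1, hn.2, hx⟩)
  obtain ⟨p, q, h1, h2, h3⟩ := Int.exists_gcd_one hg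
  have hc := Int.isCoprime_iff_gcd_eq_one.2 h1
  obtain ⟨w, hw⟩ := cusp_mem hc
  rw [← pr_lift β, pr_val] at hw
  set h := FreeGroup.lift (genP β) w with hh
  have hm : (h : G3) ∈ liftH β := ⟨h, ⟨w, rfl⟩, rfl⟩
  have a0 := congrFun (congrFun hw 0) 0
  have a1 := congrFun (congrFun hw 0) 1
  have a2 := congrFun (congrFun hw 1) 0
  have a3 := congrFun (congrFun hw 1) 1
  simp only [of_apply, cons_val', cons_val_zero, cons_val_one, cons_val_fin_one] at a0 a1 a2 a3
  have a4 : mat h 2 2 = 1 := by rw [← P0_det' h.2, a0, a1, a2, a3]; ring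
  have e : mat (h * h : G3) =
      tv ![p, q, 0] ![12 * q, -12 * p, -6 * (q * mat h 0 2 - p * mat h 1 2)] := by
    rw [mat_mul]
    ext i j
    fin_cases i <;> fin_cases j <;>
      simp [mul_apply, Fin.sum_univ_three, tv_apply, a0, a1, a2, a3, a4, h.2.1, h.2.2] <;> ring
  have hm2 := Mem.zsmul ⟨_, (liftH β).mul_mem hm hm, e⟩ (Int.gcd (x 0) (x 1))
  have ex : (Int.gcd (x 0) (x 1) : ℤ) • ![p, q, 0] = x := by
    generalize (Int.gcd (x 0) (x 1) : ℤ) = d at h2 h3
    simp only [ext3, Pi.smul_apply, smul_eq_mul]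
    simp [h2, h3, hx, mul_comm]
  rw [ex] at hm2
  refine ⟨_, fun e0 => ?_, hm2⟩
  simp only [ext3] at e0
  simp at e0
  simp [e0.1, e0.2.1] at h1

theorem exists_max_lift {f : V3} {H : Subgroup G3} (h : IsPlaneLift f H) :
    ∃ M, H ≤ M ∧ IsPlaneLift f M ∧ ∀ K, IsPlaneLift f K → M ≤ K → K = M := by
  obtain ⟨M, hle, hM⟩ := zorn_le_nonempty₀ {K | IsPlaneLift f K} (fun c hc hch y hy => by
    have key : ∀ g, g ∈ sSup c → ∃ s ∈ c, g ∈ s := fun g =>
      (Subgroup.mem_sSup_of_directedOn ⟨y, hy⟩ hch.directedOn).1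
    refine ⟨sSup c, ⟨fun g hg => ?_, fun g hg => ?_⟩, fun z hz => le_sSup hz⟩
    · obtain ⟨s, hs, hg⟩ := key g hg
      exact (hc hs).1 g hg
    · obtain ⟨s, hs, hg⟩ := key g hg
      exact (hc hs).2 g hg) H h
  exact ⟨M, hle, hM.1, fun K hK hMK => le_antisymm (hM.2 hK hMK) hMK⟩

theorem continuum_lifts : ∃ S : Set (Subgroup G3), #S = 𝔠 ∧
    (∀ H ∈ S, MaxHP H ∧ IsPlaneLift ![0, 0, 1] H) ∧
    ∀ H ∈ S, ∀ K ∈ S, H ≠ K → ¬ ∃ γ : G3, ∀ g, g ∈ K ↔ γ * g * γ⁻¹ ∈ H := by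
  choose M hle hM hmax using fun β => exists_max_lift (liftH_lift β)
  refine continuum_classes M (fun β β' e => ?_) fun β =>
    ⟨maxHP_of_lift (by simp) ((liftH_centres β).mono (hle β)) (hM β) (hmax β), hM β⟩
  funext n
  have m : ∀ β, (genP β n : G3) ∈ M β := fun β =>
    hle β ⟨genP β n, ⟨FreeGroup.of (n : ℤ), by simp⟩, rfl⟩
  have m1 := m β
  have m2 := m β'
  rw [← e] at m2
  have h1 := (hM β).2 _ ((M β).mul_mem m1 ((M β).inv_mem m2))
    (fix_iff (g := genP β n * (genP β' n)⁻¹).2 (by simp [pr_genP]))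
  have h2 : genP β n = genP β' n := Subtype.ext (mul_inv_eq_one.1 h1)
  simp only [genP, mul_left_inj, mul_right_inj, Int.toNat_natCast] at h2
  have h3 : (if β n then (1 : ℤ) else 0) = if β' n then 1 else 0 :=
    congrArg (fun g : P0 => mat g 0 2) h2
  revert h3
  cases β n <;> cases β' n <;> simp

end Pool.Agent.MP_5045a8_al

end
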