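import Pool.Agent.MP_5045a8_al.Defs

section

/-! Positive definite kernels and functions; the approximation form of the Haagerup property. -/

namespace Pool.Agent.MP_5045a8_al

open Finset Filter Topology

/-- Positive semidefinite real kernels. -/
def KP {α : Type} (K : α → α → ℝ) : Prop :=
  (∀ a b, K a b = K b a) ∧
    ∀ (ι : Type) [Fintype ι] (x : ι → α) (c : ι → ℝ),
      0 ≤ ∑ i, ∑ j, c i * c j * K (x i) (x j)

namespace KP

variable {α β : Type}

theorem comp {K : α → α → ℝ} (h : KP K) (e : β → α) : KP (fun a b => K (e a) (e b)) :=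
  ⟨fun _ _ => h.1 _ _, fun ι _ x c => h.2 ι (fun i => e (x i)) c⟩

theorem congr {K L : α → α → ℝ} (h : KP K) (e : ∀ a b, L a b = K a b) : KP L := by
  have : L = K := by funext a b; exact e a b
  rwa [this]

theorem rank_one (u : α → ℝ) : KP (fun a b => u a * u b) := by
  refine ⟨fun a b => mul_comm _ _, fun ι _ x c => ?_⟩
  have : ∑ i, ∑ j, c i * c j * (u (x i) * u (x j)) = (∑ i, c i * u (x i)) ^ 2 := by
    rw [sq, Finset.sum_mul_sum]
    refine Finset.sum_congr rfl fun i _ => Finset.sum_congr rfl fun j _ => by ring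
  rw [this]; positivity

theorem add {K L : α → α → ℝ} (h : KP K) (h' : KP L) : KP (fun a b => K a b + L a b) := by
  refine ⟨fun a b => by simp only [h.1 a b, h'.1 a b], fun ι _ x c => ?_⟩
  have := add_nonneg (h.2 ι x c) (h'.2 ι x c)
  simpa only [mul_add, Finset.sum_add_distrib] using this

theorem smul {K : α → α → ℝ} (h : KP K) {t : ℝ} (ht : 0 ≤ t) : KP (fun a b => t * K a b) := by
  refine ⟨fun a b => by simp only [h.1 a b], fun ι _ x c => ?_⟩
  have := mul_nonneg ht (h.2 ι x c)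
  simp only [Finset.mul_sum] at this
  refine this.trans_eq (Finset.sum_congr rfl fun i _ => Finset.sum_congr rfl fun j _ => by ring)

theorem zero : KP (fun _ _ : α => (0 : ℝ)) := ⟨fun _ _ => rfl, fun ι _ x c => by simp⟩

theorem sum {γ : Type} (s : Finset γ) {K : γ → α → α → ℝ} (h : ∀ n ∈ s, KP (K n)) :
    KP (fun a b => ∑ n ∈ s, K n a b) := by
  classical
  induction s using Finset.induction_on with
  | empty => simpa using zero
  | insert a s ha ih =>
    refine ((h a (by simp)).add (ih fun n hn => h n (by simp [hn]))).congr fun x y => ?_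
    rw [Finset.sum_insert ha]

theorem psd {K : α → α → ℝ} (h : KP K) {ι : Type} [Fintype ι] (x : ι → α) :
    (Matrix.of fun i j => K (x i) (x j)).PosSemidef := by
  refine Matrix.PosSemidef.of_dotProduct_mulVec_nonneg ?_ fun c => ?_
  · ext i j; simp [h.1 (x j)]
  · have := h.2 ι x c
    simp only [dotProduct, Matrix.mulVec, Matrix.of_apply, Finset.mul_sum, star_trivial]
    refine this.trans_eq (Finset.sum_congr rfl fun i _ => Finset.sum_congr rfl fun j _ => by ring)

theorem of_psd {K : α → α → ℝ} (hs : ∀ a b, K a b = K b a)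
    (h : ∀ (ι : Type) [Fintype ι] (x : ι → α), (Matrix.of fun i j => K (x i) (x j)).PosSemidef) :
    KP K := by
  refine ⟨hs, fun ι _ x c => ?_⟩
  have := (h ι x).dotProduct_mulVec_nonneg c
  simp only [dotProduct, Matrix.mulVec, Matrix.of_apply, Finset.mul_sum, star_trivial] at this
  refine this.trans_eq (Finset.sum_congr rfl fun i _ => Finset.sum_congr rfl fun j _ => by ring)

theorem mul {K L : α → α → ℝ} (h : KP K) (h' : KP L) : KP (fun a b => K a b * L a b) := by
  refine of_psd (fun a b => by rw [h.1, h'.1]) fun ι _ x => ?_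
  exact (h.psd x).hadamard (h'.psd x)

theorem pow {K : α → α → ℝ} (h : KP K) (n : ℕ) : KP (fun a b => K a b ^ n) := by
  induction n with
  | zero => exact (rank_one fun _ => 1).congr fun a b => by simp
  | succ n ih => exact (ih.mul h).congr fun a b => by rw [pow_succ]

theorem of_hasSum {K : ℕ → α → α → ℝ} {L : α → α → ℝ} (h : ∀ n, KP (K n))
    (hs : ∀ a b, HasSum (fun n => K n a b) (L a b)) : KP L := by
  refine ⟨fun a b => ?_, fun ι _ x c => ?_⟩
  · have h1 := hs a b
    have h2 := hs b a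
    simp only [fun n => (h n).1 b a] at h2
    exact h1.unique h2
  · have : HasSum (fun n => ∑ i, ∑ j, c i * c j * K n (x i) (x j))
        (∑ i, ∑ j, c i * c j * L (x i) (x j)) :=
      hasSum_sum fun i _ => hasSum_sum fun j _ => (hs _ _).mul_left _
    exact this.nonneg fun n => (h n).2 ι x c

theorem exp {K : α → α → ℝ} (h : KP K) : KP (fun a b => Real.exp (K a b)) := by
  refine of_hasSum (K := fun n a b => ((n.factorial : ℝ))⁻¹ * K a b ^ n)
    (fun n => (h.pow n).smul (by positivity)) fun a b => ?_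
  rw [Real.exp_eq_exp_ℝ]
  have := NormedSpace.expSeries_div_hasSum_exp (K a b)
  simpa only [div_eq_inv_mul] using this

theorem delta [DecidableEq α] : KP (fun a b : α => if a = b then (1 : ℝ) else 0) := by
  refine of_psd (fun a b => by simp [eq_comm]) fun ι _ x => ?_
  exact (Matrix.PosSemidef.one (n := α) (R := ℝ)).submatrix x

theorem le_of_diag {K : α → α → ℝ} (h : KP K) (a b : α) : 2 * K a b ≤ K a a + K b b := by
  have := h.2 (Fin 2) ![a, b] ![1, -1]
  simp only [Fin.sum_univ_two, Matrix.cons_val_zero, Matrix.cons_val_one] at this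
  rw [h.1 b a] at this
  linarith

end KP

/-- Positive definite functions on a group. -/
def PD {Γ : Type} [Group Γ] (φ : Γ → ℝ) : Prop := KP (fun g h : Γ => φ (g⁻¹ * h))

theorem PD.le_one {Γ : Type} [Group Γ] {φ : Γ → ℝ} (h : PD φ) (h1 : φ 1 = 1) (g : Γ) :
    φ g ≤ 1 := by
  have := KP.le_of_diag h 1 g
  simp only [inv_one, mul_one, one_mul, inv_mul_cancel, h1] at this
  linarith

theorem PD.inv {Γ : Type} [Group Γ] {φ : Γ → ℝ} (h : PD φ) (g : Γ) : φ g⁻¹ = φ g := by
  have := h.1 g 1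
  simpa using this

/-- The approximation form of the Haagerup property. -/
def HP (Γ : Type) [Group Γ] : Prop :=
  ∀ (S : Finset Γ) (ε : ℝ), 0 < ε → ∃ φ : Γ → ℝ, PD φ ∧ φ 1 = 1 ∧ (∀ g, 0 ≤ φ g) ∧
    (∀ δ : ℝ, 0 < δ → {g | δ ≤ φ g}.Finite) ∧ ∀ g ∈ S, 1 - ε ≤ φ g

theorem cnd_fintype {Γ : Type} [Group Γ] {ψ : Γ → ℝ}
    (h : ∀ (n : ℕ) (g : Fin n → Γ) (c : Fin n → ℝ), ∑ i, c i = 0 →
      ∑ i, ∑ j, c i * c j * ψ ((g i)⁻¹ * g j) ≤ 0)
    (ι : Type) [Fintype ι] (g : ι → Γ) (c : ι → ℝ) (hc : ∑ i, c i = 0) :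
    ∑ i, ∑ j, c i * c j * ψ ((g i)⁻¹ * g j) ≤ 0 := by
  let e := (Fintype.equivFin ι).symm
  have := h _ (fun i => g (e i)) (fun i => c (e i)) (by rw [Equiv.sum_comp e c, hc])
  rw [← Equiv.sum_comp e]
  simp only [← Equiv.sum_comp e (fun j => c (e _) * c j * ψ ((g (e _))⁻¹ * g j))]
  exact this

theorem Haagerup.hp {Γ : Type} [Group Γ] (h : Haagerup Γ) : HP Γ := by
  obtain ⟨ψ, h0, h1, hinv, hcnd, hfin⟩ := h
  have hsym : ∀ g h : Γ, ψ (g⁻¹ * h) = ψ (h⁻¹ * g) := fun g h => by
    rw [← hinv]; simp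
  have hK : KP (fun g h : Γ => ψ g + ψ h - ψ (g⁻¹ * h)) := by
    refine ⟨fun a b => by simp only [hsym a b]; ring, fun ι _ x c => ?_⟩
    have := cnd_fintype hcnd (Option ι) (fun o => o.elim 1 x)
      (fun o => o.elim (-∑ i, c i) c) (by simp [Fintype.sum_option])
    simp only [Fintype.sum_option, Option.elim, inv_one, mul_one, one_mul, h1, hinv,
      Finset.sum_add_distrib] at this
    have e1 : ∑ i, ∑ j, c i * c j * (ψ (x i) + ψ (x j) - ψ ((x i)⁻¹ * x j)) =
        (∑ i, c i * ψ (x i)) * (∑ j, c j) + (∑ i, c i) * (∑ j, c j * ψ (x j)) -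
          ∑ i, ∑ j, c i * c j * ψ ((x i)⁻¹ * x j) := by
      rw [Finset.sum_mul_sum, Finset.sum_mul_sum, ← Finset.sum_add_distrib,
        ← Finset.sum_sub_distrib]
      refine Finset.sum_congr rfl fun i _ => ?_
      rw [← Finset.sum_add_distrib, ← Finset.sum_sub_distrib]
      refine Finset.sum_congr rfl fun j _ => by ring
    have e2 : ∑ j, (-∑ i, c i) * c j * ψ (x j) = -((∑ i, c i) * ∑ j, c j * ψ (x j)) := by
      generalize ∑ i, c i = s
      rw [Finset.mul_sum, ← Finset.sum_neg_distrib]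
      refine Finset.sum_congr rfl fun j _ => by ring
    have e3 : ∑ j, c j * (-∑ i, c i) * ψ (x j) = -((∑ j, c j * ψ (x j)) * ∑ i, c i) := by
      generalize ∑ i, c i = s
      rw [Finset.sum_mul, ← Finset.sum_neg_distrib]
      refine Finset.sum_congr rfl fun j _ => by ring
    rw [e1]; rw [e2, e3] at this
    linarith
  intro S ε hε
  obtain ⟨B, hB0, hB⟩ : ∃ B : ℝ, 0 < B ∧ ∀ s ∈ S, ψ s ≤ B :=
    ⟨1 + ∑ s ∈ S, ψ s, by have := Finset.sum_nonneg fun s (_ : s ∈ S) => h0 s; linarith,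
      fun s hs => by
      have := Finset.single_le_sum (f := ψ) (fun s _ => h0 s) hs
      linarith⟩
  set t : ℝ := ε / B with ht
  have ht0 : 0 < t := by positivity
  refine ⟨fun g => Real.exp (-(t * ψ g)), ?_, by simp [h1], fun g => (Real.exp_pos _).le,
    fun δ hδ => ?_, fun g hg => ?_⟩
  · refine (((hK.smul ht0.le).exp).mul (KP.rank_one fun g => Real.exp (-(t * ψ g)))).congr
      fun a b => ?_
    simp only [← Real.exp_add]
    congr 1; ring
  · refine (hfin (-Real.log δ / t)).subset fun g hg => ?_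
    simp only [Set.mem_ofPred_eq] at hg ⊢
    have := Real.log_le_log hδ hg
    rw [Real.log_exp] at this
    rw [le_div_iff₀ ht0]; linarith
  · have h2 := Real.add_one_le_exp (-(t * ψ g))
    have h3 : t * ψ g ≤ ε := by
      calc t * ψ g ≤ t * B := by gcongr; exact hB g hg
        _ = ε := by rw [ht]; field_simp
    linarith

theorem HP.haagerup {Γ : Type} [Group Γ] [Countable Γ] (h : HP Γ) : Haagerup Γ := by
  classical
  obtain ⟨e, he⟩ := exists_surjective_nat Γ
  choose φ hpd h1 h0 hfin hS using fun k : ℕ =>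
    h ((Finset.range (k + 1)).image e) ((1 / 2) ^ k) (by positivity)
  have hle : ∀ k g, φ k g ≤ 1 := fun k g => (hpd k).le_one (h1 k) g
  have hsum : ∀ g, Summable fun k => 1 - φ k g := by
    intro g
    obtain ⟨n, rfl⟩ := he g
    rw [← summable_nat_add_iff n]
    refine Summable.of_nonneg_of_le (fun k => by linarith [hle (k + n) (e n)]) (fun k => ?_)
      ((summable_nat_add_iff n).2 (summable_geometric_two))
    have := hS (k + n) (e n) (Finset.mem_image_of_mem _ (by simp))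
    linarith
  refine ⟨fun g => ∑' k, (1 - φ k g), fun g => tsum_nonneg fun k => by linarith [hle k g],
    by simp [h1], fun g => by simp only [fun k => (hpd k).inv g], fun n g c hc => ?_,
    fun R => ?_⟩
  · have : HasSum (fun k => ∑ i, ∑ j, c i * c j * (1 - φ k ((g i)⁻¹ * g j)))
        (∑ i, ∑ j, c i * c j * ∑' k, (1 - φ k ((g i)⁻¹ * g j))) :=
      hasSum_sum fun i _ => hasSum_sum fun j _ => (hsum _).hasSum.mul_left _
    refine this.nonpos fun k => ?_
    have h2 := (hpd k).2 (Fin n) g c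
    have h3 : ∑ i, ∑ j, c i * c j * (1 - φ k ((g i)⁻¹ * g j)) =
        (∑ i, c i) * (∑ j, c j) - ∑ i, ∑ j, c i * c j * φ k ((g i)⁻¹ * g j) := by
      rw [Finset.sum_mul_sum, ← Finset.sum_sub_distrib]
      refine Finset.sum_congr rfl fun i _ => ?_
      rw [← Finset.sum_sub_distrib]
      refine Finset.sum_congr rfl fun j _ => by ring
    rw [h3, hc]; linarith
  · obtain ⟨m, hm⟩ := exists_nat_gt (2 * R)
    refine ((Finset.range m).finite_toSet.biUnion fun k _ => hfin k (1 / 2) (by norm_num)).subset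
      fun g hg => ?_
    simp only [Set.mem_ofPred_eq] at hg
    by_contra hn
    simp only [Set.mem_iUnion, Set.mem_ofPred_eq, not_exists, not_le, Finset.mem_coe] at hn
    have h2 : ∑ k ∈ Finset.range m, (1 - φ k g) ≤ ∑' k, (1 - φ k g) :=
      (hsum g).sum_le_tsum _ fun k _ => by linarith [hle k g]
    have h3 : ∑ k ∈ Finset.range m, (1 / 2 : ℝ) ≤ ∑ k ∈ Finset.range m, (1 - φ k g) :=
      Finset.sum_le_sum fun k hk => by linarith [hn k hk]
    simp only [Finset.sum_const, Finset.card_range, nsmul_eq_mul] at h3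
    linarith

theorem HP.of_injective {Γ Δ : Type} [Group Γ] [Group Δ] (h : HP Δ) (f : Γ →* Δ)
    (hf : Function.Injective f) : HP Γ := by
  classical
  intro S ε hε
  obtain ⟨φ, hpd, h1, h0, hfin, hS⟩ := h (S.image f) ε hε
  refine ⟨fun g => φ (f g), (KP.comp hpd f).congr fun a b => by simp, by simp [h1],
    fun g => h0 _, fun δ hδ => Set.Finite.preimage (f := f) hf.injOn (hfin δ hδ),
    fun g hg => hS _ (Finset.mem_image_of_mem _ hg)⟩

theorem HP.mono {Γ : Type} [Group Γ] {H K : Subgroup Γ} (h : HP K) (hle : H ≤ K) : HP H :=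
  h.of_injective (Subgroup.inclusion hle) (Subgroup.inclusion_injective hle)

end Pool.Agent.MP_5045a8_al

end

section

/-! Permanence of the Haagerup property under co-amenable overgroups; GL(2,Z) and Z^2. -/

namespace Pool.Agent.MP_5045a8_al

open Finset Filter Topology

open Classical in
/-- Extension by zero of a function on a subgroup. -/
noncomputable def ext0 {Γ : Type} [Group Γ] (H : Subgroup Γ) (φ : H → ℝ) (g : Γ) : ℝ :=
  if h : g ∈ H then φ ⟨g, h⟩ else 0

theorem PD.ext0 {Γ : Type} [Group Γ] {H : Subgroup Γ} {φ : H → ℝ} (h : PD φ) :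
    PD (ext0 H φ) := by
  classical
  let β : Γ → H := fun g => ⟨(Quotient.out (QuotientGroup.mk g : Γ ⧸ H))⁻¹ * g, by
    rw [← QuotientGroup.eq]; simp⟩
  refine ((KP.delta.comp fun g : Γ => (QuotientGroup.mk g : Γ ⧸ H)).mul
    (KP.comp h β)).congr fun a b => ?_
  by_cases hab : a⁻¹ * b ∈ H
  · have e : (QuotientGroup.mk a : Γ ⧸ H) = QuotientGroup.mk b := QuotientGroup.eq.2 hab
    simp only [MP_5045a8_al.ext0, hab, dif_pos, e, if_true, one_mul]
    congr 1
    ext
    simp [β, e, mul_assoc]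
  · have e : (QuotientGroup.mk a : Γ ⧸ H) ≠ QuotientGroup.mk b := fun e =>
      hab (QuotientGroup.eq.1 e)
    simp [MP_5045a8_al.ext0, hab, e]

open Classical in
theorem HP.of_folner {Γ : Type} [Group Γ] {H : Subgroup Γ} (hH : HP H)
    (hF : ∀ (S : Finset Γ) (ε : ℝ), 0 < ε → ∃ T : Finset Γ, T.Nonempty ∧
      (∀ t ∈ T, ∀ t' ∈ T, t⁻¹ * t' ∈ H → t = t') ∧
      ∀ γ ∈ S, (1 - ε) * T.card ≤ (T.filter fun t => ∃ t' ∈ T, t⁻¹ * γ * t' ∈ H).card) :
    HP Γ := by
  intro S ε hε
  wlog hε1 : ε < 1 generalizing ε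
  · obtain ⟨φ, a, b, c, d, e⟩ := this (1 / 2) (by norm_num) (by norm_num)
    exact ⟨φ, a, b, c, d, fun g hg => by linarith [e g hg, not_lt.1 hε1]⟩
  obtain ⟨T, hT, hdis, hS⟩ := hF S (ε / 2) (by positivity)
  have hTc : (0 : ℝ) < T.card := by exact_mod_cast hT.card_pos
  let S' : Finset H := ((S ×ˢ T ×ˢ T).image fun p => p.2.1⁻¹ * p.1 * p.2.2).subtype (· ∈ H)
  obtain ⟨φ, hpd, h1, h0, hfin, hS'⟩ := hH S' (ε / 2) (by positivity)
  have e0 : ∀ g, 0 ≤ ext0 H φ g := fun g => by
    unfold ext0; split_ifs; exacts [h0 _, le_rfl]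
  refine ⟨fun g => (T.card : ℝ)⁻¹ * ∑ t ∈ T, ∑ t' ∈ T, ext0 H φ (t⁻¹ * g * t'), ?_, ?_,
    fun g => mul_nonneg (by positivity) (Finset.sum_nonneg fun _ _ =>
      Finset.sum_nonneg fun _ _ => e0 _), fun δ hδ => ?_, fun g hg => ?_⟩
  · refine KP.smul ⟨fun a b => ?_, fun ι _ x c => ?_⟩ (by positivity)
    · rw [Finset.sum_comm]
      refine Finset.sum_congr rfl fun t _ => Finset.sum_congr rfl fun t' _ => ?_
      rw [← hpd.ext0.inv]; congr 1; group
    · have := hpd.ext0.2 (ι × T) (fun p => x p.1 * p.2) (fun p => c p.1)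
      refine this.trans_eq ?_
      simp only [Fintype.sum_prod_type, Finset.mul_sum]
      refine Finset.sum_congr rfl fun i _ => ?_
      rw [Finset.sum_comm]
      refine Finset.sum_congr rfl fun j _ => ?_
      rw [← Finset.sum_coe_sort T]
      refine Finset.sum_congr rfl fun t _ => ?_
      rw [← Finset.sum_coe_sort T]
      refine Finset.sum_congr rfl fun t' _ => ?_
      congr 2; group
  · have : ∀ t ∈ T, ∑ t' ∈ T, ext0 H φ (t⁻¹ * 1 * t') = 1 := by
      intro t ht
      rw [Finset.sum_eq_single t]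
      · simp only [mul_one, inv_mul_cancel, ext0, H.one_mem, dif_pos]
        exact h1
      · intro t' ht' hne
        rw [mul_one, ext0, dif_neg fun hm => hne (hdis t ht t' ht' hm).symm]
      · exact fun h => (h ht).elim
    dsimp only
    rw [Finset.sum_congr rfl this]
    simp [hTc.ne']
  · have hf : ((fun p : Γ × H × Γ => p.1 * p.2.1 * p.2.2⁻¹) ''
        ((T : Set Γ) ×ˢ {h : H | δ / T.card ≤ φ h} ×ˢ (T : Set Γ))).Finite :=
      (T.finite_toSet.prod ((hfin _ (by positivity)).prod T.finite_toSet)).image _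
    refine hf.subset fun g hg => ?_
    simp only [Set.mem_ofPred_eq] at hg
    by_contra hn
    have hlt : ∀ t ∈ T, ∀ t' ∈ T, ext0 H φ (t⁻¹ * g * t') < δ / T.card := by
      intro t ht t' ht'
      unfold ext0
      split_ifs with hm
      · by_contra hge
        exact hn ⟨(t, ⟨_, hm⟩, t'), ⟨ht, not_lt.1 hge, ht'⟩, by simp [mul_assoc]⟩
      · positivity
    have h2 : ∑ t ∈ T, ∑ t' ∈ T, ext0 H φ (t⁻¹ * g * t') < ∑ t ∈ T, ∑ t' ∈ T, δ / T.card :=
      Finset.sum_lt_sum_of_nonempty hT fun t ht =>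
        Finset.sum_lt_sum_of_nonempty hT fun t' ht' => hlt t ht t' ht'
    simp only [Finset.sum_const, nsmul_eq_mul] at h2
    rw [inv_mul_eq_div, le_div_iff₀ hTc] at hg
    have : (T.card : ℝ) * (T.card * (δ / T.card)) = δ * T.card := by field_simp
    linarith
  · have h2 : ∀ t ∈ T.filter (fun t => ∃ t' ∈ T, t⁻¹ * g * t' ∈ H),
        1 - ε / 2 ≤ ∑ t' ∈ T, ext0 H φ (t⁻¹ * g * t') := by
      intro t ht
      obtain ⟨ht, t', ht', hm⟩ := Finset.mem_filter.1 ht
      refine le_trans ?_ (Finset.single_le_sum (f := fun t' => ext0 H φ (t⁻¹ * g * t'))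
        (fun _ _ => e0 _) ht')
      simp only [ext0, hm, dif_pos]
      refine hS' _ ?_
      simp only [S', Finset.mem_subtype, Finset.mem_image]
      exact ⟨(g, t, t'), by simp [hg, ht, ht'], rfl⟩
    have h3 := Finset.sum_le_sum h2
    have h4 : ∑ t ∈ T.filter (fun t => ∃ t' ∈ T, t⁻¹ * g * t' ∈ H),
        ∑ t' ∈ T, ext0 H φ (t⁻¹ * g * t') ≤ ∑ t ∈ T, ∑ t' ∈ T, ext0 H φ (t⁻¹ * g * t') :=
      Finset.sum_le_sum_of_subset_of_nonneg (Finset.filter_subset _ _) fun _ _ _ =>
        Finset.sum_nonneg fun _ _ => e0 _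
    simp only [Finset.sum_const, nsmul_eq_mul] at h3
    have h5 := hS g hg
    dsimp only
    rw [inv_mul_eq_div, le_div_iff₀ hTc]
    have h6 : (1 - ε / 2) * T.card * (1 - ε / 2) ≤
        (T.filter fun t => ∃ t' ∈ T, t⁻¹ * g * t' ∈ H).card * (1 - ε / 2) :=
      mul_le_mul_of_nonneg_right h5 (by linarith)
    nlinarith [sq_nonneg ε]

theorem HP.of_finiteIndex {Γ : Type} [Group Γ] {H : Subgroup Γ} (hH : HP H)
    (hi : H.index ≠ 0) : HP Γ := by
  classical
  have : H.FiniteIndex := ⟨hi⟩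
  have : Fintype (Γ ⧸ H) := Fintype.ofFinite _
  refine hH.of_folner fun S ε hε => ⟨Finset.univ.image (Quotient.out : Γ ⧸ H → Γ),
    ⟨_, Finset.mem_image_of_mem _ (Finset.mem_univ (QuotientGroup.mk 1))⟩, ?_, fun γ _ => ?_⟩
  · intro t ht t' ht' hm
    obtain ⟨q, -, rfl⟩ := Finset.mem_image.1 ht
    obtain ⟨q', -, rfl⟩ := Finset.mem_image.1 ht'
    have := QuotientGroup.eq.2 hm
    simp only [QuotientGroup.out_eq'] at this
    rw [this]
  · rw [Finset.filter_true_of_mem]
    · have : (0 : ℝ) ≤ (Finset.univ.image (Quotient.out : Γ ⧸ H → Γ)).card := by positivity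
      nlinarith
    · intro t _
      refine ⟨_, Finset.mem_image_of_mem _ (Finset.mem_univ (QuotientGroup.mk (γ⁻¹ * t))), ?_⟩
      have : (γ⁻¹ * t)⁻¹ * Quotient.out (QuotientGroup.mk (γ⁻¹ * t) : Γ ⧸ H) ∈ H := by
        rw [← QuotientGroup.eq]; simp
      simpa [mul_assoc] using this

theorem HP.of_cyclic {Γ : Type} [Group Γ] {H : Subgroup Γ} [hN : H.Normal] (hH : HP H) (t : Γ)
    (ht : ∀ γ : Γ, ∃ m : ℤ, (t ^ m)⁻¹ * γ ∈ H) : HP Γ := by
  classical
  by_cases hfin : ∃ n : ℤ, n ≠ 0 ∧ t ^ n ∈ H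
  · obtain ⟨n, hn, hnH⟩ := hfin
    refine hH.of_finiteIndex ?_
    have : IsOfFinOrder (QuotientGroup.mk t : Γ ⧸ H) := by
      rw [isOfFinOrder_iff_zpow_eq_one]
      exact ⟨n, hn, by rw [← QuotientGroup.mk_zpow, QuotientGroup.eq_one_iff]; exact hnH⟩
    have h2 : (Subgroup.zpowers (QuotientGroup.mk t : Γ ⧸ H) : Set (Γ ⧸ H)) = Set.univ := by
      ext q
      obtain ⟨γ, rfl⟩ := QuotientGroup.mk_surjective q
      obtain ⟨m, hm⟩ := ht γ
      simp only [SetLike.mem_coe, Subgroup.mem_zpowers_iff, Set.mem_univ, iff_true]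
      exact ⟨m, by rw [← QuotientGroup.mk_zpow]; exact QuotientGroup.eq.2 hm⟩
    have h3 := this.finite_zpowers
    rw [h2] at h3
    have : Finite (Γ ⧸ H) := Set.finite_univ_iff.1 h3
    exact Subgroup.index_ne_zero_of_finite
  push Not at hfin
  have hinj : ∀ i j : ℤ, (t ^ i)⁻¹ * t ^ j ∈ H → i = j := by
    intro i j h
    by_contra hne
    refine hfin (j - i) (by omega) ?_
    rw [sub_eq_neg_add, zpow_add, zpow_neg]; exact h
  have hinj' : Function.Injective fun i : ℤ => t ^ i := fun i j h =>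
    hinj i j (by simp only at h; rw [h]; simp)
  choose m hm using ht
  refine hH.of_folner fun S ε hε => ?_
  obtain ⟨B, hB⟩ : ∃ B : ℕ, ∀ γ ∈ S, |m γ| ≤ B :=
    ⟨∑ γ ∈ S, (m γ).natAbs, fun γ hγ => by
      have := Finset.single_le_sum (f := fun γ => (m γ).natAbs) (fun _ _ => Nat.zero_le _) hγ
      rw [← Int.natCast_natAbs]; exact_mod_cast this⟩
  obtain ⟨L, hL⟩ := exists_nat_gt (2 * B / ε + 2 * B)
  have hL0 : (0 : ℝ) < L := lt_of_le_of_lt (by positivity) hL
  have hLB : 2 * B ≤ L := by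
    have : (2 * B : ℝ) ≤ L := by have : (0 : ℝ) ≤ 2 * B / ε := by positivity
                                 linarith
    exact_mod_cast this
  have hL0' : 0 < L := by exact_mod_cast hL0
  refine ⟨(Finset.Ico (0 : ℤ) L).image fun i => t ^ i, ⟨t ^ (0 : ℤ),
    Finset.mem_image_of_mem _ (by simp [hL0'])⟩, ?_, fun γ hγ => ?_⟩
  · intro a ha b hb hab
    obtain ⟨i, -, rfl⟩ := Finset.mem_image.1 ha
    obtain ⟨j, -, rfl⟩ := Finset.mem_image.1 hb
    rw [hinj i j hab]
  · have hsub : (Finset.Ico (B : ℤ) (L - B)).image (fun i => t ^ i) ⊆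
        ((Finset.Ico (0 : ℤ) L).image fun i => t ^ i).filter fun a =>
          ∃ t' ∈ (Finset.Ico (0 : ℤ) L).image fun i => t ^ i, a⁻¹ * γ * t' ∈ H := by
      intro a ha
      obtain ⟨i, hi, rfl⟩ := Finset.mem_image.1 ha
      have hb := abs_le.1 (hB γ hγ)
      rw [Finset.mem_Ico] at hi
      refine Finset.mem_filter.2 ⟨Finset.mem_image_of_mem _ (Finset.mem_Ico.2 (by omega)),
        t ^ (i - m γ), Finset.mem_image_of_mem _ (Finset.mem_Ico.2 (by omega)), ?_⟩
      have := hN.conj_mem _ (hm γ) (t ^ (i - m γ))⁻¹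
      convert this using 1
      group
    have h2 := Finset.card_le_card hsub
    rw [Finset.card_image_of_injective _ hinj'] at h2 ⊢
    simp only [Int.card_Ico, sub_zero, Int.toNat_natCast] at h2 ⊢
    have h3 : ((L : ℤ) - B - B).toNat = L - 2 * B := by omega
    rw [h3] at h2
    have h4 : ((L - 2 * B : ℕ) : ℝ) = L - 2 * B := by rw [Nat.cast_sub hLB]; push_cast; ring
    have h5 : (2 * B : ℝ) ≤ ε * L := by
      have : 2 * B / ε ≤ L := by have : (0 : ℝ) ≤ 2 * B := by positivity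
                                 linarith
      rw [div_le_iff₀ hε] at this; linarith
    refine le_trans ?_ (Nat.cast_le.2 h2)
    rw [h4]; linarith

theorem finite_of_entries {ι : Type} [Fintype ι] (R : ℝ) :
    {v : ι → ℤ | ∀ i, ((v i : ℝ)) ^ 2 ≤ R}.Finite := by
  obtain ⟨n, hn⟩ := exists_nat_ge R
  refine (Set.Finite.pi' (t := fun _ : ι => Set.Icc (-(n : ℤ)) n)
    fun _ => Set.finite_Icc _ _).subset fun v hv i => ?_
  have h1 : ((v i : ℝ)) ^ 2 ≤ n := (hv i).trans hn
  have h2 : v i ^ 2 ≤ n := by exact_mod_cast h1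
  constructor <;> nlinarith [sq_nonneg (v i - 1), sq_nonneg (v i + 1), sq_nonneg (v i)]

theorem hp_Z2 : HP (Multiplicative (Fin 2 → ℤ)) := by
  refine Haagerup.hp ⟨fun k => ((k.toAdd 0 : ℤ) : ℝ) ^ 2 + ((k.toAdd 1 : ℤ) : ℝ) ^ 2,
    fun k => by positivity, by simp, fun k => by simp, fun n g c hc => ?_, fun R => ?_⟩
  · have hK := ((KP.rank_one fun k : Multiplicative (Fin 2 → ℤ) => ((k.toAdd 0 : ℤ) : ℝ)).add
      (KP.rank_one fun k : Multiplicative (Fin 2 → ℤ) => ((k.toAdd 1 : ℤ) : ℝ))).2 _ g c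
    let u : Fin n → ℝ := fun i => (((g i).toAdd 0 : ℤ) : ℝ) ^ 2 + (((g i).toAdd 1 : ℤ) : ℝ) ^ 2
    have e : ∑ i, ∑ j, c i * c j * (((((g i)⁻¹ * g j).toAdd 0 : ℤ) : ℝ) ^ 2 +
        ((((g i)⁻¹ * g j).toAdd 1 : ℤ) : ℝ) ^ 2) = (∑ i, c i * u i) * (∑ j, c j) +
        (∑ i, c i) * (∑ j, c j * u j) - 2 * ∑ i, ∑ j, c i * c j *
          ((((g i).toAdd 0 : ℤ) : ℝ) * (((g j).toAdd 0 : ℤ) : ℝ) +
            (((g i).toAdd 1 : ℤ) : ℝ) * (((g j).toAdd 1 : ℤ) : ℝ)) := by
      rw [Finset.sum_mul_sum, Finset.sum_mul_sum, Finset.mul_sum, ← Finset.sum_add_distrib,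
        ← Finset.sum_sub_distrib]
      refine Finset.sum_congr rfl fun i _ => ?_
      rw [Finset.mul_sum, ← Finset.sum_add_distrib, ← Finset.sum_sub_distrib]
      refine Finset.sum_congr rfl fun j _ => ?_
      simp only [u, toAdd_mul, toAdd_inv, Pi.add_apply, Pi.neg_apply]
      push_cast; ring
    rw [e, hc]; linarith
  · refine Set.Finite.preimage (f := fun k : Multiplicative (Fin 2 → ℤ) => k.toAdd)
      (Multiplicative.toAdd.injective.injOn) (finite_of_entries R) |>.subset fun k hk i => ?_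
    simp only [Set.mem_ofPred_eq] at hk
    fin_cases i <;> simp only [Fin.zero_eta, Fin.mk_one] <;>
      nlinarith [sq_nonneg ((k.toAdd 0 : ℤ) : ℝ), sq_nonneg ((k.toAdd 1 : ℤ) : ℝ)]

end Pool.Agent.MP_5045a8_al

end

section

/-! GL(2,Z) has the Haagerup property. -/

namespace Pool.Agent.MP_5045a8_al

open Finset Filter Topology

/-- The group GL(2,Z). -/
abbrev G2 : Type := GL (Fin 2) ℤ

theorem G2.det_sq (g : G2) : (g 0 0 * g 1 1 - g 0 1 * g 1 0) ^ 2 = 1 := by
  have h : IsUnit (g : Matrix (Fin 2) (Fin 2) ℤ).det := (Matrix.isUnits_det_units g)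
  rw [Matrix.det_fin_two] at h
  rcases Int.isUnit_iff.1 h with h | h <;> rw [h] <;> norm_num

theorem G2.det_cases (g : G2) :
    g 0 0 * g 1 1 - g 0 1 * g 1 0 = 1 ∨ g 0 0 * g 1 1 - g 0 1 * g 1 0 = -1 := by
  have h : IsUnit (g : Matrix (Fin 2) (Fin 2) ℤ).det := (Matrix.isUnits_det_units g)
  rw [Matrix.det_fin_two] at h
  exact Int.isUnit_iff.1 h

theorem G2.mul_apply (g h : G2) (i j : Fin 2) :
    (g * h) i j = g i 0 * h 0 j + g i 1 * h 1 j := by
  simp [Matrix.mul_apply, Fin.sum_univ_two]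

theorem G2.finite_entries (R : ℝ) : {g : G2 | ∀ i j, ((g i j : ℤ) : ℝ) ^ 2 ≤ R}.Finite := by
  refine Set.Finite.preimage (f := fun (g : G2) (p : Fin 2 × Fin 2) => g p.1 p.2) ?_
    (finite_of_entries R) |>.subset fun g hg p => hg p.1 p.2
  intro g _ h _ e
  ext i j
  exact congrFun e (i, j)

theorem hp_GL2 : HP G2 := by
  let p : G2 → ℝ := fun g => ((g 0 0 : ℤ) : ℝ) ^ 2 + ((g 0 1 : ℤ) : ℝ) ^ 2
  let r : G2 → ℝ := fun g => ((g 1 0 : ℤ) : ℝ) ^ 2 + ((g 1 1 : ℤ) : ℝ) ^ 2
  let q : G2 → ℝ := fun g => ((g 0 0 : ℤ) : ℝ) * (g 1 0 : ℤ) + ((g 0 1 : ℤ) : ℝ) * (g 1 1 : ℤ)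
  have hd : ∀ g : G2, (((g 0 0 : ℤ) : ℝ) * (g 1 1 : ℤ) - (g 0 1 : ℤ) * (g 1 0 : ℤ)) ^ 2 = 1 :=
    fun g => by exact_mod_cast G2.det_sq g
  have hpr : ∀ g, p g * r g - q g ^ 2 = 1 := fun g => by
    rw [← hd g]; simp only [p, q, r]; ring
  have h2 : ∀ g, 2 ≤ p g + r g := fun g => by
    have h0 : 0 ≤ p g + r g := by simp only [p, r]; positivity
    nlinarith [hpr g, sq_nonneg (p g - r g), sq_nonneg (q g)]
  have hkey : ∀ g h : G2, p (g⁻¹ * h) + r (g⁻¹ * h) = p g * r h + r g * p h - 2 * q g * q h := by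
    intro g h
    obtain ⟨k, rfl⟩ : ∃ k, h = g * k := ⟨g⁻¹ * h, by simp⟩
    rw [inv_mul_cancel_left, ← one_mul (p k + r k), ← hd g]
    simp only [p, q, r, G2.mul_apply]
    push_cast; ring
  let a : G2 → ℝ := fun g => (p g - r g) / (p g + r g)
  let b : G2 → ℝ := fun g => 2 * q g / (p g + r g)
  have hab : ∀ g, a g ^ 2 + b g ^ 2 < 1 := fun g => by
    have := h2 g
    simp only [a, b, div_pow, ← add_div]
    rw [div_lt_one (by positivity)]
    nlinarith [hpr g]
  have hlt : ∀ g h, |a g * a h + b g * b h| < 1 := fun g h => by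
    rw [abs_lt]
    constructor <;> nlinarith [hab g, hab h, sq_nonneg (a g - a h), sq_nonneg (b g - b h),
      sq_nonneg (a g + a h), sq_nonneg (b g + b h)]
  have hlog : ∀ g h : G2, Real.log ((p (g⁻¹ * h) + r (g⁻¹ * h)) / 2) =
      Real.log ((p g + r g) / 2) + Real.log ((p h + r h) / 2) +
        Real.log (1 - (a g * a h + b g * b h)) := by
    intro g h
    have e1 := h2 g
    have e2 := h2 h
    have e3 := (abs_lt.1 (hlt g h)).2
    rw [← Real.log_mul (by positivity) (by positivity),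
      ← Real.log_mul (by positivity) (by linarith), hkey]
    congr 1
    simp only [a, b]
    field_simp
    ring
  have hK : KP fun g h : G2 => -Real.log (1 - (a g * a h + b g * b h)) := by
    refine KP.of_hasSum (K := fun n g h => ((n : ℝ) + 1)⁻¹ * (a g * a h + b g * b h) ^ (n + 1))
      (fun n => (((KP.rank_one a).add (KP.rank_one b)).pow _).smul (by positivity)) fun g h => ?_
    have := Real.hasSum_pow_div_log_of_abs_lt_one (hlt g h)
    simpa only [div_eq_inv_mul] using this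
  have h1 : p 1 + r 1 = 2 := by simp [p, r]; norm_num
  refine Haagerup.hp ⟨fun g => Real.log ((p g + r g) / 2),
    fun g => Real.log_nonneg (by linarith [h2 g]), by simp [h1], fun g => ?_, fun n g c hc => ?_,
    fun R => ?_⟩
  · have e1 := hkey g 1
    have e2 := hkey 1 g
    simp only [mul_one, inv_one, one_mul] at e1 e2
    simp only [e1, e2]
    congr 1; ring
  · have h3 := hK.2 _ g c
    simp only [hlog]
    let u : Fin n → ℝ := fun i => Real.log ((p (g i) + r (g i)) / 2)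
    have e : ∑ i, ∑ j, c i * c j * (u i + u j +
        Real.log (1 - (a (g i) * a (g j) + b (g i) * b (g j)))) = (∑ i, c i * u i) * (∑ j, c j) +
        (∑ i, c i) * (∑ j, c j * u j) - ∑ i, ∑ j, c i * c j *
          -Real.log (1 - (a (g i) * a (g j) + b (g i) * b (g j))) := by
      rw [Finset.sum_mul_sum, Finset.sum_mul_sum, ← Finset.sum_add_distrib,
        ← Finset.sum_sub_distrib]
      refine Finset.sum_congr rfl fun i _ => ?_
      rw [← Finset.sum_add_distrib, ← Finset.sum_sub_distrib]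
      refine Finset.sum_congr rfl fun j _ => by ring
    rw [e, hc]; linarith
  · refine (G2.finite_entries (2 * Real.exp R)).subset fun g hg => ?_
    simp only [Set.mem_ofPred_eq] at hg
    have e1 := h2 g
    have e2 : (p g + r g) / 2 ≤ Real.exp R := by
      rw [← Real.exp_log (x := (p g + r g) / 2) (by positivity)]
      exact Real.exp_le_exp.2 hg
    simp only [p, r] at e2
    intro i j
    fin_cases i <;> fin_cases j <;> simp only [Fin.zero_eta, Fin.mk_one] <;>
      nlinarith [sq_nonneg ((g 0 0 : ℤ) : ℝ), sq_nonneg ((g 0 1 : ℤ) : ℝ),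
        sq_nonneg ((g 1 0 : ℤ) : ℝ), sq_nonneg ((g 1 1 : ℤ) : ℝ)]

end Pool.Agent.MP_5045a8_al

end

section

/-! Virtually cyclic subgroups of GL(2,Z): line stabilisers. -/

namespace Pool.Agent.MP_5045a8_al

open Finset Filter Topology Matrix

/-- The determinant of two plane vectors. -/
def d2 (x y : Fin 2 → ℝ) : ℝ := x 0 * y 1 - x 1 * y 0

/-- The action of GL(2,Z) on the real plane. -/
def act (g : G2) (z : Fin 2 → ℝ) : Fin 2 → ℝ :=
  (g : Matrix (Fin 2) (Fin 2) ℤ).map (Int.cast : ℤ → ℝ) *ᵥ z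

/-- The determinant as a real number. -/
def dt (g : G2) : ℝ := ((g 0 0 * g 1 1 - g 0 1 * g 1 0 : ℤ) : ℝ)

theorem act_apply (g : G2) (z : Fin 2 → ℝ) (i : Fin 2) :
    act g z i = (g i 0 : ℤ) * z 0 + (g i 1 : ℤ) * z 1 := by
  simp [act, mulVec, dotProduct, Fin.sum_univ_two]

theorem act_mul (g h : G2) (z : Fin 2 → ℝ) : act (g * h) z = act g (act h z) := by
  funext i
  simp only [act_apply, G2.mul_apply]
  push_cast; ring

theorem act_one (z : Fin 2 → ℝ) : act 1 z = z := by
  funext i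
  fin_cases i <;> simp [act_apply]

theorem act_inv (g : G2) (z : Fin 2 → ℝ) : act g⁻¹ (act g z) = z := by
  rw [← act_mul, inv_mul_cancel, act_one]

theorem act_inv' (g : G2) (z : Fin 2 → ℝ) : act g (act g⁻¹ z) = z := by
  rw [← act_mul, mul_inv_cancel, act_one]

theorem act_smul (g : G2) (t : ℝ) (z : Fin 2 → ℝ) : act g (t • z) = t • act g z := by
  simp [act, mulVec_smul]

theorem act_add (g : G2) (y z : Fin 2 → ℝ) : act g (y + z) = act g y + act g z := by
  simp [act, mulVec_add]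

theorem act_ne (g : G2) {z : Fin 2 → ℝ} (h : z ≠ 0) : act g z ≠ 0 := by
  intro e
  apply h
  rw [← act_inv g z, e]; simp [act]

theorem d2_act (g : G2) (x y : Fin 2 → ℝ) : d2 (act g x) (act g y) = dt g * d2 x y := by
  simp only [d2, act_apply, dt]
  push_cast; ring

theorem dt_cases (g : G2) : dt g = 1 ∨ dt g = -1 := by
  unfold dt
  rcases G2.det_cases g with h | h <;> rw [h] <;> simp

theorem dt_mul (g h : G2) : dt (g * h) = dt g * dt h := by
  simp only [dt, G2.mul_apply]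
  push_cast; ring

theorem dt_one : dt 1 = 1 := by simp [dt]

theorem abs_d2_act (g : G2) (x y : Fin 2 → ℝ) : |d2 (act g x) (act g y)| = |d2 x y| := by
  rw [d2_act, abs_mul]
  rcases dt_cases g with h | h <;> simp [h]

theorem d2_act_eq_zero (g : G2) (x y : Fin 2 → ℝ) : d2 (act g x) (act g y) = 0 ↔ d2 x y = 0 := by
  rw [← abs_eq_zero, abs_d2_act, abs_eq_zero]

theorem ne_zero_iff2 {R : Type} [Zero R] {a : Fin 2 → R} : a ≠ 0 ↔ a 0 ≠ 0 ∨ a 1 ≠ 0 := by
  rw [Ne, funext_iff, Fin.forall_fin_two]; simp only [Pi.zero_apply]; tauto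

theorem par {a x : Fin 2 → ℝ} (ha : a ≠ 0) (h : d2 x a = 0) : ∃ t : ℝ, x = t • a := by
  unfold d2 at h
  rcases ne_zero_iff2.1 ha with h0 | h0
  · refine ⟨x 0 / a 0, funext fun i => ?_⟩
    fin_cases i <;> simp <;> field_simp
    linarith
  · refine ⟨x 1 / a 1, funext fun i => ?_⟩
    fin_cases i <;> simp <;> field_simp
    linarith

theorem relIndex_of_colour {G β : Type} [Group G] [Finite β] {S0 S : Subgroup G} (c : G → β)
    (h : ∀ g ∈ S, ∀ k ∈ S, c g = c k → g⁻¹ * k ∈ S0) : S0.relIndex S ≠ 0 := by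
  have : Finite (S ⧸ S0.subgroupOf S) := by
    refine Finite.of_injective (fun q => c (Quotient.out q : S)) fun q q' e => ?_
    have := h _ (Quotient.out q : S).2 _ (Quotient.out q' : S).2 e
    have h2 : (Quotient.out q : S)⁻¹ * Quotient.out q' ∈ S0.subgroupOf S := this
    simpa using QuotientGroup.eq.2 h2
  exact Subgroup.index_ne_zero_of_finite

theorem VirtCyclic.of_relIndex {S0 S : Subgroup G2} (h : VirtCyclic S0) (hle : S0 ≤ S)
    (hi : S0.relIndex S ≠ 0) : VirtCyclic S := by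
  obtain ⟨c, hc, h⟩ := h
  exact ⟨c, hle hc, Subgroup.relIndex_ne_zero_trans h hi⟩

theorem vc_of_hom {S : Subgroup G2} (f : G2 → ℝ) (hf : ∀ g ∈ S, ∀ h ∈ S, f (g * h) = f g + f h)
    (hinj : ∀ g ∈ S, f g = 0 → g = 1) {ε : ℝ} (hε : 0 < ε)
    (hd : ∀ g ∈ S, f g ≠ 0 → ε ≤ |f g|) : VirtCyclic S := by
  let F : S →* Multiplicative ℝ := MonoidHom.mk' (fun g => Multiplicative.ofAdd (f g))
    fun g h => by simp [hf _ g.2 _ h.2, ofAdd_add]
  let A : AddSubgroup ℝ := F.range.toAddSubgroup'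
  obtain ⟨b, hb⟩ := AddSubgroup.cyclic_of_isolated_zero (H := A) hε (by
    rw [Set.disjoint_left]
    rintro x ⟨g, hg⟩ ⟨h0, h1⟩
    have e : f g = x := hg
    have := hd g g.2 (by rw [e]; exact h0.ne')
    rw [e, abs_of_pos h0] at this
    linarith)
  have hbA : b ∈ A := by rw [hb]; exact AddSubgroup.subset_closure rfl
  obtain ⟨c, hc⟩ := hbA
  refine ⟨c, c.2, ?_⟩
  rw [Subgroup.relIndex_eq_one.2]
  · exact one_ne_zero
  intro g hg
  have hgA : f g ∈ A := ⟨⟨g, hg⟩, rfl⟩
  rw [hb, AddSubgroup.mem_closure_singleton] at hgA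
  obtain ⟨n, hn⟩ := hgA
  have h1 : F ((c ^ n)⁻¹ * ⟨g, hg⟩) = 1 := by
    rw [map_mul, map_inv, map_zpow, hc, inv_mul_eq_one]
    exact congrArg Multiplicative.ofAdd hn
  have h1' : f (((c ^ n)⁻¹ * (⟨g, hg⟩ : S) : S) : G2) = 0 := congrArg Multiplicative.toAdd h1
  have h2 := hinj _ ((c ^ n)⁻¹ * (⟨g, hg⟩ : S) : S).2 h1'
  refine ⟨n, ?_⟩
  simpa [inv_mul_eq_one] using h2

theorem eig_bound {g : G2} (hd : dt g = 1) {a : Fin 2 → ℝ} (ha : a ≠ 0) {l : ℝ} (hl : 0 < l)
    (h : act g a = l • a) (h1 : l ≠ 1) : 2 ≤ l ∨ l ≤ 1 / 2 := by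
  have e0 := congrFun h 0
  have e1 := congrFun h 1
  simp only [act_apply, Pi.smul_apply, smul_eq_mul] at e0 e1
  unfold dt at hd
  push_cast at hd
  have hq : l ^ 2 - ((g 0 0 + g 1 1 : ℤ) : ℝ) * l + 1 = 0 := by
    push_cast
    rcases ne_zero_iff2.1 ha with h0 | h0
    · apply mul_left_cancel₀ h0
      linear_combination ((g 1 1 : ℤ) - l) * e0 - (g 0 1 : ℤ) * e1 - a 0 * hd
    · apply mul_left_cancel₀ h0
      linear_combination ((g 0 0 : ℤ) - l) * e1 - (g 1 0 : ℤ) * e0 - a 1 * hd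
  generalize g 0 0 + g 1 1 = t at hq
  have h2 : (2 : ℝ) < t := by
    have : 0 < (l - 1) ^ 2 := by positivity
    by_contra hle
    nlinarith
  have h3 : (3 : ℝ) ≤ t := by
    have : (2 : ℤ) < t := by exact_mod_cast h2
    exact_mod_cast this
  by_contra hn
  push Not at hn
  nlinarith [hn.1, hn.2]

theorem eig_int {g : G2} {z : Fin 2 → ℤ} (hz : z ≠ 0) {l : ℝ} (hl : 0 < l)
    (h : act g (fun i => (z i : ℝ)) = l • fun i => (z i : ℝ)) : 1 ≤ l := by
  by_contra hlt
  push Not at hlt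
  have hp : ∀ n : ℕ, act (g ^ n) (fun i => (z i : ℝ)) = l ^ n • fun i => (z i : ℝ) := by
    intro n
    induction n with
    | zero => simp [act_one]
    | succ n ih => rw [pow_succ, act_mul, h, act_smul, ih, smul_smul, pow_succ']
  obtain ⟨i, hi⟩ := Function.ne_iff.1 hz
  have hi' : (0 : ℝ) < |(z i : ℝ)| := abs_pos.2 (by exact_mod_cast hi)
  obtain ⟨n, hn⟩ := exists_pow_lt_of_lt_one (inv_pos.2 hi') hlt
  have e := congrFun (hp n) i
  simp only [act_apply, Pi.smul_apply, smul_eq_mul] at e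
  have e2 : (((g ^ n) i 0 * z 0 + (g ^ n) i 1 * z 1 : ℤ) : ℝ) = l ^ n * z i := by
    push_cast; exact e
  generalize (g ^ n) i 0 * z 0 + (g ^ n) i 1 * z 1 = m at e2
  have h3 : |(m : ℝ)| < 1 := by
    rw [e2, abs_mul, abs_of_pos (by positivity)]
    rwa [inv_eq_one_div, lt_div_iff₀ hi'] at hn
  have h4 : m = 0 := by
    have : |m| < 1 := by exact_mod_cast h3
    exact Int.abs_lt_one_iff.1 this
  rw [h4] at e2
  have : 0 < |l ^ n * z i| := by rw [abs_mul]; positivity
  rw [← e2] at this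
  simp at this

theorem eq_one_of_fix {g : G2} {y z : Fin 2 → ℝ} (hyz : d2 z y ≠ 0) (hy : act g y = y)
    (hz : act g z = z) : g = 1 := by
  have y0 := congrFun hy 0
  have y1 := congrFun hy 1
  have z0 := congrFun hz 0
  have z1 := congrFun hz 1
  simp only [act_apply] at y0 y1 z0 z1
  unfold d2 at hyz
  have a : ((g 0 0 : ℤ) : ℝ) = 1 := mul_left_cancel₀ hyz (by linear_combination y 1 * z0 - z 1 * y0)
  have b : ((g 0 1 : ℤ) : ℝ) = 0 := mul_left_cancel₀ hyz (by linear_combination z 0 * y0 - y 0 * z0)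
  have c : ((g 1 0 : ℤ) : ℝ) = 0 := mul_left_cancel₀ hyz (by linear_combination y 1 * z1 - z 1 * y1)
  have d : ((g 1 1 : ℤ) : ℝ) = 1 := mul_left_cancel₀ hyz (by linear_combination z 0 * y1 - y 0 * z1)
  ext i j
  fin_cases i <;> fin_cases j <;> simp <;> assumption_mod_cast

theorem vc_of_line {S : Subgroup G2} {a : Fin 2 → ℝ} (ha : a ≠ 0)
    (hS : ∀ g ∈ S, d2 (act g a) a = 0) : VirtCyclic S := by
  have hex : ∀ g : G2, ∃ l : ℝ, g ∈ S → act g a = l • a := fun g => by
    by_cases hg : g ∈ S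
    · obtain ⟨t, ht⟩ := par ha (hS g hg)
      exact ⟨t, fun _ => ht⟩
    · exact ⟨0, fun h => (hg h).elim⟩
  choose lam hlam using hex
  have hcan : ∀ s t : ℝ, s • a = t • a → s = t := fun s t h => smul_left_injective ℝ ha h
  have hmul : ∀ g ∈ S, ∀ h ∈ S, lam (g * h) = lam g * lam h := fun g hg h hh => hcan _ _ (by
    rw [← hlam _ (S.mul_mem hg hh), act_mul, hlam h hh, act_smul, hlam g hg, smul_smul, mul_comm])
  have h1 : lam 1 = 1 := hcan _ _ (by rw [← hlam _ S.one_mem, act_one, one_smul])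
  have hinv : ∀ g ∈ S, lam g * lam g⁻¹ = 1 := fun g hg => by
    rw [← hmul g hg _ (S.inv_mem hg), mul_inv_cancel, h1]
  have hdinv : ∀ g : G2, dt g * dt g⁻¹ = 1 := fun g => by rw [← dt_mul, mul_inv_cancel, dt_one]
  let S0 : Subgroup G2 :=
    { carrier := {g | g ∈ S ∧ dt g = 1 ∧ 0 < lam g}
      one_mem' := ⟨S.one_mem, dt_one, by rw [h1]; exact one_pos⟩
      mul_mem' := fun {g h} hg hh => ⟨S.mul_mem hg.1 hh.1, by rw [dt_mul, hg.2.1, hh.2.1, one_mul],
        by rw [hmul g hg.1 h hh.1]; exact mul_pos hg.2.2 hh.2.2⟩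
      inv_mem' := fun {g} hg => ⟨S.inv_mem hg.1, by simpa [hg.2.1] using hdinv g,
        (pos_iff_pos_of_mul_pos (by rw [hinv g hg.1]; exact one_pos)).1 hg.2.2⟩ }
  have hne : ∀ g ∈ S, lam g ≠ 0 := fun g hg e => by simpa [e] using hinv g hg
  refine VirtCyclic.of_relIndex (S0 := S0) ?_ (fun g hg => hg.1)
    (relIndex_of_colour (fun g => (dt g = 1, 0 < lam g)) fun g hg k hk e => ?_)
  swap
  · simp only [Prod.mk.injEq, eq_iff_iff] at e
    have hgk := S.mul_mem (S.inv_mem hg) hk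
    have e1 : dt k = dt g * dt (g⁻¹ * k) := by rw [← dt_mul, mul_inv_cancel_left]
    have e2 : lam k = lam g * lam (g⁻¹ * k) := by rw [← hmul _ hg _ hgk, mul_inv_cancel_left]
    refine ⟨hgk, ?_, ?_⟩
    · rcases dt_cases g with a1 | a1 <;> rcases dt_cases k with a2 | a2 <;>
        rw [a1, a2] at e1 e <;> norm_num at e <;> linarith
    · rcases lt_or_gt_of_ne (hne g hg) with a1 | a1
      · have a2 : lam k < 0 := lt_of_le_of_ne (not_lt.1 fun h => (e.2.2 h).not_gt a1) (hne k hk)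
        by_contra hn
        nlinarith
      · have a2 := e.2.1 a1
        by_contra hn
        nlinarith
  by_cases hcase : ∀ g ∈ S0, lam g = 1 → g = 1
  · refine vc_of_hom (fun g => Real.log (lam g)) (fun g hg h hh => ?_) (fun g hg e => ?_)
      (Real.log_pos one_lt_two) fun g hg e => ?_
    · rw [hmul g hg.1 h hh.1, Real.log_mul hg.2.2.ne' hh.2.2.ne']
    · exact hcase g hg (Real.eq_one_of_pos_of_log_eq_zero hg.2.2 e)
    · rcases eig_bound hg.2.1 ha hg.2.2 (hlam g hg.1) (fun h => e (by simp [h])) with h | h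
      · exact (Real.log_le_log two_pos h).trans (le_abs_self _)
      · have := Real.log_le_log hg.2.2 h
        rw [one_div, Real.log_inv] at this
        linarith [neg_le_abs (Real.log (lam g))]
  push Not at hcase
  obtain ⟨g0, hg0, hl0, hne0⟩ := hcase
  obtain ⟨p, q, hpq, hz⟩ : ∃ p q : ℤ, (p ≠ 0 ∨ q ≠ 0) ∧ p * a 0 + q * a 1 = 0 := by
    have e := hlam g0 hg0.1
    rw [hl0, one_smul] at e
    have e0 := congrFun e 0
    have e1 := congrFun e 1
    simp only [act_apply] at e0 e1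
    by_cases h : g0 0 0 - 1 ≠ 0 ∨ g0 0 1 ≠ 0
    · exact ⟨_, _, h, by push_cast; linarith⟩
    refine ⟨g0 1 0, g0 1 1 - 1, ?_, by push_cast; linarith⟩
    by_contra h'
    push Not at h h'
    apply hne0
    ext i j
    fin_cases i <;> fin_cases j <;> simp <;> omega
  let z : Fin 2 → ℤ := ![-q, p]
  have hz0 : z ≠ 0 := by
    rw [ne_zero_iff2]; simp only [z, Matrix.cons_val_zero, Matrix.cons_val_one]; omega
  let zr : Fin 2 → ℝ := fun i => z i
  let y : Fin 2 → ℝ := ![p, q]
  obtain ⟨μ, hμ⟩ := par (x := zr) ha (by simp [d2, zr, z]; linarith)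
  have hzl : ∀ g ∈ S, act g zr = lam g • zr := fun g hg => by
    rw [hμ, act_smul, hlam g hg, smul_comm]
  have hl1 : ∀ g ∈ S0, lam g = 1 := fun g hg => by
    have a1 := eig_int hz0 hg.2.2 (hzl g hg.1)
    have hg' := S0.inv_mem hg
    have a2 := eig_int hz0 hg'.2.2 (hzl _ hg'.1)
    nlinarith [hinv g hg.1]
  have hfix : ∀ g ∈ S0, act g zr = zr := fun g hg => by rw [hzl g hg.1, hl1 g hg, one_smul]
  have hzy : d2 zr y ≠ 0 := by
    have : (0 : ℤ) < p ^ 2 + q ^ 2 := by rcases hpq with h | h <;> positivity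
    have : (0 : ℝ) < p ^ 2 + q ^ 2 := by exact_mod_cast this
    simp [d2, zr, z, y]; nlinarith
  have hzr0 : zr ≠ 0 := by
    intro e; apply hzy; simp [e, d2]
  have hw : ∀ g ∈ S0, ∃ t : ℝ, act g y = y + t • zr := fun g hg => by
    have e := d2_act g zr y
    rw [hfix g hg, hg.2.1, one_mul] at e
    obtain ⟨t, ht⟩ := par (x := act g y - y) hzr0 (by
      simp only [d2, Pi.sub_apply] at e ⊢; linarith)
    exact ⟨t, by rw [← ht]; abel⟩
  refine vc_of_hom (fun g => d2 (act g y) y) (fun g hg h hh => ?_) (fun g hg e => ?_) one_pos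
    fun g hg e => ?_
  · obtain ⟨s, hs⟩ := hw g hg
    obtain ⟨t, ht⟩ := hw h hh
    rw [act_mul, ht, act_add, act_smul, hfix g hg, hs]
    simp only [d2, Pi.add_apply, Pi.smul_apply, smul_eq_mul]
    ring
  · obtain ⟨s, hs⟩ := hw g hg
    refine eq_one_of_fix hzy ?_ (hfix g hg)
    have : s * d2 zr y = 0 := by
      rw [← e, hs]; simp only [d2, Pi.add_apply, Pi.smul_apply, smul_eq_mul]; ring
    rw [hs, (mul_eq_zero.1 this).resolve_right hzy]; simp
  · have : d2 (act g y) y = (((g 0 0 * p + g 0 1 * q) * q - (g 1 0 * p + g 1 1 * q) * p : ℤ) : ℝ) := by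
      simp [d2, act_apply, y]
    rw [this] at e ⊢
    exact_mod_cast Int.one_le_abs (by exact_mod_cast e)


end Pool.Agent.MP_5045a8_al

end

section

/-! Herglotz representation of positive definite functions on Z^2. -/

namespace Pool.Agent.MP_5045a8_al

open Finset Filter Topology MeasureTheory UnitAddTorus

/-- The two-dimensional torus. -/
abbrev T2 : Type := UnitAddTorus (Fin 2)

/-- Haar probability measure on the torus. -/
noncomputable def vol2 : Measure T2 := Measure.pi fun _ : Fin 2 => AddCircle.haarAddCircle (T := 1)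

instance vol2_prob : IsProbabilityMeasure vol2 := by unfold vol2; infer_instance

theorem integral_fourier_haar (n : ℤ) :
    ∫ x : UnitAddCircle, fourier n x ∂(AddCircle.haarAddCircle (T := 1)) =
      if n = 0 then 1 else 0 := by
  split_ifs with h
  · simp [h]
  · exact integral_eq_zero_of_add_right_eq_neg (μ := AddCircle.haarAddCircle)
      (fourier_add_half_inv_index h one_pos)

theorem integral_mFourier (k : Fin 2 → ℤ) :
    ∫ θ, mFourier k θ ∂vol2 = if k = 0 then 1 else 0 := by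
  have := integral_fintype_prod_eq_prod (𝕜 := ℂ) (ι := Fin 2) (E := fun _ => UnitAddCircle)
    (fun i x => fourier (k i) x) (μ := fun _ => AddCircle.haarAddCircle (T := 1))
  simp only [mFourier, ContinuousMap.coe_mk, vol2]
  rw [this]
  simp only [integral_fourier_haar, Fin.prod_univ_two]
  by_cases h0 : k 0 = 0 <;> by_cases h1 : k 1 = 0 <;> simp [h0, h1, funext_iff, Fin.forall_fin_two]

theorem integrable_cont (μ : Measure T2) [IsFiniteMeasure μ] {E : Type} [NormedAddCommGroup E]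
    {f : T2 → E} (hf : Continuous f) : Integrable f μ :=
  hf.integrable_of_hasCompactSupport (HasCompactSupport.of_compactSpace f)

theorem measure_ext_fourier {μ ν : Measure T2} [IsFiniteMeasure μ] [IsFiniteMeasure ν]
    (h : ∀ k, ∫ θ, mFourier k θ ∂μ = ∫ θ, mFourier k θ ∂ν) : μ = ν := by
  have key : ∀ f : C(T2, ℂ), ∫ θ, f θ ∂μ = ∫ θ, f θ ∂ν := by
    let L : ∀ (m : Measure T2) [IsFiniteMeasure m], C(T2, ℂ) →L[ℂ] ℂ := fun m _ =>
      (L1.integralCLM' ℂ).comp (ContinuousMap.toLp 1 m ℂ)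
    have hL : ∀ (m : Measure T2) [IsFiniteMeasure m] (f : C(T2, ℂ)), L m f = ∫ θ, f θ ∂m := by
      intro m _ f
      simp only [L, ContinuousLinearMap.comp_apply]
      rw [← L1.integral_eq', L1.integral_eq_integral]
      exact integral_congr_ae (ContinuousMap.coeFn_toLp m f)
    have : L μ = L ν := by
      refine ContinuousLinearMap.ext_on (s := Set.range (mFourier (d := Fin 2))) ?_ ?_
      · rw [Submodule.dense_iff_topologicalClosure_eq_top]
        exact span_mFourier_closure_eq_top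
      · rintro _ ⟨k, rfl⟩
        rw [hL, hL, h]
    intro f
    rw [← hL, ← hL, this]
  refine ext_of_forall_integral_eq_of_IsFiniteMeasure fun f => ?_
  have := key ⟨fun θ => (f θ : ℂ), by fun_prop⟩
  simp only [ContinuousMap.coe_mk, integral_complex_ofReal] at this
  exact_mod_cast this

/-- The box of side N. -/
noncomputable def box (N : ℕ) : Finset (Fin 2 → ℤ) :=
  Fintype.piFinset fun _ => Finset.Ico (0 : ℤ) N

theorem box_count (k : Fin 2 → ℤ) :
    Tendsto (fun N : ℕ => (((N : ℝ) ^ 2)⁻¹ * ((box N).filter fun j => j + k ∈ box N).card))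
      atTop (𝓝 1) := by
  have h1 : ∀ N : ℕ, |k 0| + |k 1| + 1 ≤ N →
      ((N : ℝ) ^ 2)⁻¹ * ((box N).filter fun j => j + k ∈ box N).card =
        (1 - |(k 0 : ℝ)| / N) * (1 - |(k 1 : ℝ)| / N) := by
    intro N hN
    have a0 := abs_nonneg (k 0)
    have a1 := abs_nonneg (k 1)
    have e : (box N).filter (fun j => j + k ∈ box N) =
        Fintype.piFinset fun i => Finset.Ico (max 0 (-k i)) (min (N : ℤ) (N - k i)) := by
      ext j
      simp only [box, Finset.mem_filter, Fintype.mem_piFinset, Finset.mem_Ico, Pi.add_apply,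
        Fin.forall_fin_two]
      omega
    have c : ∀ i, |k i| ≤ N → (((min (N : ℤ) (N - k i) - max 0 (-k i)).toNat : ℕ) : ℝ) =
        N - |(k i : ℝ)| := by
      intro i hi
      have : (((min (N : ℤ) (N - k i) - max 0 (-k i)).toNat : ℕ) : ℤ) = N - |k i| := by
        rcases abs_cases (k i) with h | h <;> omega
      exact_mod_cast congrArg (Int.cast : ℤ → ℝ) this
    have hN0 : (0 : ℝ) < N := by
      have : (0 : ℤ) < N := by omega
      exact_mod_cast this
    rw [e, Fintype.card_piFinset]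
    simp only [Int.card_Ico, Fin.prod_univ_two, Nat.cast_mul]
    rw [c 0 (by omega), c 1 (by omega)]
    field_simp
  have h2 : Tendsto (fun N : ℕ => (1 - |(k 0 : ℝ)| / N) * (1 - |(k 1 : ℝ)| / N)) atTop
      (𝓝 ((1 - 0) * (1 - 0))) :=
    (tendsto_const_nhds.sub (tendsto_const_div_atTop_nhds_zero_nat _)).mul
      (tendsto_const_nhds.sub (tendsto_const_div_atTop_nhds_zero_nat _))
  simp only [sub_zero, mul_one] at h2
  refine h2.congr' ?_
  filter_upwards [eventually_ge_atTop (|k 0| + |k 1| + 1).toNat] with N hN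
  exact (h1 N (by omega)).symm

theorem herglotz {Φ : (Fin 2 → ℤ) → ℝ} (h : KP fun k l => Φ (l - k)) :
    ∃ μ : Measure T2, IsFiniteMeasure μ ∧ ∀ k, ∫ θ, mFourier k θ ∂μ = Φ k := by
  classical
  have hev : ∀ k, Φ (-k) = Φ k := fun k => by simpa using h.1 k 0
  let R : ℕ → T2 → ℝ := fun N θ => ((N : ℝ) ^ 2)⁻¹ * ∑ j ∈ box N, ∑ l ∈ box N,
    Φ (l - j) * (mFourier (j - l) θ).re
  have hRc : ∀ N, Continuous (R N) := fun N => by simp only [R]; fun_prop
  have hR0 : ∀ N θ, 0 ≤ R N θ := by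
    intro N θ
    refine mul_nonneg (by positivity) ?_
    have h1 := h.2 (box N) (fun j => j) (fun j => (mFourier j.1 θ).re)
    have h2 := h.2 (box N) (fun j => j) (fun j => (mFourier j.1 θ).im)
    refine (add_nonneg h1 h2).trans_eq ?_
    rw [← Finset.sum_add_distrib, ← Finset.sum_coe_sort (box N)]
    refine Finset.sum_congr rfl fun j _ => ?_
    rw [← Finset.sum_add_distrib, ← Finset.sum_coe_sort (box N)]
    refine Finset.sum_congr rfl fun l _ => ?_
    rw [sub_eq_add_neg j.1, mFourier_add, mFourier_neg]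
    simp only [Complex.mul_re, Complex.conj_re, Complex.conj_im]
    ring
  have hint : ∀ (N : ℕ) k, ∫ θ, (R N θ : ℂ) * mFourier k θ ∂vol2 =
      ((((N : ℝ) ^ 2)⁻¹ * ((box N).filter fun j => j + k ∈ box N).card * Φ k : ℝ) : ℂ) := by
    intro N k
    have e : ∀ θ, (R N θ : ℂ) * mFourier k θ = (((N : ℝ) ^ 2)⁻¹ : ℝ) * ∑ j ∈ box N, ∑ l ∈ box N,
        ((Φ (l - j) / 2 : ℝ) * mFourier (j - l + k) θ +
          (Φ (l - j) / 2 : ℝ) * mFourier (l - j + k) θ) := by
      intro θ
      simp only [R, Complex.ofReal_mul, Complex.ofReal_sum, mul_assoc, Finset.sum_mul]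
      congr 1
      refine Finset.sum_congr rfl fun j _ => Finset.sum_congr rfl fun l _ => ?_
      rw [mFourier_add, mFourier_add, ← neg_sub j l, mFourier_neg, Complex.re_eq_add_conj]
      push_cast; ring
    simp only [e]
    rw [integral_const_mul, integral_finsetSum _ fun j _ => integrable_cont _ (by fun_prop)]
    have e2 : ∀ j ∈ box N, ∫ θ, ∑ l ∈ box N, ((Φ (l - j) / 2 : ℝ) * mFourier (j - l + k) θ +
          (Φ (l - j) / 2 : ℝ) * mFourier (l - j + k) θ) ∂vol2 =
        ∑ l ∈ box N, (((if l = j + k then Φ k / 2 else 0 : ℝ) : ℂ) +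
          ((if j = l + k then Φ k / 2 else 0 : ℝ) : ℂ)) := by
      intro j _
      rw [integral_finsetSum _ fun l _ => integrable_cont _ (by fun_prop)]
      refine Finset.sum_congr rfl fun l _ => ?_
      rw [integral_add (integrable_cont _ (by fun_prop)) (integrable_cont _ (by fun_prop)),
        integral_const_mul, integral_const_mul, integral_mFourier, integral_mFourier]
      congr 1
      · by_cases hl : l = j + k
        · simp [hl]
        · rw [if_neg hl, if_neg fun h0 => hl (by linear_combination -h0)]; simp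
      · by_cases hl : j = l + k
        · simp [hl, hev]
        · rw [if_neg hl, if_neg fun h0 => hl (by linear_combination -h0)]; simp
    rw [Finset.sum_congr rfl e2]
    simp only [Finset.sum_add_distrib]
    rw [Finset.sum_comm (s := box N) (t := box N)
      (f := fun j l => ((if j = l + k then Φ k / 2 else 0 : ℝ) : ℂ))]
    simp only [← Complex.ofReal_sum, Finset.sum_ite_eq', ← Finset.sum_filter, Finset.sum_const,
      nsmul_eq_mul]
    push_cast; ring
  let μ : ℕ → Measure T2 := fun N => vol2.withDensity fun θ => (R N θ).toNNReal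
  have hμ : ∀ N k, ∫ θ, mFourier k θ ∂μ N = ∫ θ, (R N θ : ℂ) * mFourier k θ ∂vol2 := by
    intro N k
    rw [integral_withDensity_eq_integral_smul (hRc N).measurable.real_toNNReal]
    refine integral_congr_ae (Eventually.of_forall fun θ => ?_)
    simp [NNReal.smul_def, hR0 N θ]
  have hfin : ∀ N, IsFiniteMeasure (μ N) := fun N =>
    isFiniteMeasure_withDensity_ofReal (integrable_cont vol2 (hRc N)).hasFiniteIntegral
  let m : ℕ → FiniteMeasure T2 := fun N => ⟨μ N, hfin N⟩
  have hΦ0 : 0 ≤ Φ 0 := by simpa using h.2 Unit (fun _ => 0) (fun _ => 1)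
  have hmass : ∀ N, (m N).mass ≤ (Φ 0).toNNReal := by
    intro N
    have h1 := hμ N 0
    rw [hint, mFourier_zero] at h1
    simp only [ContinuousMap.one_apply, integral_const, Complex.real_smul, mul_one,
      Complex.ofReal_inj] at h1
    rw [Real.le_toNNReal_iff_coe_le hΦ0]
    change (μ N).real Set.univ ≤ Φ 0
    rw [h1]
    have h2 : ((N : ℝ) ^ 2)⁻¹ * ((box N).filter fun j => j + 0 ∈ box N).card ≤ 1 := by
      have : ((box N).filter fun j => j + 0 ∈ box N).card ≤ N ^ 2 := by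
        refine (Finset.card_filter_le _ _).trans ?_
        simp [box, Fintype.card_piFinset]
      rw [inv_mul_eq_div]
      exact div_le_one_of_le₀ (by exact_mod_cast this) (by positivity)
    nlinarith
  obtain ⟨ν, -, hν⟩ := (isCompact_setOfPred_finiteMeasure_le_of_compactSpace T2
    (Φ 0).toNNReal).ultrafilter_le_nhds ((hyperfilter ℕ).map m)
    (by
      rw [le_principal_iff, Ultrafilter.mem_coe, Ultrafilter.mem_map]
      exact Eventually.of_forall hmass)
  refine ⟨ν, inferInstance, fun k => ?_⟩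
  have h1 := (FiniteMeasure.tendsto_iff_forall_integral_rclike_tendsto ℂ
    (F := (hyperfilter ℕ : Filter ℕ)) (μs := m)).1 hν
    (BoundedContinuousFunction.mkOfCompact (mFourier k))
  have h2 : Tendsto (fun N => ∫ θ, mFourier k θ ∂μ N) atTop (𝓝 (Φ k)) := by
    simp only [hμ, hint]
    have := (box_count k).mul_const (Φ k)
    rw [one_mul] at this
    exact (Complex.continuous_ofReal.tendsto _).comp this
  exact tendsto_nhds_unique h1 (h2.mono_left Nat.hyperfilter_le_atTop)

end Pool.Agent.MP_5045a8_al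

end

section

/-! The analytic core of the relative rigidity argument for Z^2. -/

namespace Pool.Agent.MP_5045a8_al

open Finset Filter Topology MeasureTheory UnitAddTorus Matrix
open scoped NNReal

/-- Linear action of an integer matrix on the torus. -/
def actA (A : Matrix (Fin 2) (Fin 2) ℤ) (θ : T2) : T2 := fun i => A i 0 • θ 0 + A i 1 • θ 1

theorem actA_cont (A : Matrix (Fin 2) (Fin 2) ℤ) : Continuous (actA A) := by
  unfold actA; fun_prop

theorem mFourier_actA (A : Matrix (Fin 2) (Fin 2) ℤ) (k : Fin 2 → ℤ) (θ : T2) :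
    mFourier k (actA A θ) = mFourier (k ᵥ* A) θ := by
  simp only [mFourier, ContinuousMap.coe_mk, Fin.prod_univ_two, actA, fourier_apply, vecMul,
    dotProduct, Fin.sum_univ_two, smul_add, smul_smul, add_smul, AddCircle.toCircle_add,
    Circle.coe_mul]
  ring

/-- The chart of the torus with values in the square of side one centred at the origin. -/
noncomputable def chart (θ : T2) : Fin 2 → ℝ := fun i => AddCircle.equivIco 1 (-1 / 2) (θ i)

theorem chart_meas : Measurable chart :=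
  measurable_pi_lambda _ fun i => measurable_subtype_coe.comp
    ((AddCircle.measurableEquivIco 1 (-1 / 2)).measurable.comp (measurable_pi_apply i))

theorem chart_coe (θ : T2) (i : Fin 2) : ((chart θ i : ℝ) : UnitAddCircle) = θ i :=
  AddCircle.coe_equivIco

theorem chart_abs (θ : T2) (i : Fin 2) : |chart θ i| ≤ 1 / 2 := by
  have := (AddCircle.equivIco 1 (-1 / 2) (θ i)).2
  rw [abs_le]; constructor <;> simp only [chart] <;> linarith [this.1, this.2]

theorem chart_ne {θ : T2} (h : θ ≠ 0) : chart θ ≠ 0 := by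
  intro e
  apply h
  funext i
  rw [← chart_coe θ i, e]; simp

theorem chart_actA (A : Matrix (Fin 2) (Fin 2) ℤ) (θ : T2)
    (h : ∀ i, |(A.map (Int.cast : ℤ → ℝ) *ᵥ chart θ) i| < 1 / 2) :
    chart (actA A θ) = A.map (Int.cast : ℤ → ℝ) *ᵥ chart θ := by
  funext i
  have e : actA A θ i = (((A.map (Int.cast : ℤ → ℝ) *ᵥ chart θ) i : ℝ) : UnitAddCircle) := by
    simp only [actA, mulVec, dotProduct, Fin.sum_univ_two, map_apply, ← zsmul_eq_mul,
      AddCircle.coe_add, AddCircle.coe_zsmul, chart_coe]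
  have := abs_lt.1 (h i)
  rw [chart, e, AddCircle.equivIco_coe_of_mem ⟨by linarith, by linarith⟩]

theorem re_fourier_le (θ : T2) (i : Fin 2) :
    (mFourier (Pi.single i 1) θ).re ≤ 1 - 8 * chart θ i ^ 2 := by
  rw [mFourier_single, ← chart_coe θ i, fourier_coe_apply]
  have e : 2 * (Real.pi : ℂ) * Complex.I * ((1 : ℤ) : ℂ) * (chart θ i : ℝ) / ((1 : ℝ) : ℂ) =
      ((2 * Real.pi * chart θ i : ℝ) : ℂ) * Complex.I := by push_cast; ring
  rw [e, Complex.exp_ofReal_mul_I_re]
  have h1 := chart_abs θ i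
  have hp := Real.pi_pos
  have := Real.cos_le_one_sub_mul_cos_sq (x := 2 * Real.pi * chart θ i) (by
    rw [abs_mul, abs_of_pos (by positivity)]; nlinarith)
  refine this.trans_eq ?_
  field_simp
  ring

theorem mFourier_at_zero (k : Fin 2 → ℤ) : mFourier k (0 : T2) = 1 := by
  simp [mFourier]

theorem integral_re_fourier {μ : Measure T2} [IsFiniteMeasure μ] {Φ : (Fin 2 → ℤ) → ℝ}
    (h : ∀ k, ∫ θ, mFourier k θ ∂μ = Φ k) (k : Fin 2 → ℤ) :
    ∫ θ, (mFourier k θ).re ∂μ = Φ k := by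
  have := integral_re (𝕜 := ℂ) (integrable_cont μ (mFourier k).continuous)
  simp only [RCLike.re_to_complex, h, Complex.ofReal_re] at this
  exact this

theorem mass_eq {μ : Measure T2} [IsFiniteMeasure μ] {Φ : (Fin 2 → ℤ) → ℝ}
    (h : ∀ k, ∫ θ, mFourier k θ ∂μ = Φ k) : μ.real Set.univ = Φ 0 := by
  have := integral_re_fourier h 0
  simpa [mFourier_zero] using this

theorem atom_le {μ : Measure T2} [IsFiniteMeasure μ] {Φ : (Fin 2 → ℤ) → ℝ}
    (h : ∀ k, ∫ θ, mFourier k θ ∂μ = Φ k) (h1 : Φ 0 = 1)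
    (hfin : {k | 1 / 60 ≤ Φ k}.Finite) : μ.real {0} ≤ 1 / 30 := by
  obtain ⟨R, hR⟩ : ∃ R : ℕ, ∀ k, 1 / 60 ≤ Φ k → |k 0| < R := by
    obtain ⟨B, hB⟩ := (hfin.image fun k => |k 0|).bddAbove
    refine ⟨B.toNat + 1, fun k hk => ?_⟩
    have : |k 0| ≤ B := hB ⟨k, hk, rfl⟩
    push_cast; omega
  let e : Fin 60 → Fin 2 → ℤ := fun i => Pi.single 0 ((i : ℤ) * R)
  let K : T2 → ℝ := fun θ => Complex.normSq (∑ i, mFourier (e i) θ)
  have hK : ∀ θ, K θ = ∑ i, ∑ j, (mFourier (e i - e j) θ).re := by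
    intro θ
    have : ((K θ : ℝ) : ℂ) = ∑ i, ∑ j, mFourier (e i - e j) θ := by
      simp only [K]
      rw [← Complex.mul_conj, map_sum, Finset.sum_mul_sum]
      refine Finset.sum_congr rfl fun i _ => Finset.sum_congr rfl fun j _ => ?_
      rw [sub_eq_add_neg, mFourier_add, mFourier_neg]
    have := congrArg Complex.re this
    simpa [Complex.re_sum] using this
  have hKc : Continuous K := by simp only [K]; fun_prop
  have hI : ∫ θ, K θ ∂μ = ∑ i, ∑ j, Φ (e i - e j) := by
    simp only [hK]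
    rw [integral_finsetSum _ fun j _ => integrable_cont _ (by fun_prop)]
    refine Finset.sum_congr rfl fun i _ => ?_
    rw [integral_finsetSum _ fun j _ => integrable_cont _ (by fun_prop)]
    exact Finset.sum_congr rfl fun j _ => integral_re_fourier h _
  have hb : ∀ i j, Φ (e i - e j) ≤ (if i = j then 1 else 0) + 1 / 60 := by
    intro i j
    split_ifs with hij
    · rw [hij, sub_self, h1]; norm_num
    · by_contra hlt
      have := hR _ (by linarith : 1 / 60 ≤ Φ (e i - e j))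
      simp only [e, Pi.sub_apply, Pi.single_eq_same, ← sub_mul, abs_mul, Nat.abs_cast] at this
      have h2 : (i : ℤ) - j ≠ 0 := by
        intro h0; apply hij; ext; omega
      have h3 := Int.one_le_abs h2
      nlinarith
  have hs : ∑ i, ∑ j, Φ (e i - e j) ≤ 120 := by
    refine (Finset.sum_le_sum fun i _ => Finset.sum_le_sum fun j _ => hb i j).trans ?_
    simp [Finset.sum_add_distrib]
    norm_num
  have hM := mul_meas_ge_le_integral_of_nonneg (μ := μ) (f := K)
    (Eventually.of_forall fun θ => Complex.normSq_nonneg _) (integrable_cont _ hKc) 3600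
  have hsub : μ.real {0} ≤ μ.real {x | 3600 ≤ K x} := by
    refine measureReal_mono (Set.singleton_subset_iff.2 ?_)
    simp [K, mFourier_at_zero]
    norm_num
  linarith

theorem far_le {μ : Measure T2} [IsFiniteMeasure μ] {Φ : (Fin 2 → ℤ) → ℝ}
    (h : ∀ k, ∫ θ, mFourier k θ ∂μ = Φ k) (h1 : Φ 0 = 1) {ε r : ℝ} (hr : 0 < r)
    (hε : ∀ i, 1 - ε ≤ Φ (Pi.single i 1)) :
    8 * r ^ 2 * μ.real {θ | ∃ i, r ≤ |chart θ i|} ≤ 2 * ε := by
  let K : T2 → ℝ := fun θ => ∑ i, (1 - (mFourier (Pi.single i 1 : Fin 2 → ℤ) θ).re)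
  have hKc : Continuous K := by simp only [K]; fun_prop
  have h0 : ∀ θ i, 0 ≤ 1 - (mFourier (Pi.single i 1 : Fin 2 → ℤ) θ).re := fun θ i => by
    nlinarith [re_fourier_le θ i, sq_nonneg (chart θ i)]
  have hI : ∫ θ, K θ ∂μ ≤ 2 * ε := by
    simp only [K]
    rw [integral_finsetSum _ fun j _ => integrable_cont _ (by fun_prop)]
    have : ∀ i, ∫ θ, (1 - (mFourier (Pi.single i 1 : Fin 2 → ℤ) θ).re) ∂μ ≤ ε := by
      intro i
      rw [integral_sub (integrable_const _) (integrable_cont _ (by fun_prop)),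
        integral_re_fourier h]
      simp only [integral_const, mass_eq h, h1, smul_eq_mul, mul_one]
      linarith [hε i]
    simp only [Fin.sum_univ_two]
    linarith [this 0, this 1]
  have hM := mul_meas_ge_le_integral_of_nonneg (μ := μ) (f := K)
    (Eventually.of_forall fun θ => Finset.sum_nonneg fun i _ => h0 θ i) (integrable_cont _ hKc)
    (8 * r ^ 2)
  refine le_trans (mul_le_mul_of_nonneg_left (measureReal_mono ?_) (by positivity)) (hM.trans hI)
  rintro θ ⟨i, hi⟩
  have h2 := Finset.single_le_sum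
    (f := fun i => 1 - (mFourier (Pi.single i 1 : Fin 2 → ℤ) θ).re) (fun i _ => h0 θ i)
    (Finset.mem_univ i)
  have h3 := re_fourier_le θ i
  have h4 : r ^ 2 ≤ chart θ i ^ 2 := by rw [← sq_abs (chart θ i)]; gcongr
  simp only [Set.mem_ofPred_eq, K]
  linarith

/-- Matrix coefficient of the vector with weights on the identity and on a. -/
def coef2 {Γ : Type} [Group Γ] (φ : Γ → ℝ) (τ : (Fin 2 → ℤ) → Γ) (a : Γ) (α β : ℝ)
    (k : Fin 2 → ℤ) : ℝ :=
  α ^ 2 * φ (τ k) + α * β * (φ (τ k * a) + φ (a⁻¹ * τ k)) + β ^ 2 * φ (a⁻¹ * τ k * a)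

theorem kp_two {Γ : Type} [Group Γ] {φ : Γ → ℝ} (hφ : PD φ) {τ : (Fin 2 → ℤ) → Γ}
    (hτ : ∀ k l, τ (l - k) = (τ k)⁻¹ * τ l) (a : Γ) (α β : ℝ) :
    KP fun k l => coef2 φ τ a α β (l - k) := by
  unfold coef2
  refine ⟨fun k l => ?_, fun ι _ x c => ?_⟩
  · simp only [hτ]
    rw [← hφ.inv ((τ k)⁻¹ * τ l), ← hφ.inv ((τ k)⁻¹ * τ l * a), ← hφ.inv (a⁻¹ * ((τ k)⁻¹ * τ l)),
      ← hφ.inv (a⁻¹ * ((τ k)⁻¹ * τ l) * a)]
    simp only [_root_.mul_inv_rev, inv_inv, mul_assoc]
    ring
  · have := hφ.2 (ι × Bool) (fun p => τ (x p.1) * (if p.2 then a else 1))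
      (fun p => c p.1 * (if p.2 then β else α))
    refine this.trans_eq ?_
    simp only [Fintype.sum_prod_type, Fintype.sum_bool, ← Finset.sum_add_distrib, hτ]
    refine Finset.sum_congr rfl fun i _ => Finset.sum_congr rfl fun j _ => ?_
    simp only [if_true, Bool.false_eq_true, if_false, mul_one, _root_.mul_inv_rev, mul_assoc]
    ring

theorem tv_bound {Γ : Type} [Group Γ] {φ : Γ → ℝ} (hφ : PD φ) (h1 : φ 1 = 1)
    {τ : (Fin 2 → ℤ) → Γ} (hτ : ∀ k l, τ (l - k) = (τ k)⁻¹ * τ l) {a : Γ}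
    {A : Matrix (Fin 2) (Fin 2) ℤ} (ha : ∀ k, a⁻¹ * τ k * a = τ (k ᵥ* A))
    {μ : Measure T2} [IsFiniteMeasure μ] (h : ∀ k, ∫ θ, mFourier k θ ∂μ = φ (τ k))
    {S : Set T2} (hS : MeasurableSet S) :
    2 * μ.real (actA A ⁻¹' S) ≤ 3 * μ.real S + 12 * (1 - φ a) := by
  obtain ⟨μv, _, hv⟩ := herglotz (kp_two hφ hτ a (-1) 1)
  obtain ⟨μw, _, hw⟩ := herglotz (kp_two hφ hτ a 3 (-2))
  have e : (2 : ℝ≥0) • μ.map (actA A) + μw = (3 : ℝ≥0) • μ + (6 : ℝ≥0) • μv := by
    refine measure_ext_fourier fun k => ?_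
    rw [integral_add_measure (integrable_cont _ (mFourier k).continuous)
      (integrable_cont _ (mFourier k).continuous),
      integral_add_measure (integrable_cont _ (mFourier k).continuous)
      (integrable_cont _ (mFourier k).continuous), integral_smul_nnreal_measure,
      integral_smul_nnreal_measure, integral_smul_nnreal_measure,
      integral_map (actA_cont A).aemeasurable (mFourier k).continuous.aestronglyMeasurable]
    simp only [mFourier_actA, h, hv, hw, ← ha, NNReal.smul_def, Complex.real_smul, coef2]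
    push_cast; ring
  have e2 := congrArg (fun m : Measure T2 => m.real S) e
  simp only [measureReal_add_apply, measureReal_nnreal_smul_apply,
    map_measureReal_apply (actA_cont A).measurable hS, measure_ne_top, ne_eq,
    not_false_eq_true] at e2
  have h0 : τ 0 = 1 := by simpa using hτ 0 0
  have e3 := mass_eq hv
  simp only [coef2, h0, one_mul, mul_one, inv_mul_cancel, h1, hφ.inv] at e3
  have e4 : μv.real S ≤ μv.real Set.univ := measureReal_mono (Set.subset_univ _)
  have e5 : 0 ≤ μw.real S := measureReal_nonneg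
  push_cast at e2
  nlinarith

theorem burger_core {Γ : Type} [Group Γ] (hΓ : HP Γ) {τ : (Fin 2 → ℤ) → Γ}
    (hτ : ∀ k l, τ (l - k) = (τ k)⁻¹ * τ l) (hinj : Function.Injective τ)
    (a : Fin 3 → Γ) (A : Fin 3 → Matrix (Fin 2) (Fin 2) ℤ)
    (ha : ∀ i k, (a i)⁻¹ * τ k * a i = τ (k ᵥ* A i)) (X Y : Fin 3 → Set (Fin 2 → ℝ))
    (hX : ∀ i, MeasurableSet (X i)) (hY : ∀ i, MeasurableSet (Y i))
    (hXd : Pairwise (Function.onFun Disjoint X)) (hYd : Pairwise (Function.onFun Disjoint Y))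
    (hpp : ∀ i z, z ≠ 0 → z ∉ Y i → (A i).map (Int.cast : ℤ → ℝ) *ᵥ z ∈ X i) : False := by
  classical
  obtain ⟨B, hB1, hB⟩ : ∃ B : ℝ, 1 ≤ B ∧ ∀ i j l, |(A i j l : ℝ)| ≤ B := by
    obtain ⟨B, hB⟩ := (Set.finite_range fun p : Fin 3 × Fin 2 × Fin 2 =>
      |(A p.1 p.2.1 p.2.2 : ℝ)|).bddAbove
    exact ⟨max 1 B, le_max_left _ _, fun i j l => (hB ⟨(i, j, l), rfl⟩).trans (le_max_right _ _)⟩
  set r : ℝ := 1 / (5 * B) with hr
  have hr0 : 0 < r := by positivity
  have hrB : B * r = 1 / 5 := by rw [hr]; field_simp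
  have hr1 : r ≤ 1 / 5 := by nlinarith
  obtain ⟨φ, hφ, h1, -, hfin, hS⟩ := hΓ (Finset.univ.image a ∪
    Finset.univ.image fun i : Fin 2 => τ (Pi.single i 1)) (r ^ 2 / 40) (by positivity)
  have h0 : τ 0 = 1 := by simpa using hτ 0 0
  obtain ⟨μ, _, hμ⟩ := herglotz (Φ := fun k => φ (τ k))
    ((KP.comp hφ τ).congr fun k l => by simp only [hτ])
  have hΦ0 : φ (τ 0) = 1 := by rw [h0, h1]
  have hm : μ.real Set.univ = 1 := by rw [mass_eq hμ, hΦ0]
  have hat := atom_le hμ hΦ0 (Set.Finite.preimage (f := τ) hinj.injOn (hfin _ (by norm_num)))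
  have hfar := far_le hμ hΦ0 hr0 (ε := r ^ 2 / 40) fun i => hS _ (by simp)
  have hfar' : μ.real {θ | ∃ i, r ≤ |chart θ i|} ≤ 1 / 160 := by
    by_contra hlt
    have : 0 < r ^ 2 := by positivity
    nlinarith
  have hup : ∀ i, 2 * μ.real (actA (A i) ⁻¹' (chart ⁻¹' X i)) ≤
      3 * μ.real (chart ⁻¹' X i) + 12 * (r ^ 2 / 40) := fun i => by
    have := tv_bound hφ h1 hτ (ha i) hμ (chart_meas (hX i))
    linarith [hS (a i) (by simp)]
  have hlow : ∀ i, 1 ≤ μ.real (actA (A i) ⁻¹' (chart ⁻¹' X i)) + μ.real (chart ⁻¹' Y i) +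
      1 / 30 + 1 / 160 := by
    intro i
    have hcov : Set.univ ⊆ ((actA (A i) ⁻¹' (chart ⁻¹' X i) ∪ chart ⁻¹' Y i) ∪ {0}) ∪
        {θ | ∃ i, r ≤ |chart θ i|} := by
      intro θ _
      by_contra hn
      simp only [Set.mem_union, Set.mem_preimage, Set.mem_singleton_iff, Set.mem_ofPred_eq,
        not_or, not_exists, not_le] at hn
      obtain ⟨⟨⟨n1, n2⟩, n3⟩, n4⟩ := hn
      apply n1
      rw [chart_actA]
      · exact hpp i _ (chart_ne n3) n2
      · intro j
        simp only [mulVec, dotProduct, Fin.sum_univ_two, map_apply]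
        refine (abs_add_le _ _).trans_lt ?_
        rw [abs_mul, abs_mul]
        have a0 := mul_le_mul (hB i j 0) (n4 0).le (abs_nonneg _) (by linarith)
        have a1 := mul_le_mul (hB i j 1) (n4 1).le (abs_nonneg _) (by linarith)
        linarith
    have c1 := measureReal_mono (μ := μ) hcov
    have c2 := measureReal_union_le (μ := μ)
      ((actA (A i) ⁻¹' (chart ⁻¹' X i) ∪ chart ⁻¹' Y i) ∪ {0}) {θ | ∃ i, r ≤ |chart θ i|}
    have c3 := measureReal_union_le (μ := μ) (actA (A i) ⁻¹' (chart ⁻¹' X i) ∪ chart ⁻¹' Y i) {0}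
    have c4 := measureReal_union_le (μ := μ) (actA (A i) ⁻¹' (chart ⁻¹' X i)) (chart ⁻¹' Y i)
    linarith
  have hsX := sum_measureReal_le_measureReal_univ (μ := μ) (s := Finset.univ)
    (t := fun i => chart ⁻¹' X i) (fun i _ => chart_meas (hX i))
    (fun i _ j _ hij => (hXd hij).preimage _)
  have hsY := sum_measureReal_le_measureReal_univ (μ := μ) (s := Finset.univ)
    (t := fun i => chart ⁻¹' Y i) (fun i _ => chart_meas (hY i))
    (fun i _ j _ hij => (hYd hij).preimage _)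
  simp only [Fin.sum_univ_three] at hsX hsY
  have : r ^ 2 ≤ 1 / 25 := by nlinarith
  linarith [hup 0, hup 1, hup 2, hlow 0, hlow 1, hlow 2]

end Pool.Agent.MP_5045a8_al

end
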