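import Pool.Agent.Mg.F5045a8.Gcbdcbf

/-! Maximal Haagerup subgroups containing a unipotent copy of Z^2. -/

namespace Pool.Agent.MP_5045a8_al

open Matrix

/-- Upper unitriangular matrices. -/
def heis (x y z : ℤ) : M3 := !![1, x, z; 0, 1, y; 0, 0, 1]

theorem heis_mul (x y z x' y' z' : ℤ) :
    heis x y z * heis x' y' z' = heis (x + x') (y + y') (z + z' + x * y') := by
  simp only [heis, mul_fin_three]
  congr 1
  ring_nf

theorem heis_zero : heis 0 0 0 = 1 := by rw [heis, one_fin_three]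

theorem heis_inv {g : G3} {x y z : ℤ} (e : mat g = heis x y z) :
    mat g⁻¹ = heis (-x) (-y) (x * y - z) := by
  have : heis (-x) (-y) (x * y - z) * mat g = 1 := by
    rw [e, heis_mul, ← heis_zero]; congr 1 <;> ring
  calc mat g⁻¹ = heis (-x) (-y) (x * y - z) * mat g * mat g⁻¹ := by rw [this, one_mul]
    _ = _ := by rw [mul_assoc, mat_mul_inv, mul_one]

theorem heis_zpow {g : G3} {x y z : ℤ} (e : mat g = heis x y z) (k : ℤ) :
    ∃ c, 2 * c = 2 * k * z + k * (k - 1) * x * y ∧ mat (g ^ k) = heis (k * x) (k * y) c := by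
  induction k using Int.induction_on with
  | zero => exact ⟨0, by ring, by simp [mat_one, heis_zero]⟩
  | succ n ih =>
    obtain ⟨c, h1, h2⟩ := ih
    refine ⟨c + z + n * x * y, by linear_combination h1, ?_⟩
    rw [_root_.zpow_add_one, mat_mul, h2, e, heis_mul]; congr 1 <;> ring
  | pred n ih =>
    obtain ⟨c, h1, h2⟩ := ih
    refine ⟨c + (x * y - z) + n * x * y, by linear_combination h1, ?_⟩
    rw [_root_.zpow_sub_one, mat_mul, h2, heis_inv e, heis_mul]; congr 1 <;> ring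

theorem heis_central (n : ℤ) : heis 0 0 n = tv ![1, 0, 0] ![0, 0, n] := by
  ext i j
  fin_cases i <;> fin_cases j <;> simp [heis, tv_apply]

theorem unip_core {K : Subgroup G3} {t v : G3} (ht : t ∈ K) (hv : v ∈ K) {n x y z : ℤ}
    (hn : n ≠ 0) (et : mat t = heis 0 0 n) (ev : mat v = heis x y z) (hxy : x ≠ 0 ∨ y ≠ 0) :
    (∃ f, LatAx K f) ∨ (∃ u, LatAx (tr K) u) ∨ ∀ g ∈ K, g ∈ P0 ∧ mat g 1 0 = 0 := by
  by_contra hcon
  push Not at hcon
  obtain ⟨n1, n2, g, hg, hng⟩ := hcon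
  have N : ∀ {u f u' f' : V3}, Mem K (tv u f) → Mem K (tv u' f') → u ≠ 0 → f ≠ 0 → u' ≠ 0 →
      f' ≠ 0 → f ⬝ᵥ u' = 0 → (cr u u' ≠ 0 ∨ cr f f' ≠ 0) → False :=
    fun a b c d e f g h => (lemmaN a b c d e f g h).elim (n1 _) (n2 _)
  have m1 : Mem K (tv ![1, 0, 0] ![0, 0, n]) := ⟨t, ht, by rw [et, heis_central]⟩
  have m2 := m1.conj hg
  have z1 : (![1, 0, 0] : V3) ≠ 0 := by simp
  have z2 : (![0, 0, n] : V3) ≠ 0 := by simp [hn]
  have z3 := mulVec_ne z1 g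
  have z4 := vecMul_ne z2 g⁻¹
  have hne : cr ![1, 0, 0] (mat g *ᵥ ![1, 0, 0]) ≠ 0 ∨ cr ![0, 0, n] (![0, 0, n] ᵥ* mat g⁻¹) ≠ 0 := by
    by_contra hc
    push Not at hc
    obtain ⟨c1, c2⟩ := hc
    simp [ext3, cr0, cr1, cr2, mulVec, vecMul, hn] at c1 c2
    exact hng (by simpa using P0.inv_mem (x := g⁻¹) ⟨c2.2, c2.1⟩) c1.2
  generalize mat g *ᵥ ![1, 0, 0] = u at *
  generalize ![0, 0, n] ᵥ* mat g⁻¹ = f at *
  by_cases c1 : ![0, 0, n] ⬝ᵥ u = 0
  · exact N m1 m2 z1 z2 z3 z4 c1 hne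
  by_cases c2 : f ⬝ᵥ ![1, 0, 0] = 0
  · exact N m2 m1 z3 z4 z1 z2 c2 (hne.imp cr_ne_comm cr_ne_comm)
  have hu : u 2 ≠ 0 := fun e => c1 (by rw [dot3]; simp [e])
  have hf : f 0 ≠ 0 := fun e => c2 (by rw [dot3]; simp [e])
  have h0 := m2.dot
  rw [dot3] at h0
  set k := 2 * n * (f 0 * u 2) with hk
  have hk0 : k ≠ 0 := by positivity
  obtain ⟨c, hc, ec⟩ := heis_zpow ev k
  obtain ⟨c', hc', ec'⟩ := heis_zpow et
    (-2 * (f 0 * x * u 1 + f 1 * y * u 2 + f 0 * u 2 * z) - f 0 * u 2 * (k - 1) * x * y)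
  generalize hj : -2 * (f 0 * x * u 1 + f 1 * y * u 2 + f 0 * u 2 * z) -
    f 0 * u 2 * (k - 1) * x * y = j at hc' ec'
  have ew : mat (v ^ k * t ^ j) = heis (k * x) (k * y) (c + c') := by
    rw [mat_mul, ec, ec', heis_mul]; congr 1 <;> ring
  have hw := K.mul_mem (K.zpow_mem hv k) (K.zpow_mem ht j)
  refine N m2 (m2.conj hw) z3 z4 (mulVec_ne z3 _) (vecMul_ne z4 _) ?_ ?_
  · rw [ew, dot3]
    simp only [heis, mulVec, dot3]
    simp
    apply mul_left_cancel₀ (two_ne_zero (α := ℤ))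
    rw [hk] at hc hj ⊢
    linear_combination 2 * h0 + f 0 * u 2 * hc + f 0 * u 2 * hc' - 2 * n * (f 0 * u 2) * hj
  · rcases hxy with hx | hy
    · right
      intro e
      have := congrFun e 2
      rw [heis_inv ew, cr2] at this
      simp only [heis, vecMul, dot3] at this
      simp at this
      have e2 : k * x * f 0 ^ 2 = 0 := by linear_combination -this
      exact (by positivity : k * x * f 0 ^ 2 ≠ 0) e2
    · left
      intro e
      have := congrFun e 0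
      rw [ew, cr0] at this
      simp only [heis, mulVec, dot3] at this
      simp at this
      have e2 : k * y * u 2 ^ 2 = 0 := by linear_combination -this
      exact (by positivity : k * y * u 2 ^ 2 ≠ 0) e2

theorem nilp_max {A X : M3} (h : IsNilpotent A) (hX : X ≠ 0) :
    ∃ k : ℕ, A ^ k * X ≠ 0 ∧ A * (A ^ k * X) = 0 := by
  obtain ⟨n, hn⟩ := h
  by_contra hc
  push Not at hc
  have : ∀ k : ℕ, A ^ k * X ≠ 0 := by
    intro k
    induction k with
    | zero => simpa using hX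
    | succ k ih => rw [pow_succ', mul_assoc]; exact hc k ih
  exact this n (by rw [hn, zero_mul])

theorem common_flag {A B : M3} (hA : IsNilpotent A) (hB : IsNilpotent B) (h0 : A ≠ 0)
    (hc : Commute A B) : ∃ u f : V3, u ≠ 0 ∧ f ≠ 0 ∧ f ⬝ᵥ u = 0 ∧ A *ᵥ u = 0 ∧ B *ᵥ u = 0 ∧
      f ᵥ* A = 0 ∧ f ᵥ* B = 0 := by
  obtain ⟨k, h1, h2⟩ := nilp_max hA h0
  obtain ⟨l, h3, h4⟩ := nilp_max hB h1
  set M := B ^ l * (A ^ k * A) with hM
  have cA : Commute A M := (hc.pow_right l).mul_right (((Commute.refl A).pow_right k).mul_right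
    (Commute.refl A))
  have cB : Commute B M := ((Commute.refl B).pow_right l).mul_right
    ((hc.symm.pow_right k).mul_right hc.symm)
  have a1 : A * M = 0 := by rw [hM, ← mul_assoc, (hc.pow_right l).eq, mul_assoc, h2, mul_zero]
  have a2 : M * A = 0 := by rw [← cA.eq, a1]
  have a3 : M * B = 0 := by rw [← cB.eq, h4]
  have a4 : M * M = 0 := by
    conv_lhs => congr; rw [hM]
    rw [mul_assoc, mul_assoc, a1, mul_zero, mul_zero]
  obtain ⟨i, j, hij⟩ : ∃ i j, M i j ≠ 0 := by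
    by_contra hn
    push Not at hn
    exact h3 (Matrix.ext hn)
  refine ⟨M.col j, M.row i, fun e => hij (congrFun e i), fun e => hij (congrFun e j),
    congrFun (congrFun a4 i) j, funext fun m => congrFun (congrFun a1 m) j,
    funext fun m => congrFun (congrFun h4 m) j, funext fun m => congrFun (congrFun a2 i) m,
    funext fun m => congrFun (congrFun a3 i) m⟩

theorem exists_flag {u f : V3} (hf : f ≠ 0) (h : f ⬝ᵥ u = 0) :
    ∃ (γ : G3) (d n : ℤ), f ᵥ* mat γ = ![0, 0, d] ∧ mat γ⁻¹ *ᵥ u = ![n, 0, 0] := by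
  obtain ⟨γ, d, e⟩ := exists_std f
  have hd : d ≠ 0 := fun e' => vecMul_ne hf γ (by simp [e, e'])
  have h2 : (mat γ⁻¹ *ᵥ u) 2 = 0 := by
    have : (f ᵥ* mat γ) ⬝ᵥ (mat γ⁻¹ *ᵥ u) = 0 := by
      rw [← dotProduct_mulVec, mulVec_mulVec, mat_mul_inv, one_mulVec, h]
    rw [e, dot3] at this
    simpa [hd] using this
  obtain ⟨p, q, r, s, h3, h4⟩ := bezout ((mat γ⁻¹ *ᵥ u) 0) ((mat γ⁻¹ *ᵥ u) 1)
  let δ : G3 := mk3 !![-q, -s, 0; p, r, 0; 0, 0, 1] (by simp [det_fin_three]; linarith)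
  refine ⟨γ * δ⁻¹, d, -q * (mat γ⁻¹ *ᵥ u) 0 - s * (mat γ⁻¹ *ᵥ u) 1, ?_, ?_⟩
  · have : ![0, 0, d] ᵥ* mat δ = ![0, 0, d] := by simp [δ, mat_mk3]
    rw [mat_mul, ← vecMul_vecMul, e, ← this, vecMul_vecMul, mat_mul_inv, vecMul_one, this]
  · rw [_root_.mul_inv_rev, inv_inv, mat_mul, ← mulVec_mulVec]
    generalize mat γ⁻¹ *ᵥ u = w at *
    simp only [δ, mat_mk3, ext3, mulVec, dot3]
    simp
    exact ⟨by ring, by linarith, h2⟩

theorem heis_of_flag {g γ : G3} {u f : V3} {d n : ℤ} (hd : d ≠ 0) (hn : n ≠ 0)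
    (e1 : f ᵥ* mat γ = ![0, 0, d]) (e2 : mat γ⁻¹ *ᵥ u = ![n, 0, 0])
    (h1 : (mat g - 1) *ᵥ u = 0) (h2 : f ᵥ* (mat g - 1) = 0) :
    ∃ x y z, mat (γ⁻¹ * g * γ) = heis x y z := by
  rw [sub_mulVec, one_mulVec, sub_eq_zero] at h1
  rw [vecMul_sub, vecMul_one, sub_eq_zero] at h2
  have a1 : mat (γ⁻¹ * g * γ) *ᵥ ![n, 0, 0] = ![n, 0, 0] := by
    rw [← e2, mulVec_mulVec, ← mat_mul, mul_inv_cancel_right, mat_mul, ← mulVec_mulVec, h1]
  have a2 : ![0, 0, d] ᵥ* mat (γ⁻¹ * g * γ) = ![0, 0, d] := by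
    rw [← e1, vecMul_vecMul, ← mat_mul, mul_assoc, mul_inv_cancel_left, mat_mul, ← vecMul_vecMul,
      h2]
  have a3 := mat_det (γ⁻¹ * g * γ)
  generalize mat (γ⁻¹ * g * γ) = M at *
  simp [ext3, mulVec, vecMul, hd, hn] at a1 a2
  have b1 : M 0 0 = 1 := a1.1
  have b2 : M 1 0 = 0 := a1.2.1
  have b3 : M 2 0 = 0 := a1.2.2
  have b4 : M 2 1 = 0 := a2.2.1
  have b5 : M 2 2 = 1 := a2.2.2
  rw [det_fin_three, b1, b2, b3, b4, b5] at a3
  have b6 : M 1 1 = 1 := by linarith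
  refine ⟨M 0 1, M 1 2, M 0 2, ?_⟩
  ext i j
  fin_cases i <;> fin_cases j <;> simp [heis, b1, b2, b3, b4, b5, b6]

theorem block_of_heis {H : Subgroup G3} (h : MaxHP H) {γ t v : G3} (ht : t ∈ cj γ H)
    (hv : v ∈ cj γ H) {n x y z : ℤ} (hn : n ≠ 0) (et : mat t = heis 0 0 n)
    (ev : mat v = heis x y z) (hxy : x ≠ 0 ∨ y ≠ 0) : IsBlockType H := by
  have key : IsBlockType (cj γ H) → IsBlockType H := by
    rintro ⟨δ, C, h1, h2, h3⟩
    refine ⟨γ * δ, C, h1, h2, h3.imp (fun h3 g => ?_) fun h3 g => ?_⟩ <;>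
      rw [← mem_cj' (γ := γ), h3] <;> simp only [_root_.mul_inv_rev, mul_assoc]
  rcases unip_core ht hv hn et ev hxy with ⟨f, hl⟩ | ⟨f, hl⟩ | hl
  · exact key (block_of_lat (h.cj γ) hl)
  · exact key (block_of_lat' (h.cj γ) hl)
  · refine block_of_std h (fun g hg => (hl g hg).1) (vc_of_line (a := ![1, 0]) (by simp) ?_)
    rintro _ ⟨g, hg, rfl⟩
    simp [d2, act_apply, pr_val, (hl g hg).2]

theorem block_of_unip {H : Subgroup G3} (h : MaxHP H) (hu : HasUnipotentZ2 H) :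
    IsBlockType H := by
  obtain ⟨a, ha, b, hb, na, nb, hab, hind⟩ := hu
  have a0 : mat a - 1 ≠ 0 := fun e => by
    have := hind 1 0 (by rw [mat_ext (g := a) (h := 1) (sub_eq_zero.1 e)]; simp)
    simp at this
  have hc : Commute (mat a) (mat b) := congrArg mat hab
  obtain ⟨u, f, hu, hf, h0, h1, h2, h3, h4⟩ := common_flag (A := mat a - 1) (B := mat b - 1)
    na nb a0 ((hc.sub_right (Commute.one_right _)).sub_left (Commute.one_left _))
  obtain ⟨γ, d, n, e1, e2⟩ := exists_flag hf h0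
  have hd : d ≠ 0 := fun e' => vecMul_ne hf γ (by simp [e1, e'])
  have hn : n ≠ 0 := fun e' => mulVec_ne hu γ⁻¹ (by simp [e2, e'])
  obtain ⟨x, y, z, ea⟩ := heis_of_flag hd hn e1 e2 h1 h3
  obtain ⟨x', y', z', eb⟩ := heis_of_flag hd hn e1 e2 h2 h4
  have ma := (mem_cj' (γ := γ)).2 ha
  have mb := (mem_cj' (γ := γ)).2 hb
  have hxy : x * y' = x' * y := by
    have : mat (γ⁻¹ * a * γ) * mat (γ⁻¹ * b * γ) = mat (γ⁻¹ * b * γ) * mat (γ⁻¹ * a * γ) := by
      rw [← mat_mul, ← mat_mul]; congr 1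
      calc γ⁻¹ * a * γ * (γ⁻¹ * b * γ) = γ⁻¹ * (a * b) * γ := by group
        _ = _ := by rw [hab]; group
    rw [ea, eb, heis_mul, heis_mul] at this
    have := congrFun (congrFun this 0) 2
    simp [heis] at this
    linarith
  have key : ∀ m k : ℤ, ¬(m = 0 ∧ k = 0) → m * x + k * x' = 0 → m * y + k * y' = 0 →
      ∃ t ∈ cj γ H, ∃ n, n ≠ 0 ∧ mat t = heis 0 0 n := by
    intro m k hmk p1 p2
    obtain ⟨c, -, ec⟩ := heis_zpow ea m
    obtain ⟨c', -, ec'⟩ := heis_zpow eb k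
    have e : mat ((γ⁻¹ * a * γ) ^ m * (γ⁻¹ * b * γ) ^ k) = heis 0 0 (c + c' + m * x * (k * y')) := by
      rw [mat_mul, ec, ec', heis_mul, p1, p2]
    refine ⟨_, mul_mem (zpow_mem ma m) (zpow_mem mb k), _, fun e0 => hmk (hind m k ?_), e⟩
    rw [e0, heis_zero, ← mat_one] at e
    have := mat_ext e
    have e3 : ∀ (g : G3) (i : ℤ), (γ⁻¹ * g * γ) ^ i = γ⁻¹ * g ^ i * γ := fun g i => by
      simpa using conj_zpow (a := γ⁻¹) (b := g) (i := i)
    rw [e3, e3] at this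
    calc a ^ m * b ^ k = γ * (γ⁻¹ * a ^ m * γ * (γ⁻¹ * b ^ k * γ)) * γ⁻¹ := by group
      _ = 1 := by rw [this]; simp
  by_cases c1 : x ≠ 0 ∨ x' ≠ 0
  · obtain ⟨t, ht, n, hn, et⟩ := key x' (-x) (by omega) (by ring) (by linarith)
    rcases c1 with c | c
    · exact block_of_heis h ht ma hn et ea (Or.inl c)
    · exact block_of_heis h ht mb hn et eb (Or.inl c)
  by_cases c2 : y ≠ 0 ∨ y' ≠ 0
  · obtain ⟨t, ht, n, hn, et⟩ := key y' (-y) (by omega) (by linarith) (by ring)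
    rcases c2 with c | c
    · exact block_of_heis h ht ma hn et ea (Or.inr c)
    · exact block_of_heis h ht mb hn et eb (Or.inr c)
  exfalso
  push Not at c1 c2
  rw [c1.1, c2.1] at ea
  rw [c1.2, c2.2] at eb
  have e3 : ∀ (g : G3) (i : ℤ), (γ⁻¹ * g * γ) ^ i = γ⁻¹ * g ^ i * γ := fun g i => by
    simpa using conj_zpow (a := γ⁻¹) (b := g) (i := i)
  obtain ⟨c, hc1, ec⟩ := heis_zpow ea z'
  obtain ⟨c', hc2, ec'⟩ := heis_zpow eb (-z)
  have e : mat ((γ⁻¹ * a * γ) ^ z' * (γ⁻¹ * b * γ) ^ (-z)) = mat 1 := by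
    rw [mat_mul, ec, ec', heis_mul, mat_one, ← heis_zero]; congr 1 <;> linarith
  have := mat_ext e
  rw [e3, e3] at this
  have h5 := hind z' (-z) (by
    calc a ^ z' * b ^ (-z) = γ * (γ⁻¹ * a ^ z' * γ * (γ⁻¹ * b ^ (-z) * γ)) * γ⁻¹ := by group
      _ = 1 := by rw [this]; simp)
  rw [show z = 0 by omega, heis_zero, ← mat_one] at ea
  have h6 := mat_ext ea
  apply a0
  have : a = 1 := by
    calc a = γ * (γ⁻¹ * a * γ) * γ⁻¹ := by group
      _ = 1 := by rw [h6]; simp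
  rw [this, mat_one, sub_self]

theorem unip_of_two {H : Subgroup G3} {u u' f : V3} (h : Mem H (tv u f)) (h' : Mem H (tv u' f))
    (hf : f ≠ 0) (hu : cr u u' ≠ 0) : HasUnipotentZ2 H := by
  have d := h.dot
  have d' := h'.dot
  obtain ⟨a, ha, ea⟩ := h
  obtain ⟨b, hb, eb⟩ := h'
  have nil : ∀ {g : G3} {w : V3}, mat g = tv w f → f ⬝ᵥ w = 0 → IsNilpotent (mat g - 1) := by
    intro g w e hw
    refine ⟨2, ?_⟩
    rw [e, tv, add_sub_cancel_left, sq, vecMulVec_mul_vecMulVec, hw]; simp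
  refine ⟨a, ha, b, hb, nil ea d, nil eb d', mat_ext ?_, fun m n e => ?_⟩
  · rw [mat_mul, mat_mul, ea, eb, tv_mul_axis d, tv_mul_axis d', add_comm]
  · have := congrArg mat e
    rw [mat_mul, zpow_tv ea, zpow_tv eb, tv_mul_axis (by rw [dotProduct_smul, d', smul_zero]),
      mat_one, tv, add_eq_left, vecMulVec_eq_zero] at this
    have e0 := this.resolve_right hf
    have e1 : m • cr u u' = 0 ∧ n • cr u u' = 0 := by
      simp only [ext3, cr0, cr1, cr2, Pi.add_apply, Pi.smul_apply, smul_eq_mul, Pi.zero_apply]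
        at e0 ⊢
      obtain ⟨p0, p1, p2⟩ := e0
      refine ⟨⟨?_, ?_, ?_⟩, ?_, ?_, ?_⟩
      · linear_combination u' 2 * p1 - u' 1 * p2
      · linear_combination u' 0 * p2 - u' 2 * p0
      · linear_combination u' 1 * p0 - u' 0 * p1
      · linear_combination u 1 * p2 - u 2 * p1
      · linear_combination u 2 * p0 - u 0 * p2
      · linear_combination u 0 * p1 - u 1 * p0
    exact ⟨(smul_eq_zero.1 e1.1).resolve_right hu, (smul_eq_zero.1 e1.2).resolve_right hu⟩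

theorem HasUnipotentZ2.tr {H : Subgroup G3} (h : HasUnipotentZ2 (tr H)) : HasUnipotentZ2 H := by
  obtain ⟨a, ha, b, hb, na, nb, hab, hind⟩ := h
  have nil : ∀ {g : G3}, IsNilpotent (mat g - 1) → IsNilpotent (mat g.transpose - 1) := by
    rintro g ⟨k, hk⟩
    refine ⟨k, ?_⟩
    rw [mat_transpose, ← transpose_one, ← transpose_sub, ← transpose_pow, hk, transpose_zero]
  have tz : ∀ (g : G3) (i : ℤ), (g ^ i).transpose = g.transpose ^ i := by
    intro g i
    let σ : G3 →* G3 := MonoidHom.mk' (fun g => (g.transpose)⁻¹) fun a b => by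
      rw [transpose_mul', _root_.mul_inv_rev]
    have := map_zpow σ g i
    simpa [σ] using this
  refine ⟨_, ha, _, hb, nil na, nil nb, by rw [← transpose_mul', ← transpose_mul', hab],
    fun m n e => hind m n ?_⟩
  rw [← tz, ← tz, ← transpose_mul'] at e
  have := congrArg SpecialLinearGroup.transpose e
  rw [transpose_transpose', transpose_one'] at this
  rw [← this]
  exact (Commute.zpow_zpow hab m n).eq

theorem unip_of_lat {H : Subgroup G3} {f : V3} (h : LatAx H f) : HasUnipotentZ2 H := by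
  obtain ⟨hf, N, hN, h⟩ := h
  obtain ⟨y, hy, hy', -⟩ := exists_perp_ne (f' := f) hf
  obtain ⟨x, -, hx, hc⟩ := exists_indep hf hy hy'
  refine unip_of_two (h y hy') (h x hx) hf ?_
  have : cr (N • y) (N • x) = (N * N) • cr y x := by
    simp only [ext3, cr0, cr1, cr2, Pi.smul_apply, smul_eq_mul]
    refine ⟨by ring, by ring, by ring⟩
  rw [this]
  exact smul_ne_zero (mul_ne_zero hN hN) hc

theorem IsBlockType.unip {H : Subgroup G3} (h : IsBlockType H) : HasUnipotentZ2 H := by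
  have key : ∀ (H : Subgroup G3) (γ : G3) (C : Subgroup G2),
      (∀ g : G3, g ∈ H ↔ InBlock C (mat (γ⁻¹ * g * γ))) → HasUnipotentZ2 H := by
    intro H γ C h
    have : H = cj γ⁻¹ (EC C) := by
      ext g; rw [mem_cj, h, mem_EC', inv_inv]
    rw [this]; exact unip_of_lat ((lat_EC C).cj _)
  obtain ⟨γ, C, h1, h2, h' | h'⟩ := h
  · exact key H γ C h'
  · refine HasUnipotentZ2.tr (key _ γ.transpose⁻¹ C fun g => ?_)
    rw [mem_tr, h']
    have e : γ⁻¹ * g.transpose * γ = ((γ.transpose⁻¹)⁻¹ * g * γ.transpose⁻¹).transpose := by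
      simp only [transpose_mul', transpose_inv', transpose_transpose', inv_inv, mul_assoc]
    rw [e]; rfl

end Pool.Agent.MP_5045a8_al
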