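import Pool.Agent.Mg.F5045a8.Gc32bfd

section

/-! Ping-pong certificates for subgroups of GL(2,Z) that are not virtually cyclic. -/

namespace Pool.Agent.MP_5045a8_al

open Finset Filter Topology Matrix

theorem three_indep {C : Subgroup G2} (h : ¬ VirtCyclic C) {a : Fin 2 → ℝ} (ha : a ≠ 0) :
    ∃ k : Fin 3 → G2, (∀ i, k i ∈ C) ∧ ∀ i j, i ≠ j → d2 (act (k i) a) (act (k j) a) ≠ 0 := by
  by_contra hn
  apply h
  have hsym : ∀ x y, d2 x y = -d2 y x := fun x y => by unfold d2; ring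
  let S : Subgroup G2 :=
    { carrier := {g | g ∈ C ∧ d2 (act g a) a = 0}
      one_mem' := ⟨C.one_mem, by rw [act_one]; unfold d2; ring⟩
      mul_mem' := fun {g h} hg hh => ⟨C.mul_mem hg.1 hh.1, by
        obtain ⟨t, ht⟩ := par ha hh.2
        obtain ⟨s, hs⟩ := par ha hg.2
        rw [act_mul, ht, act_smul, hs]
        simp only [d2, Pi.smul_apply, smul_eq_mul]; ring⟩
      inv_mem' := fun {g} hg => ⟨C.inv_mem hg.1, by
        rw [← d2_act_eq_zero g, act_inv', hsym, hg.2, neg_zero]⟩ }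
  refine (vc_of_line (S := S) ha fun g hg => hg.2).of_relIndex (fun g hg => hg.1)
    (relIndex_of_colour (fun g => d2 (act g a) a = 0) fun g hg k hk e => ?_)
  simp only [eq_iff_iff] at e
  by_cases h0 : d2 (act g a) a = 0
  · exact S.mul_mem (S.inv_mem ⟨hg, h0⟩) ⟨hk, e.1 h0⟩
  refine ⟨C.mul_mem (C.inv_mem hg) hk, ?_⟩
  rw [← d2_act_eq_zero g, act_mul, act_inv']
  by_contra h1
  have h2 : d2 (act k a) a ≠ 0 := fun x => h0 (e.2 x)
  refine hn ⟨![1, g, k], fun i => by fin_cases i <;> simp [C.one_mem, hg, hk], fun i j hij => ?_⟩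
  fin_cases i <;> fin_cases j <;> simp only [Fin.zero_eta, Fin.mk_one, Fin.reduceFinMk,
    Matrix.cons_val_zero, Matrix.cons_val_one, Matrix.cons_val, act_one] <;>
    first
    | exact (hij rfl).elim
    | assumption
    | (rw [hsym, neg_ne_zero]; assumption)

theorem rank_one_limit {C : Subgroup G2} (h : ¬ VirtCyclic C) :
    ∃ r : Fin 2 → Fin 2 → ℝ, r ≠ 0 ∧ r 0 0 * r 1 1 - r 0 1 * r 1 0 = 0 ∧
      ∃ᶠ E in 𝓝 (0 : Fin 2 → Fin 2 → ℝ), ∃ g ∈ C, ∃ s : ℝ, 0 < s ∧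
        ∀ i j, s * (g i j : ℤ) = r i j + E i j := by
  have hinf : (C : Set G2).Infinite := by
    intro hf
    apply h
    refine ⟨1, C.one_mem, ?_⟩
    have : Finite C := hf
    exact Subgroup.index_ne_zero_of_finite
  let M : G2 → Fin 2 → Fin 2 → ℝ := fun g i j => (g i j : ℤ)
  have hex : ∀ n : ℕ, ∃ g ∈ C, (n : ℝ) + 1 ≤ ‖M g‖ := by
    intro n
    obtain ⟨g, hg, hb⟩ := (hinf.sdiff (G2.finite_entries ((n + 1) ^ 2))).nonempty
    refine ⟨g, hg, ?_⟩
    simp only [Set.mem_ofPred_eq, not_forall, not_le] at hb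
    obtain ⟨i, j, hij⟩ := hb
    have h1 : ‖M g i j‖ ≤ ‖M g‖ := (norm_le_pi_norm (M g i) j).trans (norm_le_pi_norm (M g) i)
    refine le_trans ?_ h1
    exact (abs_le_of_sq_le_sq' (by rw [Real.norm_eq_abs, sq_abs]; exact hij.le) (norm_nonneg _)).2
  choose g hg hn using hex
  have hpos : ∀ n, 0 < ‖M (g n)‖ := fun n => lt_of_lt_of_le (by positivity) (hn n)
  obtain ⟨r, hr, φ, hφ, hlim⟩ := (isCompact_sphere (0 : Fin 2 → Fin 2 → ℝ) 1).tendsto_subseq
    (x := fun n => ‖M (g n)‖⁻¹ • M (g n)) fun n => by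
      simp [norm_smul, (hpos n).ne']
  refine ⟨r, fun e => by simp [e] at hr, ?_, ?_⟩
  · have hc : Continuous fun r : Fin 2 → Fin 2 → ℝ => |r 0 0 * r 1 1 - r 0 1 * r 1 0| := by
      fun_prop
    have h1 := (hc.tendsto r).comp hlim
    have h2 : Tendsto (fun n : ℕ => 1 / ((φ n : ℝ) + 1)) atTop (𝓝 0) :=
      tendsto_one_div_add_atTop_nhds_zero_nat.comp hφ.tendsto_atTop
    have h3 := le_of_tendsto_of_tendsto' h1 h2 fun n => by
      simp only [Function.comp, Pi.smul_apply, smul_eq_mul, M]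
      have e : |dt (g (φ n))| = 1 := by rcases dt_cases (g (φ n)) with h | h <;> simp [h]
      have e2 := hn (φ n)
      have e3 := hpos (φ n)
      simp only [M] at e2 e3
      generalize ‖fun i j => ((g (φ n) i j : ℤ) : ℝ)‖ = N at e2 e3
      have : N⁻¹ * ((g (φ n) 0 0 : ℤ) : ℝ) * (N⁻¹ * (g (φ n) 1 1 : ℤ)) -
          N⁻¹ * (g (φ n) 0 1 : ℤ) * (N⁻¹ * (g (φ n) 1 0 : ℤ)) = N⁻¹ ^ 2 * dt (g (φ n)) := by
        unfold dt; push_cast; ring
      rw [this, abs_mul, e, mul_one, abs_of_nonneg (by positivity), inv_pow, ← one_div]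
      have : (0 : ℝ) ≤ φ n := by positivity
      exact one_div_le_one_div_of_le (by positivity) (by nlinarith)
    exact abs_eq_zero.1 (le_antisymm h3 (abs_nonneg _))
  · have h1 := hlim.sub_const r
    rw [sub_self] at h1
    refine h1.frequently (Eventually.frequently (Eventually.of_forall fun n => ?_))
    exact ⟨g (φ n), hg _, _, inv_pos.2 (hpos (φ n)), fun i j => by simp [M]⟩

theorem rank_one_factor {r : Fin 2 → Fin 2 → ℝ} (h0 : r ≠ 0)
    (hd : r 0 0 * r 1 1 - r 0 1 * r 1 0 = 0) : ∃ a b : Fin 2 → ℝ, a ≠ 0 ∧ b ≠ 0 ∧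
      ∀ (z : Fin 2 → ℝ) i, r i 0 * z 0 + r i 1 * z 1 = d2 z b * a i := by
  by_cases h1 : r 0 0 ≠ 0
  · refine ⟨![r 0 0, r 1 0], ![-(r 0 1 / r 0 0), 1], by simp [h1], by simp, fun z i => ?_⟩
    fin_cases i <;> simp [d2] <;> field_simp
    linear_combination z 1 * hd
  by_cases h2 : r 1 0 ≠ 0
  · refine ⟨![r 0 0, r 1 0], ![-(r 1 1 / r 1 0), 1], by simp [h2], by simp, fun z i => ?_⟩
    fin_cases i <;> simp [d2] <;> field_simp
    linear_combination -z 1 * hd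
  push Not at h1 h2
  refine ⟨![r 0 1, r 1 1], ![-1, 0], fun e => h0 ?_, by simp, fun z i => ?_⟩
  · have e0 := congrFun e 0
    have e1 := congrFun e 1
    funext i j
    fin_cases i <;> fin_cases j <;> simp_all
  · fin_cases i <;> simp [d2, h1, h2] <;> ring

theorem contract {a a' b b' : Fin 2 → ℝ} (ha : d2 a a' ≠ 0) (hb : d2 b b' ≠ 0) :
    ∀ᶠ E in 𝓝 (0 : Fin 2 → Fin 2 → ℝ), ∀ w v : Fin 2 → ℝ, w ≠ 0 → |d2 w b'| ≤ |d2 w b| →
      (∀ i, v i = d2 w b * a i + (E i 0 * w 0 + E i 1 * w 1)) → |d2 v a| < |d2 v a'| := by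
  set c : ℝ := (|b 0| + |b 1| + |b' 0| + |b' 1|) / |d2 b b'| with hc
  set m : ℝ := |a 0| + |a 1| + |a' 0| + |a' 1| with hm
  have hb' := abs_pos.2 hb
  have ha' := abs_pos.2 ha
  have hc0 : 0 ≤ c := by positivity
  have hm0 : 0 ≤ m := by positivity
  filter_upwards [Metric.ball_mem_nhds (0 : Fin 2 → Fin 2 → ℝ)
    (show 0 < |d2 a a'| / (2 * c * m + 1) by positivity)] with E hE w v hw hle hv
  rw [mem_ball_zero_iff, lt_div_iff₀ (by positivity)] at hE
  have hEe : ∀ i j, |E i j| ≤ ‖E‖ := fun i j =>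
    (norm_le_pi_norm (E i) j).trans (norm_le_pi_norm E i)
  have hw' : ∀ i, |w i| ≤ c * |d2 w b| := by
    intro i
    have e : w i * d2 b b' = d2 w b' * b i - d2 w b * b' i := by
      fin_cases i <;> simp [d2] <;> ring
    have e2 : |w i| * |d2 b b'| ≤ |d2 w b| * (|b i| + |b' i|) := by
      rw [← abs_mul, e]
      refine (abs_sub _ _).trans ?_
      rw [abs_mul, abs_mul]
      nlinarith [abs_nonneg (b i)]
    have e3 : |b i| + |b' i| ≤ |b 0| + |b 1| + |b' 0| + |b' 1| := by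
      fin_cases i <;> simp <;> linarith [abs_nonneg (b 0), abs_nonneg (b 1), abs_nonneg (b' 0),
        abs_nonneg (b' 1)]
    rw [hc, div_mul_eq_mul_div, le_div_iff₀ hb']
    nlinarith [abs_nonneg (d2 w b)]
  have hD : 0 < |d2 w b| := by
    by_contra hn
    have : |d2 w b| = 0 := le_antisymm (not_lt.1 hn) (abs_nonneg _)
    apply hw
    funext i
    have := hw' i
    simp_all
  set D := d2 w b
  have hu : ∀ i, |E i 0 * w 0 + E i 1 * w 1| ≤ 2 * c * ‖E‖ * |D| := by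
    intro i
    refine (abs_add_le _ _).trans ?_
    rw [abs_mul, abs_mul]
    have a0 := mul_le_mul (hEe i 0) (hw' 0) (abs_nonneg _) (norm_nonneg _)
    have a1 := mul_le_mul (hEe i 1) (hw' 1) (abs_nonneg _) (norm_nonneg _)
    linarith
  have hx : ∀ x : Fin 2 → ℝ, |d2 v x - D * d2 a x| ≤ 2 * c * ‖E‖ * |D| * (|x 0| + |x 1|) := by
    intro x
    have e : d2 v x - D * d2 a x = (E 0 0 * w 0 + E 0 1 * w 1) * x 1 -
        (E 1 0 * w 0 + E 1 1 * w 1) * x 0 := by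
      simp only [d2, hv]; ring
    rw [e]
    refine (abs_sub _ _).trans ?_
    rw [abs_mul, abs_mul]
    have a0 := mul_le_mul_of_nonneg_right (hu 0) (abs_nonneg (x 1))
    have a1 := mul_le_mul_of_nonneg_right (hu 1) (abs_nonneg (x 0))
    linarith
  have h1 := hx a
  have h2 := hx a'
  have e0 : d2 a a = 0 := by unfold d2; ring
  rw [e0, mul_zero, sub_zero] at h1
  have h3 := abs_sub_abs_le_abs_sub (D * d2 a a') (d2 v a')
  rw [abs_sub_comm, abs_mul] at h3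
  have h4 : |D| * (‖E‖ * (2 * c * m + 1)) < |D| * |d2 a a'| := mul_lt_mul_of_pos_left hE hD
  have h5 : 0 ≤ |D| * ‖E‖ := by positivity
  rw [hm] at h4
  nlinarith

/-- The cone of vectors closest to the i-th of three lines. -/
def cone (a : Fin 3 → Fin 2 → ℝ) (i : Fin 3) : Set (Fin 2 → ℝ) :=
  {z | ∀ j, j ≠ i → |d2 z (a i)| < |d2 z (a j)|}

theorem cone_meas (a : Fin 3 → Fin 2 → ℝ) (i : Fin 3) : MeasurableSet (cone a i) := by
  have : cone a i = ⋂ j, ⋂ _ : j ≠ i, {z | |d2 z (a i)| < |d2 z (a j)|} := by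
    ext z; simp [cone]
  rw [this]
  refine MeasurableSet.iInter fun j => MeasurableSet.iInter fun _ => ?_
  exact (isOpen_lt (by unfold d2; fun_prop) (by unfold d2; fun_prop)).measurableSet

theorem cone_disj (a : Fin 3 → Fin 2 → ℝ) : Pairwise (Function.onFun Disjoint (cone a)) := by
  intro i j hij
  rw [Function.onFun, Set.disjoint_left]
  intro z h1 h2
  exact lt_asymm (h1 j hij.symm) (h2 i hij)

theorem burger {Γ : Type} [Group Γ] (hΓ : HP Γ) {τ : (Fin 2 → ℤ) → Γ}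
    (hτ : ∀ k l, τ (l - k) = (τ k)⁻¹ * τ l) (hinj : Function.Injective τ) {C : Subgroup G2}
    (hC : ∀ A ∈ C, ∃ a : Γ, ∀ k, a⁻¹ * τ k * a = τ (k ᵥ* (A : Matrix (Fin 2) (Fin 2) ℤ))) :
    VirtCyclic C := by
  by_contra h
  obtain ⟨r, hr0, hrd, hfr⟩ := rank_one_limit h
  obtain ⟨a, b, ha, hb, hab⟩ := rank_one_factor hr0 hrd
  obtain ⟨p, hp, hpa⟩ := three_indep h ha
  obtain ⟨q, hq, hqb⟩ := three_indep h hb
  have hev : ∀ᶠ E in 𝓝 (0 : Fin 2 → Fin 2 → ℝ), ∀ i j l : Fin 3, j ≠ i → l ≠ i →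
      ∀ w v : Fin 2 → ℝ, w ≠ 0 → |d2 w (act (q i)⁻¹ (act (q j) b))| ≤ |d2 w b| →
      (∀ m, v m = d2 w b * a m + (E m 0 * w 0 + E m 1 * w 1)) →
      |d2 v a| < |d2 v (act (p i)⁻¹ (act (p l) a))| := by
    simp only [eventually_all]
    intro i j l hj hl
    refine contract ?_ ?_
    · rw [Ne, ← d2_act_eq_zero (p i), act_inv']; exact hpa _ _ hl.symm
    · rw [Ne, ← d2_act_eq_zero (q i), act_inv']; exact hqb _ _ hj.symm
  obtain ⟨E, ⟨g, hg, s, hs, hE⟩, hE'⟩ := (hfr.and_eventually hev).exists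
  have hA : ∀ i, p i * g * (q i)⁻¹ ∈ C := fun i =>
    C.mul_mem (C.mul_mem (hp i) hg) (C.inv_mem (hq i))
  choose u hu using fun i => hC _ (hA i)
  refine burger_core hΓ hτ hinj u _ hu (cone fun i => act (p i) a) (cone fun i => act (q i) b)
    (cone_meas _) (cone_meas _) (cone_disj _) (cone_disj _) fun i z hz hY l hl => ?_
  simp only [cone, Set.mem_ofPred_eq, not_forall, not_lt] at hY
  obtain ⟨j, hj, hle⟩ := hY
  have := hE' i j l hj hl (act (q i)⁻¹ z) (s • act g (act (q i)⁻¹ z)) (act_ne _ hz)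
    (by rw [abs_d2_act, ← abs_d2_act (q i) _ b, act_inv']; exact hle) (fun m => by
      rw [← hab, Pi.smul_apply, act_apply g, smul_eq_mul, mul_add, ← mul_assoc, ← mul_assoc, hE,
        hE]
      ring)
  have e : ∀ x y, |d2 (s • x) y| = s * |d2 x y| := fun x y => by
    rw [← abs_of_pos hs, ← abs_mul, abs_of_pos hs]; congr 1
    simp only [d2, Pi.smul_apply, smul_eq_mul]; ring
  rw [e, e, mul_lt_mul_iff_right₀ hs, ← abs_d2_act (p i) _ a,
    ← abs_d2_act (p i) _ (act (p i)⁻¹ _), act_inv', ← act_mul, ← act_mul] at this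
  exact this

theorem not_vc_parabolic {C : Subgroup G2} (hC : VirtCyclic C) {L R : G2} (hL : L ∈ C)
    (hR : R ∈ C) {m m' : ℤ} (hm : m ≠ 0) (hm' : m' ≠ 0)
    (eL : (L : Matrix (Fin 2) (Fin 2) ℤ) = !![1, 0; m, 1])
    (eR : (R : Matrix (Fin 2) (Fin 2) ℤ) = !![1, m'; 0, 1]) : False := by
  obtain ⟨c, -, hc⟩ := hC
  obtain ⟨n, hn, -, h1⟩ := Subgroup.exists_pow_mem_of_relIndex_ne_zero hc hL
  obtain ⟨n', hn', -, h2⟩ := Subgroup.exists_pow_mem_of_relIndex_ne_zero hc hR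
  have pL : ∀ n : ℕ, ((L ^ n : G2) : Matrix (Fin 2) (Fin 2) ℤ) = !![1, 0; n * m, 1] := by
    intro n
    induction n with
    | zero => simp [Matrix.one_fin_two]
    | succ n ih => rw [pow_succ, Units.val_mul, ih, eL]; simp [add_mul]
  have pR : ∀ n : ℕ, ((R ^ n : G2) : Matrix (Fin 2) (Fin 2) ℤ) = !![1, n * m'; 0, 1] := by
    intro n
    induction n with
    | zero => simp [Matrix.one_fin_two]
    | succ n ih => rw [pow_succ, Units.val_mul, ih, eR]; simp [add_mul, add_comm]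
  obtain ⟨i, hi⟩ := h1.1
  obtain ⟨j, hj⟩ := h2.1
  have e : L ^ n * R ^ n' = R ^ n' * L ^ n := by
    rw [← hi, ← hj]; exact zpow_mul_comm c i j
  have := congrArg (fun g : G2 => (g : Matrix (Fin 2) (Fin 2) ℤ) 0 0) e
  simp [pL, pR, hm, hm', hn.ne', hn'.ne', -Units.val_pow_eq_pow_val] at this

end Pool.Agent.MP_5045a8_al

end

section

/-! Transvections in SL(3,Z) and the basic obstruction to the Haagerup property. -/

namespace Pool.Agent.MP_5045a8_al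

open Matrix

/-- Integer vectors of length three. -/
abbrev V3 : Type := Fin 3 → ℤ

/-- Integer matrices of size three. -/
abbrev M3 : Type := Matrix (Fin 3) (Fin 3) ℤ

/-- The matrix 1 + u f. -/
def tv (u f : V3) : M3 := 1 + vecMulVec u f

/-- The cross product. -/
def cr (a b : V3) : V3 := ![a 1 * b 2 - a 2 * b 1, a 2 * b 0 - a 0 * b 2, a 0 * b 1 - a 1 * b 0]

/-- The matrix of an element of SL(3,Z). -/
def mat (g : G3) : M3 := g.1

theorem mat_mul (g h : G3) : mat (g * h) = mat g * mat h := rfl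
theorem mat_one : mat 1 = 1 := rfl
theorem mat_det (g : G3) : (mat g).det = 1 := g.2
theorem mat_ext {g h : G3} (e : mat g = mat h) : g = h := Subtype.ext e
theorem mat_transpose (g : G3) : mat g.transpose = (mat g)ᵀ := rfl
theorem mat_mul_inv (g : G3) : mat g * mat g⁻¹ = 1 := by rw [← mat_mul, mul_inv_cancel, mat_one]
theorem mat_inv_mul (g : G3) : mat g⁻¹ * mat g = 1 := by rw [← mat_mul, inv_mul_cancel, mat_one]

theorem transpose_mul' (a b : G3) : (a * b).transpose = b.transpose * a.transpose :=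
  mat_ext (by rw [mat_mul, mat_transpose, mat_transpose, mat_transpose, mat_mul, transpose_mul])

theorem transpose_one' : (1 : G3).transpose = 1 :=
  mat_ext (by rw [mat_transpose, mat_one, transpose_one])

theorem transpose_inv' (a : G3) : (a⁻¹).transpose = (a.transpose)⁻¹ := by
  rw [eq_inv_iff_mul_eq_one, ← transpose_mul', mul_inv_cancel, transpose_one']

/-- A matrix is the matrix of an element of K. -/
def Mem (K : Subgroup G3) (M : M3) : Prop := ∃ g ∈ K, mat g = M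

theorem dot3 (a b : V3) : a ⬝ᵥ b = a 0 * b 0 + a 1 * b 1 + a 2 * b 2 := by
  simp [dotProduct, Fin.sum_univ_three]

theorem ext3 {a b : V3} : a = b ↔ a 0 = b 0 ∧ a 1 = b 1 ∧ a 2 = b 2 := by
  rw [funext_iff, Fin.forall_fin_succ, Fin.forall_fin_two]; rfl

theorem dot_self_pos {a : V3} (h : a ≠ 0) : 0 < a ⬝ᵥ a := by
  rw [dot3]
  rw [Ne, ext3] at h
  simp only [Pi.zero_apply] at h
  by_contra hn
  exact h ⟨by nlinarith [sq_nonneg (a 1), sq_nonneg (a 2), sq_nonneg (a 0)],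
    by nlinarith [sq_nonneg (a 1), sq_nonneg (a 2), sq_nonneg (a 0)],
    by nlinarith [sq_nonneg (a 1), sq_nonneg (a 2), sq_nonneg (a 0)]⟩

theorem cr0 (a b : V3) : cr a b 0 = a 1 * b 2 - a 2 * b 1 := rfl
theorem cr1 (a b : V3) : cr a b 1 = a 2 * b 0 - a 0 * b 2 := rfl
theorem cr2 (a b : V3) : cr a b 2 = a 0 * b 1 - a 1 * b 0 := rfl

theorem par_dot {a b : V3} (h : cr a b = 0) (x : V3) : (a ⬝ᵥ x) • b = (b ⬝ᵥ x) • a := by
  simp only [ext3, cr0, cr1, cr2, Pi.zero_apply, dot3, Pi.smul_apply, smul_eq_mul] at h ⊢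
  obtain ⟨h0, h1, h2⟩ := h
  refine ⟨?_, ?_, ?_⟩
  · linear_combination x 2 * h1 - x 1 * h2
  · linear_combination x 0 * h2 - x 2 * h0
  · linear_combination x 1 * h0 - x 0 * h1

theorem par_dot_zero {a b x : V3} (h : cr a b = 0) (ha : a ≠ 0) (hx : a ⬝ᵥ x = 0) :
    b ⬝ᵥ x = 0 := by
  have := par_dot h x
  rw [hx, zero_smul] at this
  exact (smul_eq_zero.1 this.symm).resolve_right ha

theorem cr_comm_zero {a b : V3} (h : cr a b = 0) : cr b a = 0 := by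
  simp only [ext3, cr0, cr1, cr2, Pi.zero_apply] at h ⊢
  exact ⟨by linarith [h.1], by linarith [h.2.1], by linarith [h.2.2]⟩

theorem cr_of_perp {f u u' : V3} (h : f ⬝ᵥ u = 0) (h' : f ⬝ᵥ u' = 0) : cr f (cr u u') = 0 := by
  simp only [ext3, cr0, cr1, cr2, Pi.zero_apply, dot3] at h h' ⊢
  refine ⟨?_, ?_, ?_⟩
  · linear_combination u 0 * h' - u' 0 * h
  · linear_combination u 1 * h' - u' 1 * h
  · linear_combination u 2 * h' - u' 2 * h

theorem cr_trans {a b c : V3} (hb : b ≠ 0) (h : cr a b = 0) (h' : cr c b = 0) : cr a c = 0 := by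
  have e1 := par_dot h b
  have e2 := par_dot h' b
  have hp := (dot_self_pos hb).ne'
  simp only [ext3, cr0, cr1, cr2, Pi.zero_apply, Pi.smul_apply, smul_eq_mul] at e1 e2 ⊢
  generalize b ⬝ᵥ b = n at *
  generalize a ⬝ᵥ b = s at *
  generalize c ⬝ᵥ b = t at *
  obtain ⟨a0, a1, a2⟩ := e1
  obtain ⟨c0, c1, c2⟩ := e2
  refine ⟨mul_left_cancel₀ (mul_ne_zero hp hp) ?_, mul_left_cancel₀ (mul_ne_zero hp hp) ?_,
    mul_left_cancel₀ (mul_ne_zero hp hp) ?_⟩
  · rw [mul_zero]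
    have : n * n * (a 1 * c 2 - a 2 * c 1) = (n * a 1) * (n * c 2) - (n * a 2) * (n * c 1) := by
      ring
    rw [this, ← a1, ← a2, ← c1, ← c2]; ring
  · rw [mul_zero]
    have : n * n * (a 2 * c 0 - a 0 * c 2) = (n * a 2) * (n * c 0) - (n * a 0) * (n * c 2) := by
      ring
    rw [this, ← a0, ← a2, ← c0, ← c2]; ring
  · rw [mul_zero]
    have : n * n * (a 0 * c 1 - a 1 * c 0) = (n * a 0) * (n * c 1) - (n * a 1) * (n * c 0) := by
      ring
    rw [this, ← a0, ← a1, ← c0, ← c1]; ring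

theorem tv_apply (u f : V3) (i j : Fin 3) : tv u f i j = (1 : M3) i j + u i * f j := rfl

theorem det_tv (u f : V3) : (tv u f).det = 1 + f ⬝ᵥ u := by
  simp [det_fin_three, tv_apply, dot3]; ring

theorem tv_smul (n : ℤ) (u f : V3) : tv (n • u) f = tv u (n • f) := by
  rw [tv, tv, smul_vecMulVec, vecMulVec_smul]

theorem tv_transpose (u f : V3) : (tv u f)ᵀ = tv f u := by simp [tv]

theorem tv_zero_left (f : V3) : tv 0 f = 1 := by simp [tv]

theorem tv_mulVec (u f x : V3) : tv u f *ᵥ x = x + (f ⬝ᵥ x) • u := by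
  simp [tv, add_mulVec, vecMulVec_mulVec]

theorem vecMul_tv (u f x : V3) : x ᵥ* tv u f = x + (x ⬝ᵥ u) • f := by
  simp [tv, vecMul_add, vecMul_vecMulVec]

theorem tv_mul_axis {u u' f : V3} (h : f ⬝ᵥ u' = 0) : tv u f * tv u' f = tv (u + u') f := by
  simp only [tv, mul_add, add_mul, one_mul, mul_one, vecMulVec_mul_vecMulVec, h, zero_smul,
    vecMulVec_zero, add_vecMulVec]
  abel

theorem tv_mul_centre {u f f' : V3} (h : f ⬝ᵥ u = 0) : tv u f * tv u f' = tv u (f + f') := by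
  simp only [tv, mul_add, add_mul, one_mul, mul_one, vecMulVec_mul_vecMulVec, h, zero_smul,
    vecMulVec_zero, vecMulVec_add]
  abel

theorem tv_conj (g : G3) (u f : V3) :
    mat g * tv u f * mat g⁻¹ = tv (mat g *ᵥ u) (f ᵥ* mat g⁻¹) := by
  rw [tv, mul_add, add_mul, mul_one, mat_mul_inv, mul_vecMulVec, vecMulVec_mul]
  rfl

theorem Mem.dot {K : Subgroup G3} {u f : V3} (h : Mem K (tv u f)) : f ⬝ᵥ u = 0 := by
  obtain ⟨g, -, e⟩ := h
  have := mat_det g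
  rw [e, det_tv] at this
  linarith

theorem Mem.mul {K : Subgroup G3} {M N : M3} (h : Mem K M) (h' : Mem K N) : Mem K (M * N) := by
  obtain ⟨g, hg, rfl⟩ := h
  obtain ⟨g', hg', rfl⟩ := h'
  exact ⟨g * g', K.mul_mem hg hg', rfl⟩

theorem Mem.mono {K L : Subgroup G3} {M : M3} (h : Mem K M) (hle : K ≤ L) : Mem L M := by
  obtain ⟨g, hg, e⟩ := h
  exact ⟨g, hle hg, e⟩

theorem Mem.conj {K : Subgroup G3} {u f : V3} (h : Mem K (tv u f)) {g : G3} (hg : g ∈ K) :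
    Mem K (tv (mat g *ᵥ u) (f ᵥ* mat g⁻¹)) := by
  rw [← tv_conj]
  exact ((Mem.mul ⟨g, hg, rfl⟩ h).mul ⟨_, K.inv_mem hg, rfl⟩)

theorem inv_tv {g : G3} {u f : V3} (e : mat g = tv u f) : mat g⁻¹ = tv (-u) f := by
  have h : f ⬝ᵥ u = 0 := Mem.dot (K := ⊤) ⟨g, trivial, e⟩
  have : tv (-u) f * mat g = 1 := by rw [e, tv_mul_axis h]; simp [tv]
  calc mat g⁻¹ = tv (-u) f * mat g * mat g⁻¹ := by rw [this, one_mul]
    _ = tv (-u) f := by rw [mul_assoc, mat_mul_inv, mul_one]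

theorem zpow_tv {g : G3} {u f : V3} (e : mat g = tv u f) (n : ℤ) :
    mat (g ^ n) = tv (n • u) f := by
  have h : f ⬝ᵥ u = 0 := Mem.dot (K := ⊤) ⟨g, trivial, e⟩
  induction n using Int.induction_on with
  | zero => simp [tv, mat_one]
  | succ n ih =>
    rw [_root_.zpow_add_one, mat_mul, ih, e, tv_mul_axis h, add_smul, one_smul]
  | pred n ih =>
    rw [_root_.zpow_sub_one, mat_mul, ih, inv_tv e,
      tv_mul_axis (by simp [h]), sub_smul, one_smul, sub_eq_add_neg]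

theorem Mem.zsmul {K : Subgroup G3} {u f : V3} (h : Mem K (tv u f)) (n : ℤ) :
    Mem K (tv (n • u) f) := by
  obtain ⟨g, hg, e⟩ := h
  exact ⟨g ^ n, K.zpow_mem hg n, zpow_tv e n⟩

theorem Mem.zsmul' {K : Subgroup G3} {u f : V3} (h : Mem K (tv u f)) (n : ℤ) :
    Mem K (tv u (n • f)) := by
  rw [← tv_smul]; exact h.zsmul n

theorem Mem.add_axis {K : Subgroup G3} {u u' f : V3} (h : Mem K (tv u f)) (h' : Mem K (tv u' f)) :
    Mem K (tv (u + u') f) := by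
  rw [← tv_mul_axis h'.dot]; exact h.mul h'

theorem Mem.add_centre {K : Subgroup G3} {u f f' : V3} (h : Mem K (tv u f))
    (h' : Mem K (tv u f')) : Mem K (tv u (f + f')) := by
  rw [← tv_mul_centre h.dot]; exact h.mul h'

/-- Conjugating one transvection by another. -/
theorem Mem.conj_tv {K : Subgroup G3} {u f u' f' : V3} (h : Mem K (tv u f))
    (h' : Mem K (tv u' f')) : Mem K (tv (u + (f' ⬝ᵥ u) • u') (f - (f ⬝ᵥ u') • f')) := by
  obtain ⟨g, hg, e⟩ := h'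
  have := h.conj hg
  rw [inv_tv e, e, tv_mulVec, vecMul_tv] at this
  simpa [sub_eq_add_neg] using this

/-- The transposed subgroup. -/
def tr (K : Subgroup G3) : Subgroup G3 where
  carrier := {g | g.transpose ∈ K}
  one_mem' := by
    simp only [Set.mem_ofPred_eq, transpose_one', K.one_mem]
  mul_mem' := fun {a b} ha hb => by
    simp only [Set.mem_ofPred_eq, transpose_mul'] at *
    exact K.mul_mem hb ha
  inv_mem' := fun {a} ha => by
    simp only [Set.mem_ofPred_eq, transpose_inv'] at *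
    exact K.inv_mem ha

theorem mem_tr {K : Subgroup G3} {g : G3} : g ∈ tr K ↔ g.transpose ∈ K := Iff.rfl

theorem transpose_transpose' (g : G3) : g.transpose.transpose = g := rfl

theorem tr_tr (K : Subgroup G3) : tr (tr K) = K := rfl

theorem tr_le {K L : Subgroup G3} : tr K ≤ tr L ↔ K ≤ L :=
  ⟨fun h g hg => h (x := g.transpose) hg, fun h _ hg => h hg⟩

theorem tr_lt {K L : Subgroup G3} : tr K < tr L ↔ K < L := by
  simp only [lt_iff_le_not_ge, tr_le]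

theorem Mem.tr {K : Subgroup G3} {M : M3} (h : Mem K M) : Mem (tr K) Mᵀ := by
  obtain ⟨g, hg, rfl⟩ := h
  exact ⟨g.transpose, hg, rfl⟩

theorem Mem.tr_tv {K : Subgroup G3} {u f : V3} (h : Mem K (tv u f)) :
    Mem (MP_5045a8_al.tr K) (tv f u) := by
  rw [← tv_transpose]; exact h.tr

theorem HP.tr {K : Subgroup G3} (h : HP K) : HP (tr K) := by
  refine h.of_injective (MonoidHom.mk' (fun g => ⟨(g.1.transpose)⁻¹, K.inv_mem g.2⟩)
    fun a b => ?_) fun a b e => ?_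
  · ext1
    simp [transpose_mul']
  · have : a.1.transpose = b.1.transpose := by simpa using e
    exact Subtype.ext (congrArg SpecialLinearGroup.transpose this)

/-- Matrices realised by conjugation on a copy of Z^2. -/
def normSub {Γ : Type} [Group Γ] (τ : (Fin 2 → ℤ) → Γ) : Subgroup G2 where
  carrier := {A | ∃ a : Γ, ∀ k, a⁻¹ * τ k * a = τ (k ᵥ* (A : Matrix (Fin 2) (Fin 2) ℤ))}
  one_mem' := ⟨1, fun k => by simp⟩
  mul_mem' := fun {A B} ⟨a, ha⟩ ⟨b, hb⟩ => ⟨a * b, fun k => by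
    rw [Units.val_mul, ← vecMul_vecMul, ← hb, ← ha]; group⟩
  inv_mem' := fun {A} ⟨a, ha⟩ => ⟨a⁻¹, fun k => by
    have := ha (k ᵥ* ((A⁻¹ : G2) : Matrix (Fin 2) (Fin 2) ℤ))
    rw [vecMul_vecMul, ← Units.val_mul, inv_mul_cancel, Units.val_one, vecMul_one] at this
    rw [← this]; group⟩

theorem no_pair {K : Subgroup G3} (hK : HP K) {x ψ ψ' y y' : V3} (hx : x ≠ 0)
    (h1 : Mem K (tv x ψ)) (h2 : Mem K (tv x ψ')) (hy : Mem K (tv y ψ)) (hy' : Mem K (tv y' ψ'))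
    (hm : ψ' ⬝ᵥ y ≠ 0) (hm' : ψ ⬝ᵥ y' ≠ 0) : False := by
  have hk : ∀ k : Fin 2 → ℤ, ∃ g : K, mat g = tv x (k 0 • ψ + k 1 • ψ') := fun k => by
    obtain ⟨g, hg, e⟩ := (h1.zsmul' (k 0)).add_centre (h2.zsmul' (k 1))
    exact ⟨⟨g, hg⟩, e⟩
  choose τ hτ using hk
  have hext : ∀ a b : K, mat a = mat b → a = b := fun a b e => Subtype.ext (mat_ext e)
  have hsub : ∀ k l, τ (l - k) = (τ k)⁻¹ * τ l := by
    intro k l
    rw [eq_inv_mul_iff_mul_eq]
    apply hext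
    rw [Subgroup.coe_mul, mat_mul, hτ, hτ, hτ,
      tv_mul_centre (by simp [h1.dot, h2.dot, -zsmul_eq_mul])]
    congr 1
    simp only [Pi.sub_apply, sub_smul]; abel
  have hinj : Function.Injective τ := by
    intro k l e
    have e1 := hτ k
    rw [e, hτ, tv, tv, add_right_inj, ← sub_eq_zero, sub_eq_add_neg, ← vecMulVec_neg,
      ← vecMulVec_add, vecMulVec_eq_zero] at e1
    have e2 := e1.resolve_left hx
    have a1 := congrArg (· ⬝ᵥ y) e2
    have a2 := congrArg (· ⬝ᵥ y') e2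
    simp only [add_dotProduct, neg_dotProduct, smul_dotProduct, hy.dot, hy'.dot, smul_eq_mul,
      zero_dotProduct] at a1 a2
    funext i
    fin_cases i
    · exact mul_right_cancel₀ hm' (by simp only [Fin.zero_eta]; linarith)
    · exact mul_right_cancel₀ hm (by simp only [Fin.mk_one]; linarith)
  have hvc := burger (C := normSub τ) hK hsub hinj fun A hA => hA
  have key : ∀ (a : K) (z φ : V3), mat a = tv z φ → φ ⬝ᵥ x = 0 → ∀ k,
      mat (a⁻¹ * τ k * a : K) =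
        tv x (k 0 • ψ + k 1 • ψ' + ((k 0 • ψ + k 1 • ψ') ⬝ᵥ z) • φ) := by
    intro a z φ e hφ k
    have := tv_conj (a : G3)⁻¹ x (k 0 • ψ + k 1 • ψ')
    rw [inv_inv, ← hτ] at this
    simp only [Subgroup.coe_mul, Subgroup.coe_inv, mat_mul]
    rw [this, inv_tv e, e, tv_mulVec, vecMul_tv, hφ, zero_smul, add_zero]
  obtain ⟨a, ha, ea⟩ := hy
  obtain ⟨a', ha', ea'⟩ := hy'
  have hy0 : ψ ⬝ᵥ y = 0 := Mem.dot ⟨a, ha, ea⟩
  have hy0' : ψ' ⬝ᵥ y' = 0 := Mem.dot ⟨a', ha', ea'⟩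
  refine not_vc_parabolic hvc
    (L := GeneralLinearGroup.mk'' !![1, 0; ψ' ⬝ᵥ y, 1] (by simp))
    (R := GeneralLinearGroup.mk'' !![1, ψ ⬝ᵥ y'; 0, 1] (by simp))
    ⟨⟨a, ha⟩, fun k => hext _ _ ?_⟩ ⟨⟨a', ha'⟩, fun k => hext _ _ ?_⟩ hm hm' rfl rfl
  · rw [key _ _ _ ea h1.dot, hτ]
    congr 1
    have e0 : (k ᵥ* !![1, 0; ψ' ⬝ᵥ y, 1]) 0 = k 0 + k 1 * (ψ' ⬝ᵥ y) := by
      simp [vecMul, dotProduct]
    have e1 : (k ᵥ* !![1, 0; ψ' ⬝ᵥ y, 1]) 1 = k 1 := by simp [vecMul, dotProduct]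
    erw [e0, e1]
    simp only [add_dotProduct, smul_dotProduct, hy0, smul_eq_mul, add_smul, mul_zero, zero_smul]
    abel
  · rw [key _ _ _ ea' h2.dot, hτ]
    congr 1
    have e0 : (k ᵥ* !![1, ψ ⬝ᵥ y'; 0, 1]) 0 = k 0 := by simp [vecMul, dotProduct]
    have e1 : (k ᵥ* !![1, ψ ⬝ᵥ y'; 0, 1]) 1 = k 0 * (ψ ⬝ᵥ y') + k 1 := by
      simp [vecMul, dotProduct]
    erw [e0, e1]
    simp only [add_dotProduct, smul_dotProduct, hy0', smul_eq_mul, add_smul, mul_zero, zero_smul]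
    abel

end Pool.Agent.MP_5045a8_al

end

section

/-! Lattices of transvections with a common axis, and lines of centres. -/

namespace Pool.Agent.MP_5045a8_al

open Matrix

/-- K contains a lattice of transvections with axis f. -/
def LatAx (K : Subgroup G3) (f : V3) : Prop :=
  f ≠ 0 ∧ ∃ N : ℤ, N ≠ 0 ∧ ∀ x, f ⬝ᵥ x = 0 → Mem K (tv (N • x) f)

/-- K fixes the covector f up to sign. -/
def Stab (K : Subgroup G3) (f : V3) : Prop := ∀ g ∈ K, f ᵥ* mat g = f ∨ f ᵥ* mat g = -f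

/-- Every rational point of the line f = 0 is the centre of a transvection in K. -/
def Centres (K : Subgroup G3) (f : V3) : Prop :=
  ∀ x, x ≠ 0 → f ⬝ᵥ x = 0 → ∃ φ, φ ≠ 0 ∧ Mem K (tv x φ)

theorem LatAx.mono {K L : Subgroup G3} {f : V3} (h : LatAx K f) (hle : K ≤ L) : LatAx L f := by
  obtain ⟨h0, N, hN, h⟩ := h
  exact ⟨h0, N, hN, fun x hx => (h x hx).mono hle⟩

theorem Centres.mono {K L : Subgroup G3} {f : V3} (h : Centres K f) (hle : K ≤ L) :
    Centres L f := fun x h0 hx => by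
  obtain ⟨φ, hφ, hm⟩ := h x h0 hx
  exact ⟨φ, hφ, hm.mono hle⟩

theorem dot_cr_left (a b : V3) : a ⬝ᵥ cr a b = 0 := by simp only [dot3, cr0, cr1, cr2]; ring

theorem dot_cr_right (a b : V3) : b ⬝ᵥ cr a b = 0 := by simp only [dot3, cr0, cr1, cr2]; ring

theorem dot_cr_cr (a b : V3) : b ⬝ᵥ cr a (cr a b) = -(cr a b ⬝ᵥ cr a b) := by
  simp only [dot3, cr0, cr1, cr2]; ring

theorem dot_cr_cr' (a b : V3) : a ⬝ᵥ cr b (cr a b) = cr a b ⬝ᵥ cr a b := by
  simp only [dot3, cr0, cr1, cr2]; ring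

theorem lat_of_two {K : Subgroup G3} {u u' f : V3} (h : Mem K (tv u f)) (h' : Mem K (tv u' f))
    (hf : f ≠ 0) (hu : cr u u' ≠ 0) : LatAx K f := by
  refine ⟨hf, cr u u' ⬝ᵥ cr u u', (dot_self_pos hu).ne', fun x hx => ?_⟩
  have h0 := par_dot_zero (cr_of_perp h.dot h'.dot) hf hx
  have e : (cr u u' ⬝ᵥ cr u u') • x = (x ⬝ᵥ cr u' (cr u u')) • u + (x ⬝ᵥ cr (cr u u') u) • u' := by
    simp only [ext3, dot3, cr0, cr1, cr2, Pi.add_apply, Pi.smul_apply, smul_eq_mul] at h0 ⊢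
    refine ⟨?_, ?_, ?_⟩
    · linear_combination (u 1 * u' 2 - u 2 * u' 1) * h0
    · linear_combination (u 2 * u' 0 - u 0 * u' 2) * h0
    · linear_combination (u 0 * u' 1 - u 1 * u' 0) * h0
  rw [e]
  exact (h.zsmul _).add_axis (h'.zsmul _)

theorem gcd_dvd_vecMul (f : V3) (M : M3) : Finset.univ.gcd f ∣ Finset.univ.gcd (f ᵥ* M) := by
  refine Finset.dvd_gcd fun j _ => ?_
  simp only [vecMul, dotProduct]
  exact Finset.dvd_sum fun i _ => (Finset.gcd_dvd (Finset.mem_univ i)).mul_right _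

theorem par_unit {f : V3} (hf : f ≠ 0) (g : G3) (h : cr f (f ᵥ* mat g) = 0) :
    f ᵥ* mat g = f ∨ f ᵥ* mat g = -f := by
  set f' := f ᵥ* mat g with hf'
  have e := par_dot h f
  have d1 := gcd_dvd_vecMul f (mat g)
  have d2 := gcd_dvd_vecMul f' (mat g⁻¹)
  rw [hf', vecMul_vecMul, mat_mul_inv, vecMul_one, ← hf'] at d2
  rw [← hf'] at d1
  have e1 : Finset.univ.gcd f' = Finset.univ.gcd f := by
    have := normalize_eq_normalize d2 d1
    rwa [Finset.normalize_gcd, Finset.normalize_gcd] at this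
  have e2 : Finset.univ.gcd ((f ⬝ᵥ f) • f') = Finset.univ.gcd ((f' ⬝ᵥ f) • f) := by rw [e]
  have e3 := Finset.gcd_mul_left (s := Finset.univ) (f := f') (a := f ⬝ᵥ f)
  have e4 := Finset.gcd_mul_left (s := Finset.univ) (f := f) (a := f' ⬝ᵥ f)
  have hd : Finset.univ.gcd f ≠ 0 := by
    rw [Ne, Finset.gcd_eq_zero_iff]
    exact fun h0 => hf (funext fun i => h0 i (Finset.mem_univ i))
  have e5 : normalize (f ⬝ᵥ f) = normalize (f' ⬝ᵥ f) := by
    apply mul_right_cancel₀ hd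
    rw [← e4, ← e1, ← e3]; exact e2
  rw [← Int.abs_eq_normalize, ← Int.abs_eq_normalize, abs_eq_abs] at e5
  have hp := (dot_self_pos hf).ne'
  rcases e5 with e5 | e5
  · left
    rw [← e5] at e
    exact smul_right_injective _ hp e
  · right
    refine smul_right_injective _ hp ?_
    simp only [e, smul_neg]
    rw [e5, neg_smul, neg_neg]

theorem LatAx.conj {K : Subgroup G3} {f : V3} (h : LatAx K f) {g : G3} (hg : g ∈ K) :
    LatAx K (f ᵥ* mat g) := by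
  obtain ⟨h0, N, hN, h⟩ := h
  refine ⟨fun e => h0 ?_, N, hN, fun x hx => ?_⟩
  · have := congrArg (· ᵥ* mat g⁻¹) e
    simpa [vecMul_vecMul, mat_mul_inv] using this
  · have := (h (mat g *ᵥ x) (by rw [dotProduct_mulVec, hx])).conj (K.inv_mem hg)
    rwa [mulVec_smul, mulVec_mulVec, mat_inv_mul, one_mulVec, inv_inv] at this

theorem LatAx.stab {K : Subgroup G3} (hK : HP K) {f : V3} (h : LatAx K f) : Stab K f := by
  intro g hg
  refine par_unit h.1 g ?_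
  obtain ⟨-, N', hN', h'⟩ := h.conj hg
  obtain ⟨-, N, hN, h⟩ := h
  set f' := f ᵥ* mat g
  by_contra hne
  have hp := (dot_self_pos hne).ne'
  have a1 := (h _ (dot_cr_left f f')).zsmul N'
  have a2 := (h' _ (dot_cr_right f f')).zsmul N
  rw [smul_comm] at a2
  refine no_pair hK (smul_ne_zero hN' (smul_ne_zero hN hne)) a1 a2
    (h _ (dot_cr_left f (cr f f'))) (h' _ (dot_cr_left f' (cr f f'))) ?_ ?_
  · rw [dotProduct_smul, dot_cr_cr]; simp [hN, hp]
  · rw [dotProduct_smul, dot_cr_cr']; simp [hN', hp]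

theorem cr_smul_ne {u u' f : V3} {n : ℤ} (hn : n ≠ 0) (hu' : u' ≠ 0) (h : f ⬝ᵥ u' = 0)
    (h' : f ⬝ᵥ u ≠ 0) : cr u (n • u') ≠ 0 := by
  intro e
  have := par_dot (cr_comm_zero e) f
  rw [smul_dotProduct, dotProduct_comm u', h, smul_zero, zero_smul, dotProduct_comm u] at this
  exact smul_ne_zero h' (smul_ne_zero hn hu') this.symm

theorem lat_of_comm {K : Subgroup G3} {u f u' f' : V3} (h : Mem K (tv u f))
    (h' : Mem K (tv u' f')) (hf : f ≠ 0) (hu' : u' ≠ 0) (h0 : f ⬝ᵥ u' = 0) (h1 : f' ⬝ᵥ u ≠ 0) :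
    LatAx K f := by
  have a := h.conj_tv h'
  rw [h0, zero_smul, sub_zero] at a
  have b := a.add_axis (h.zsmul (-1))
  rw [neg_one_smul, add_neg_cancel_comm] at b
  exact lat_of_two h b hf (cr_smul_ne h1 hu' h'.dot h1)

theorem lat_of_par {K : Subgroup G3} {u f u' f' : V3} (h : Mem K (tv u f))
    (h' : Mem K (tv u' f')) (hf : f ≠ 0) (hf' : f' ≠ 0) (hp : cr f f' = 0) (hu : cr u u' ≠ 0) :
    LatAx K f := by
  have e := par_dot hp f
  have b := h'.zsmul' (f ⬝ᵥ f)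
  rw [e, ← tv_smul] at b
  refine lat_of_two h b hf fun e2 => hu ?_
  have hn : f' ⬝ᵥ f ≠ 0 := by
    intro e0
    rw [e0, zero_smul] at e
    exact smul_ne_zero (dot_self_pos hf).ne' hf' e
  have : cr u ((f' ⬝ᵥ f) • u') = (f' ⬝ᵥ f) • cr u u' := by
    simp only [ext3, cr0, cr1, cr2, Pi.smul_apply, smul_eq_mul]
    refine ⟨by ring, by ring, by ring⟩
  rw [this] at e2
  exact (smul_eq_zero.1 e2).resolve_left hn

theorem lemmaN {K : Subgroup G3} {u f u' f' : V3} (h : Mem K (tv u f)) (h' : Mem K (tv u' f'))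
    (hu : u ≠ 0) (hf : f ≠ 0) (hu' : u' ≠ 0) (hf' : f' ≠ 0) (h0 : f ⬝ᵥ u' = 0)
    (hne : cr u u' ≠ 0 ∨ cr f f' ≠ 0) : LatAx K f ∨ LatAx (tr K) u := by
  by_cases h1 : f' ⬝ᵥ u = 0
  swap
  · exact Or.inl (lat_of_comm h h' hf hu' h0 h1)
  by_cases h2 : cr u u' = 0
  · exact Or.inr (lat_of_par h.tr_tv h'.tr_tv hu hu' h2 (hne.resolve_left fun x => x h2))
  · exact Or.inl (lat_of_par h h' hf hf'
      (cr_trans h2 (cr_of_perp h.dot h0) (cr_of_perp h1 h'.dot)) h2)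

theorem Stab.dot {K : Subgroup G3} {f x ψ : V3} (h : Stab K f) (hm : Mem K (tv x ψ))
    (hψ : ψ ≠ 0) : f ⬝ᵥ x = 0 := by
  have h0 := hm.dot
  obtain ⟨g, hg, e⟩ := hm
  rcases h g hg with h | h <;> rw [e, vecMul_tv] at h
  · exact (smul_eq_zero.1 (add_eq_left.1 h)).resolve_right hψ
  · have := congrArg (· ⬝ᵥ x) h
    simp only [add_dotProduct, smul_dotProduct, h0, smul_zero, neg_dotProduct] at this
    linarith

theorem LatAx.mem_par {K : Subgroup G3} {f : V3} (h : LatAx K f) :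
    ∃ N : ℤ, N ≠ 0 ∧ ∀ x, f ⬝ᵥ x = 0 → Mem K (tv x (N • f)) := by
  obtain ⟨-, N, hN, h⟩ := h
  exact ⟨N, hN, fun x hx => by rw [← tv_smul]; exact h x hx⟩

theorem dot_ne_of_indep {ψ y u x : V3} (hψ : ψ ≠ 0) (h1 : ψ ⬝ᵥ y = 0) (h2 : ψ ⬝ᵥ u = 0)
    (h : cr y u ⬝ᵥ x ≠ 0) : ψ ⬝ᵥ x ≠ 0 := fun e =>
  h (par_dot_zero (cr_of_perp h1 h2) hψ e)

/-- Two transvections with centres independent modulo a common-centre lattice. -/
theorem no_lat_centre {K : Subgroup G3} (hK : HP K) {u y y' ψ ψ' : V3} (h : LatAx (tr K) u)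
    (hy : Mem K (tv y ψ)) (hy' : Mem K (tv y' ψ')) (hψ : ψ ≠ 0) (hψ' : ψ' ≠ 0)
    (hy0 : y ≠ 0) (hy0' : y' ≠ 0) (hind : cr y u ⬝ᵥ y' ≠ 0) : False := by
  have hs := h.stab hK.tr
  have p1 := hs.dot hy.tr_tv hy0
  have p2 := hs.dot hy'.tr_tv hy0'
  obtain ⟨N, hN, hm⟩ := h.mem_par
  have a1 : Mem K (tv (N • u) ψ) := (hm ψ p1).tr_tv
  have a2 : Mem K (tv (N • u) ψ') := (hm ψ' p2).tr_tv
  rw [dotProduct_comm] at p1 p2
  refine no_pair hK (smul_ne_zero hN h.1) a1 a2 hy hy' (dot_ne_of_indep hψ' hy'.dot p2 ?_)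
    (dot_ne_of_indep hψ hy.dot p1 hind)
  intro e
  apply hind
  simp only [dot3, cr0, cr1, cr2] at e ⊢
  linear_combination -e

theorem exists_perp {f f' : V3} (h : cr f f' ≠ 0) : ∃ y, y ≠ 0 ∧ f ⬝ᵥ y = 0 ∧ f' ⬝ᵥ y ≠ 0 := by
  have : f' ⬝ᵥ cr f (cr f f') ≠ 0 := by
    rw [dot_cr_cr]; exact neg_ne_zero.2 (dot_self_pos h).ne'
  exact ⟨_, fun e => this (by rw [e]; simp), dot_cr_left _ _, this⟩

theorem cr_ne_comm {a b : V3} (h : cr a b ≠ 0) : cr b a ≠ 0 := fun e => h (cr_comm_zero e)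

theorem cr_ne_of_dot {f y y' : V3} (hy' : y' ≠ 0) (h : f ⬝ᵥ y' = 0) (h' : f ⬝ᵥ y ≠ 0) :
    cr y y' ≠ 0 := by
  simpa using cr_smul_ne one_ne_zero hy' h h'

theorem exists_perp_ne {f f' : V3} (hf : f ≠ 0) :
    ∃ y, y ≠ 0 ∧ f ⬝ᵥ y = 0 ∧ f' ⬝ᵥ y = 0 := by
  by_cases h : cr f f' = 0
  · obtain ⟨e, he⟩ : ∃ e, cr f e ≠ 0 := by
      by_contra hn
      push Not at hn
      have a := hn ![1, 0, 0]
      have b := hn ![0, 1, 0]
      simp [ext3, cr0, cr1, cr2] at a b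
      exact hf (ext3.2 ⟨b.2, a.2, a.1⟩)
    exact ⟨_, he, dot_cr_left _ _, par_dot_zero h hf (dot_cr_left _ _)⟩
  · exact ⟨_, h, dot_cr_left _ _, dot_cr_right _ _⟩

theorem Centres.stab {K : Subgroup G3} (hK : HP K) {f : V3} (hf : f ≠ 0) (h : Centres K f) :
    Stab K f := by
  intro g hg
  refine par_unit hf g ?_
  have h' : Centres K (f ᵥ* mat g) := by
    intro x hx0 hx
    have hinj : mat g *ᵥ x ≠ 0 := fun e => hx0 (by
      have := congrArg (mat g⁻¹ *ᵥ ·) e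
      simpa [mulVec_mulVec, mat_inv_mul] using this)
    obtain ⟨φ, hφ, hm⟩ := h (mat g *ᵥ x) hinj (by rw [dotProduct_mulVec, hx])
    have := hm.conj (K.inv_mem hg)
    rw [mulVec_mulVec, mat_inv_mul, one_mulVec, inv_inv] at this
    refine ⟨_, fun e => hφ ?_, this⟩
    have := congrArg (· ᵥ* mat g⁻¹) e
    simpa [vecMul_vecMul, mat_mul_inv] using this
  set f' := f ᵥ* mat g
  by_contra hne
  have hf' : f' ≠ 0 := fun e => hne (by rw [e]; simp [ext3, cr0, cr1, cr2])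
  obtain ⟨y, hy0, hy, hy'⟩ := exists_perp hne
  obtain ⟨φ, hφ, hm⟩ := h y hy0 hy
  obtain ⟨z, hz0, hz, hz'⟩ := exists_perp_ne (f' := φ) hf'
  obtain ⟨ψ, hψ, hm'⟩ := h' z hz0 hz
  rcases lemmaN hm hm' hy0 hφ hz0 hψ hz' (Or.inl (cr_ne_of_dot hz0 hz hy')) with hl | hl
  · have hs := hl.stab hK
    have p : ∀ {e : V3}, e ≠ 0 → Centres K e → cr φ e = 0 := by
      intro e he hc
      by_contra hn
      obtain ⟨x, hx0, hx, hx'⟩ := exists_perp (cr_ne_comm hn)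
      obtain ⟨χ, hχ, hmx⟩ := hc x hx0 hx
      exact hx' (hs.dot hmx hχ)
    exact hne (cr_trans hφ (cr_comm_zero (p hf h)) (cr_comm_zero (p hf' h')))
  · obtain ⟨w, hw0, hw, hw'⟩ := exists_perp (cr_ne_comm hne)
    obtain ⟨χ, hχ, hmw⟩ := h' w hw0 hw
    obtain ⟨χ', hχ', hmx⟩ := h _ hne (dot_cr_left _ _)
    refine no_lat_centre hK hl hmx hmw hχ' hχ hne hw0 fun e => hw' ?_
    have hc : cr (cr f f') y ≠ 0 := cr_ne_comm (cr_ne_of_dot hne (dot_cr_right _ _) hy')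
    exact par_dot_zero (cr_comm_zero (cr_of_perp (dot_cr_left _ _) hy)) hc e

end Pool.Agent.MP_5045a8_al

end

section

/-! Standard position: the parabolic subgroup with bottom row (0, 0, *) and block groups. -/

namespace Pool.Agent.MP_5045a8_al

open Matrix

/-- Maximality for the approximation form of the Haagerup property. -/
def MaxHP (H : Subgroup G3) : Prop := HP H ∧ ∀ K : Subgroup G3, H < K → ¬ HP K

instance countable_G3 : Countable G3 :=
  Function.Injective.countable (f := fun (g : G3) (p : Fin 3 × Fin 3) => mat g p.1 p.2)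
    fun _ _ e => mat_ext (by ext i j; exact congrFun e (i, j))

theorem haagerup_iff (H : Subgroup G3) : Haagerup H ↔ HP H := ⟨Haagerup.hp, HP.haagerup⟩

theorem isMax_iff (H : Subgroup G3) : IsMaxHaagerup H ↔ MaxHP H := by
  simp only [IsMaxHaagerup, MaxHP, haagerup_iff]

/-- The conjugate subgroup. -/
def cj (γ : G3) (K : Subgroup G3) : Subgroup G3 := K.comap (MulAut.conj γ).toMonoidHom

theorem mem_cj {γ g : G3} {K : Subgroup G3} : g ∈ cj γ K ↔ γ * g * γ⁻¹ ∈ K := Iff.rfl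

theorem mem_cj' {γ g : G3} {K : Subgroup G3} : γ⁻¹ * g * γ ∈ cj γ K ↔ g ∈ K := by
  rw [mem_cj]; simp [mul_assoc]

theorem cj_cj (γ : G3) (K : Subgroup G3) : cj γ (cj γ⁻¹ K) = K := by
  ext g; simp [mem_cj, mul_assoc]

theorem cj_le {γ : G3} {K L : Subgroup G3} : cj γ K ≤ cj γ L ↔ K ≤ L :=
  ⟨fun h _ hg => mem_cj'.1 (h (mem_cj'.2 hg)), fun h _ hg => h hg⟩

theorem cj_lt {γ : G3} {K L : Subgroup G3} : cj γ K < cj γ L ↔ K < L := by
  simp only [lt_iff_le_not_ge, cj_le]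

theorem HP.cj {K : Subgroup G3} (h : HP K) (γ : G3) : HP (cj γ K) :=
  h.of_injective (MonoidHom.mk' (fun g => ⟨γ * g.1 * γ⁻¹, g.2⟩) fun a b => by
    ext1; simp [mul_assoc]) fun a b e => by
    have : γ * a.1 * γ⁻¹ = γ * b.1 * γ⁻¹ := congrArg Subtype.val e
    exact Subtype.ext (by simpa using this)

theorem HP.of_cj {K : Subgroup G3} {γ : G3} (h : HP (MP_5045a8_al.cj γ K)) : HP K := by
  have := h.cj γ⁻¹
  have e := cj_cj γ⁻¹ K
  rw [inv_inv] at e
  rwa [e] at this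

theorem MaxHP.cj {H : Subgroup G3} (h : MaxHP H) (γ : G3) : MaxHP (cj γ H) :=
  ⟨h.1.cj γ, fun K hK hp => h.2 (MP_5045a8_al.cj γ⁻¹ K)
    (by rw [← cj_lt (γ := γ), cj_cj]; exact hK) (hp.cj _)⟩

theorem MaxHP.of_cj {H : Subgroup G3} {γ : G3} (h : MaxHP (MP_5045a8_al.cj γ H)) : MaxHP H := by
  have := h.cj γ⁻¹
  have e := cj_cj γ⁻¹ H
  rw [inv_inv] at e
  rwa [e] at this

theorem MaxHP.tr {H : Subgroup G3} (h : MaxHP H) : MaxHP (tr H) :=
  ⟨h.1.tr, fun K hK hp => h.2 (MP_5045a8_al.tr K) (tr_lt.2 hK) hp.tr⟩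

theorem Mem.cj {K : Subgroup G3} {u f : V3} (h : Mem K (tv u f)) (γ : G3) :
    Mem (cj γ K) (tv (mat γ⁻¹ *ᵥ u) (f ᵥ* mat γ)) := by
  obtain ⟨g, hg, e⟩ := h
  refine ⟨_, mem_cj'.2 hg, ?_⟩
  have := tv_conj γ⁻¹ u f
  rw [inv_inv] at this
  rw [mat_mul, mat_mul, e, this]

theorem vecMul_ne {f : V3} (hf : f ≠ 0) (γ : G3) : f ᵥ* mat γ ≠ 0 := fun e => hf (by
  have := congrArg (· ᵥ* mat γ⁻¹) e
  simpa [vecMul_vecMul, mat_mul_inv] using this)

theorem mulVec_ne {u : V3} (hu : u ≠ 0) (γ : G3) : mat γ *ᵥ u ≠ 0 := fun e => hu (by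
  have := congrArg (mat γ⁻¹ *ᵥ ·) e
  simpa [mulVec_mulVec, mat_inv_mul] using this)

theorem LatAx.cj {K : Subgroup G3} {f : V3} (h : LatAx K f) (γ : G3) :
    LatAx (cj γ K) (f ᵥ* mat γ) := by
  obtain ⟨h0, N, hN, h⟩ := h
  refine ⟨vecMul_ne h0 γ, N, hN, fun x hx => ?_⟩
  have := (h (mat γ *ᵥ x) (by rw [dotProduct_mulVec, hx])).cj γ
  rwa [mulVec_smul, mulVec_mulVec, mat_inv_mul, one_mulVec] at this

theorem Stab.cj {K : Subgroup G3} {f : V3} (h : Stab K f) (γ : G3) :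
    Stab (cj γ K) (f ᵥ* mat γ) := by
  intro g hg
  have e : f ᵥ* mat γ ᵥ* mat g = f ᵥ* mat (γ * g * γ⁻¹) ᵥ* mat γ := by
    simp only [vecMul_vecMul, ← mat_mul]; simp
  rw [e]
  rcases h _ (mem_cj.1 hg) with h | h <;> rw [h]
  · exact Or.inl rfl
  · exact Or.inr (neg_vecMul _ _)

theorem bezout (a b : ℤ) : ∃ p q r s : ℤ, p * s - q * r = 1 ∧ a * p + b * r = 0 := by
  by_cases h : Int.gcd a b = 0
  · rw [Int.gcd_eq_zero_iff] at h
    exact ⟨1, 0, 0, 1, by simp, by simp [h.1]⟩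
  obtain ⟨a', b', h1, h2, h3⟩ := Int.exists_gcd_one (Nat.pos_of_ne_zero h)
  obtain ⟨u, v, huv⟩ := Int.isCoprime_iff_gcd_eq_one.2 h1
  generalize (Int.gcd a b : ℤ) = d at h2 h3
  exact ⟨b', u, -a', v, by linear_combination huv, by rw [h2, h3]; ring⟩

/-- An element of SL(3,Z) from a matrix of determinant one. -/
def mk3 (M : M3) (h : M.det = 1) : G3 := ⟨M, h⟩

theorem mat_mk3 (M : M3) (h : M.det = 1) : mat (mk3 M h) = M := rfl

theorem exists_std (f : V3) : ∃ (γ : G3) (d : ℤ), f ᵥ* mat γ = ![0, 0, d] := by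
  obtain ⟨p, q, r, s, h1, h2⟩ := bezout (f 0) (f 1)
  obtain ⟨p', q', r', s', h1', h2'⟩ := bezout (f 0 * q + f 1 * s) (f 2)
  refine ⟨mk3 !![p, q, 0; r, s, 0; 0, 0, 1] (by simp [det_fin_three, h1]) *
    mk3 !![1, 0, 0; 0, p', q'; 0, r', s'] (by simp [det_fin_three, h1']),
    (f 0 * q + f 1 * s) * q' + f 2 * s', ?_⟩
  rw [mat_mul, ← vecMul_vecMul]
  simp only [mat_mk3, ext3, vecMul, dot3]
  simp
  exact ⟨h2, h2'⟩

/-- The standard parabolic subgroup. -/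
def P0 : Subgroup G3 where
  carrier := {g | mat g 2 0 = 0 ∧ mat g 2 1 = 0}
  one_mem' := by simp [mat_one]
  mul_mem' := fun {a b} ha hb => by
    simp only [Set.mem_ofPred_eq, mat_mul, mul_apply, Fin.sum_univ_three] at *
    simp [ha.1, ha.2, hb.1, hb.2]
  inv_mem' := fun {a} ha => by
    have e : mat a⁻¹ = adjugate (mat a) := rfl
    simp only [Set.mem_ofPred_eq, e, adjugate_fin_three] at *
    simp [ha.1, ha.2]

theorem mem_P0 {g : G3} : g ∈ P0 ↔ mat g 2 0 = 0 ∧ mat g 2 1 = 0 := Iff.rfl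

theorem P0_det {g : G3} (h : g ∈ P0) :
    (mat g 0 0 * mat g 1 1 - mat g 0 1 * mat g 1 0) * mat g 2 2 = 1 := by
  have := mat_det g
  rw [det_fin_three, h.1, h.2] at this
  linear_combination this

theorem P0_det' {g : G3} (h : g ∈ P0) :
    mat g 0 0 * mat g 1 1 - mat g 0 1 * mat g 1 0 = mat g 2 2 :=
  Int.eq_of_mul_eq_one (P0_det h)

theorem Stab.le_P0 {K : Subgroup G3} {d : ℤ} (hd : d ≠ 0) (h : Stab K ![0, 0, d]) : K ≤ P0 := by
  intro g hg
  rcases h g hg with h | h <;> simp [ext3, vecMul, hd] at h <;> exact ⟨h.1, h.2.1⟩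

/-- The upper left block. -/
noncomputable def pr : P0 →* G2 :=
  MonoidHom.mk' (fun g => GeneralLinearGroup.mk'' !![mat g 0 0, mat g 0 1; mat g 1 0, mat g 1 1]
    (by rw [det_fin_two_of]; exact IsUnit.of_mul_eq_one _ (P0_det g.2))) fun a b => by
    apply Units.ext
    change !![mat (a.1 * b.1) 0 0, mat (a.1 * b.1) 0 1; mat (a.1 * b.1) 1 0, mat (a.1 * b.1) 1 1] =
      !![mat a 0 0, mat a 0 1; mat a 1 0, mat a 1 1] * !![mat b 0 0, mat b 0 1; mat b 1 0, mat b 1 1]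
    simp [mat_mul, mul_apply, Fin.sum_univ_three, b.2.1, b.2.2]

theorem pr_val (g : P0) : ((pr g : G2) : Matrix (Fin 2) (Fin 2) ℤ) =
    !![mat g 0 0, mat g 0 1; mat g 1 0, mat g 1 1] := rfl

theorem pr_surj : Function.Surjective pr := by
  intro A
  refine ⟨⟨⟨!![A 0 0, A 0 1, 0; A 1 0, A 1 1, 0; 0, 0, A 0 0 * A 1 1 - A 0 1 * A 1 0], ?_⟩,
    ⟨rfl, rfl⟩⟩, Units.ext ?_⟩
  · rw [← G2.det_sq A]; simp [det_fin_three]; ring
  · rw [pr_val]; exact (Matrix.eta_fin_two _).symm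

/-- The block group over C. -/
noncomputable def EC (C : Subgroup G2) : Subgroup G3 := (C.comap pr).map P0.subtype

/-- The image of a subgroup in GL(2,Z). -/
noncomputable def prK (K : Subgroup G3) : Subgroup G2 := (K.subgroupOf P0).map pr

theorem mem_EC {C : Subgroup G2} {g : G3} : g ∈ EC C ↔ ∃ h : g ∈ P0, pr ⟨g, h⟩ ∈ C :=
  ⟨fun ⟨a, ha, e⟩ => by subst e; exact ⟨a.2, ha⟩, fun ⟨h, hc⟩ => ⟨⟨g, h⟩, hc, rfl⟩⟩

theorem mem_EC' {C : Subgroup G2} {g : G3} : g ∈ EC C ↔ InBlock C (mat g) := by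
  rw [mem_EC]
  constructor
  · rintro ⟨h, hc⟩
    exact ⟨h.1, h.2, _, hc, rfl⟩
  · rintro ⟨h1, h2, A, hA, e⟩
    refine ⟨⟨h1, h2⟩, ?_⟩
    rwa [show pr ⟨g, ⟨h1, h2⟩⟩ = A from Units.ext e.symm]

theorem ker_entries {g : P0} (h : g ∈ pr.ker) : mat g 0 0 = 1 ∧ mat g 0 1 = 0 ∧ mat g 1 0 = 0 ∧
    mat g 1 1 = 1 ∧ mat g 2 2 = 1 := by
  have e := pr_val g
  rw [MonoidHom.mem_ker.1 h, Units.val_one, one_fin_two] at e
  have a := congrFun (congrFun e 0) 0
  have b := congrFun (congrFun e 0) 1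
  have c := congrFun (congrFun e 1) 0
  have d := congrFun (congrFun e 1) 1
  simp at a b c d
  refine ⟨a.symm, b.symm, c.symm, d.symm, ?_⟩
  rw [← P0_det' g.2, ← a, ← b, ← d]; simp

theorem hp_ker : HP pr.ker := by
  refine hp_Z2.of_injective (MonoidHom.mk'
    (fun g => Multiplicative.ofAdd ![mat g.1 0 2, mat g.1 1 2]) fun a b => ?_) fun a b e => ?_
  · obtain ⟨a1, a2, a3, a4, a5⟩ := ker_entries a.2
    obtain ⟨b1, b2, b3, b4, b5⟩ := ker_entries b.2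
    rw [← ofAdd_add]
    congr 1
    simp only [Subgroup.coe_mul, mat_mul, mul_apply, Fin.sum_univ_three, a1, a2, a3, a4, b5]
    simp [add_comm]
  · obtain ⟨a1, a2, a3, a4, a5⟩ := ker_entries a.2
    obtain ⟨b1, b2, b3, b4, b5⟩ := ker_entries b.2
    have e' : ![mat a.1 0 2, mat a.1 1 2] = ![mat b.1 0 2, mat b.1 1 2] := e
    simp only [vecCons_inj, and_true] at e'
    refine Subtype.ext (Subtype.ext (mat_ext ?_))
    rw [Matrix.eta_fin_three (mat a.1), Matrix.eta_fin_three (mat b.1), a1, a2, a3, a4, a5,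
      b1, b2, b3, b4, b5, e'.1, e'.2, a.1.2.1, a.1.2.2, b.1.2.1, b.1.2.2]

theorem hp_EC {C : Subgroup G2} (h : VirtCyclic C) : HP (EC C) := by
  obtain ⟨c, hc, hi⟩ := h
  obtain ⟨t, ht⟩ := pr_surj c
  have h1 : HP ((Subgroup.zpowers c).comap pr) := by
    refine HP.of_cyclic (H := pr.ker.subgroupOf _)
      (hp_ker.of_injective (MonoidHom.mk' (fun g => ⟨g.1.1, g.2⟩) fun _ _ => rfl)
        fun a b e => Subtype.ext (Subtype.ext (Subtype.mk.inj e)))
      ⟨t, by rw [Subgroup.mem_comap, ht]; exact Subgroup.mem_zpowers c⟩ fun γ => ?_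
    obtain ⟨m, hm⟩ := γ.2
    refine ⟨m, ?_⟩
    simp only at hm
    simp [Subgroup.mem_subgroupOf, MonoidHom.mem_ker, ht, ← hm]
  have h2 : HP (C.comap pr) := by
    refine HP.of_finiteIndex (H := ((Subgroup.zpowers c).comap pr).subgroupOf _)
      (h1.of_injective (MonoidHom.mk' (fun g => ⟨g.1.1, g.2⟩) fun _ _ => rfl)
        fun a b e => Subtype.ext (Subtype.ext (Subtype.mk.inj e)))
      (Subgroup.relIndex_comap_ne_zero pr hi)
  exact h2.of_injective (Subgroup.equivMapOfInjective _ _ P0.subtype_injective).symm.toMonoidHom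
    (MulEquiv.injective _)

theorem vc_of_lat {K : Subgroup G3} (hK : HP K) {d : ℤ} (h : LatAx K ![0, 0, d]) :
    VirtCyclic (prK K) := by
  obtain ⟨hd, N, hN, h⟩ := h
  have hd' : d ≠ 0 := fun e => hd (by simp [e])
  have hk : ∀ k : Fin 2 → ℤ, ∃ g : K, mat g = tv (N • ![-k 1, k 0, 0]) ![0, 0, d] := fun k => by
    obtain ⟨g, hg, e⟩ := h ![-k 1, k 0, 0] (by simp)
    exact ⟨⟨g, hg⟩, e⟩
  choose τ hτ using hk
  have hext : ∀ a b : K, mat a = mat b → a = b := fun a b e => Subtype.ext (mat_ext e)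
  refine burger (τ := τ) hK (fun k l => ?_) (fun k l e => ?_) ?_
  · rw [eq_inv_mul_iff_mul_eq]
    apply hext
    rw [Subgroup.coe_mul, mat_mul, hτ, hτ, hτ, tv_mul_axis (by simp)]
    congr 1
    simp; constructor <;> ring
  · have e1 := hτ k
    rw [e, hτ] at e1
    have a := congrFun (congrFun e1 0) 2
    have b := congrFun (congrFun e1 1) 2
    simp [tv_apply, hN, hd'] at a b
    funext i
    fin_cases i <;> simp [a, b]
  · rintro _ ⟨g, hg, rfl⟩
    refine ⟨⟨g, hg⟩, fun k => ?_⟩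
    rw [mul_assoc, inv_mul_eq_iff_eq_mul]
    apply hext
    have e := P0_det' g.2
    simp only [Subgroup.coe_mul, mat_mul, hτ, pr_val]
    ext i j
    fin_cases i <;> fin_cases j <;>
      simp [mul_apply, Fin.sum_univ_three, tv_apply, g.2.1, g.2.2, vecMul, dotProduct, ← e] <;> ring

theorem le_EC {K : Subgroup G3} (h : K ≤ P0) : K ≤ EC (prK K) := fun g hg =>
  mem_EC.2 ⟨h hg, ⟨g, h hg⟩, hg, rfl⟩

theorem prK_EC (C : Subgroup G2) : prK (EC C) = C := by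
  apply le_antisymm
  · rintro _ ⟨g, hg, rfl⟩
    exact (mem_EC.1 hg).2
  · intro A hA
    obtain ⟨g, rfl⟩ := pr_surj A
    exact ⟨g, mem_EC.2 ⟨g.2, hA⟩, rfl⟩

theorem prK_mono {K L : Subgroup G3} (h : K ≤ L) : prK K ≤ prK L :=
  Subgroup.map_mono fun _ hg => h hg

theorem EC_mono {C D : Subgroup G2} (h : C ≤ D) : EC C ≤ EC D :=
  Subgroup.map_mono (Subgroup.comap_mono h)

theorem lat_EC (C : Subgroup G2) : LatAx (EC C) ![0, 0, 1] := by
  refine ⟨by simp, 1, one_ne_zero, fun x hx => ?_⟩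
  refine ⟨mk3 (tv ((1 : ℤ) • x) ![0, 0, 1]) (by rw [det_tv, one_smul, hx, add_zero]),
    mem_EC'.2 ⟨?_, ?_, 1, C.one_mem, ?_⟩, rfl⟩ <;> simp [mat_mk3, tv_apply, one_fin_two]

theorem maxHP_EC {C : Subgroup G2} (h : VirtCyclic C) (hm : ∀ D, C < D → ¬ VirtCyclic D) :
    MaxHP (EC C) := by
  refine ⟨hp_EC h, fun K hlt hK => ?_⟩
  have hl := (lat_EC C).mono hlt.le
  have h1 : C ≤ prK K := by rw [← prK_EC C]; exact prK_mono hlt.le
  have h2 : C = prK K := by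
    by_contra hne
    exact hm _ (lt_of_le_of_ne h1 hne) (vc_of_lat hK hl)
  exact hlt.not_ge (h2 ▸ le_EC ((hl.stab hK).le_P0 one_ne_zero))

theorem MaxHP.eq_EC {H : Subgroup G3} (h : MaxHP H) (hle : H ≤ P0) (hv : VirtCyclic (prK H)) :
    H = EC (prK H) ∧ ∀ D, prK H < D → ¬ VirtCyclic D := by
  have e : H = EC (prK H) := by
    by_contra hne
    exact h.2 _ (lt_of_le_of_ne (le_EC hle) hne) (hp_EC hv)
  refine ⟨e, fun D hD hv' => h.2 (EC D) (lt_of_le_of_ne (e ▸ EC_mono hD.le) fun e' => ?_)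
    (hp_EC hv')⟩
  rw [e', prK_EC] at hD
  exact lt_irrefl _ hD

theorem IsBlockType.tr {H : Subgroup G3} (h : IsBlockType H) : IsBlockType (tr H) := by
  obtain ⟨γ, C, h1, h2, h⟩ := h
  have e : ∀ g : G3, γ⁻¹ * g.transpose * γ = ((γ.transpose⁻¹)⁻¹ * g * γ.transpose⁻¹).transpose :=
    fun g => by
      simp only [transpose_mul', transpose_inv', transpose_transpose', inv_inv, mul_assoc]
  refine ⟨γ.transpose⁻¹, C, h1, h2, ?_⟩
  rcases h with h | h
  · exact Or.inr fun g => by rw [mem_tr, h, e]; rfl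
  · exact Or.inl fun g => by rw [mem_tr, h, e]; rfl

theorem IsBlockType.maxHP {H : Subgroup G3} (h : IsBlockType H) : MaxHP H := by
  have key : ∀ (H : Subgroup G3) (γ : G3) (C : Subgroup G2), VirtCyclic C →
      (∀ D, C < D → ¬ VirtCyclic D) → (∀ g : G3, g ∈ H ↔ InBlock C (mat (γ⁻¹ * g * γ))) →
      MaxHP H := by
    intro H γ C h1 h2 h
    refine MaxHP.of_cj (γ := γ) ?_
    have : cj γ H = EC C := by
      ext g; rw [mem_cj, h, mem_EC']; simp [mul_assoc]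
    rw [this]; exact maxHP_EC h1 h2
  obtain ⟨γ, C, h1, h2, h' | h'⟩ := h
  · exact key H γ C h1 h2 h'
  · refine MaxHP.tr (H := MP_5045a8_al.tr H) (key _ γ.transpose⁻¹ C h1 h2 fun g => ?_)
    rw [mem_tr, h']
    have e : γ⁻¹ * g.transpose * γ = ((γ.transpose⁻¹)⁻¹ * g * γ.transpose⁻¹).transpose := by
      simp only [transpose_mul', transpose_inv', transpose_transpose', inv_inv, mul_assoc]
    rw [e]; rfl

theorem block_of_std {H : Subgroup G3} (h : MaxHP H) {γ : G3} (hle : cj γ H ≤ P0)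
    (hv : VirtCyclic (prK (cj γ H))) : IsBlockType H := by
  obtain ⟨e, hm⟩ := (h.cj γ).eq_EC hle hv
  exact ⟨γ, _, hv, hm, Or.inl fun g => by rw [← mem_cj' (γ := γ), e, mem_EC', ← e]; rfl⟩

theorem block_of_lat {H : Subgroup G3} (h : MaxHP H) {f : V3} (hl : LatAx H f) :
    IsBlockType H := by
  obtain ⟨γ, d, e⟩ := exists_std f
  have h1 := hl.cj γ
  rw [e] at h1
  have hd : d ≠ 0 := fun e => h1.1 (by simp [e])
  exact block_of_std h ((h1.stab (h.1.cj γ)).le_P0 hd) (vc_of_lat (h.1.cj γ) h1)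

theorem block_of_lat' {H : Subgroup G3} (h : MaxHP H) {u : V3} (hl : LatAx (tr H) u) :
    IsBlockType H := (block_of_lat h.tr hl).tr

end Pool.Agent.MP_5045a8_al

end

section

/-! Subgroups with a full line of centres of transvections; rational Levi subgroups. -/

namespace Pool.Agent.MP_5045a8_al

open Matrix

theorem planeLift_iff {f : V3} {K : Subgroup G3} : IsPlaneLift f K ↔
    Stab K f ∧ ∀ g ∈ K, (∀ x, f ⬝ᵥ x = 0 → mat g *ᵥ x = x) → g = 1 := Iff.rfl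

theorem IsPlaneLift.hp {f : V3} (hf : f ≠ 0) {K : Subgroup G3} (h : IsPlaneLift f K) : HP K := by
  obtain ⟨hs, h⟩ := planeLift_iff.1 h
  obtain ⟨γ, d, e⟩ := exists_std f
  have hd : d ≠ 0 := fun e' => vecMul_ne hf γ (by simp [e, e'])
  have hle : cj γ K ≤ P0 := Stab.le_P0 hd (e ▸ hs.cj γ)
  refine HP.of_cj (γ := γ) (hp_GL2.of_injective (pr.comp (Subgroup.inclusion hle)) ?_)
  rw [injective_iff_map_eq_one]
  intro a ha
  obtain ⟨a1, a2, a3, a4, -⟩ := ker_entries (g := Subgroup.inclusion hle a) ha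
  have a5 := hle a.2
  have := h _ (mem_cj.1 a.2) fun x hx => by
    have h2 : (mat γ⁻¹ *ᵥ x) 2 = 0 := by
      have : (f ᵥ* mat γ) ⬝ᵥ (mat γ⁻¹ *ᵥ x) = 0 := by
        rw [← dotProduct_mulVec, mulVec_mulVec, mat_mul_inv, one_mulVec, hx]
      rw [e, dot3] at this
      simpa [hd] using this
    have h3 : mat a *ᵥ (mat γ⁻¹ *ᵥ x) = mat γ⁻¹ *ᵥ x := by
      generalize mat γ⁻¹ *ᵥ x = y at h2
      simp only [Subgroup.coe_inclusion] at a1 a2 a3 a4
      simp [ext3, mulVec, dot3, a1, a2, a3, a4, a5.1, a5.2, h2]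
    rw [mat_mul, mat_mul, ← mulVec_mulVec, ← mulVec_mulVec, h3, mulVec_mulVec, mat_mul_inv,
      one_mulVec]
  exact Subtype.ext (by simpa [mul_inv_eq_one] using this)

theorem fix_plane {f : V3} (hf : f ≠ 0) {g : G3} (h : ∀ x, f ⬝ᵥ x = 0 → mat g *ᵥ x = x) :
    (f ⬝ᵥ f) • (mat g - 1) = vecMulVec (mat g *ᵥ f - f) f ∧ f ⬝ᵥ (mat g *ᵥ f - f) = 0 := by
  have hp := (dot_self_pos hf).ne'
  have e : (f ⬝ᵥ f) • (mat g - 1) = vecMulVec (mat g *ᵥ f - f) f := by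
    ext i j
    have := congrFun (h ((f ⬝ᵥ f) • Pi.single j 1 - f j • f) (by
      rw [dotProduct_sub, dotProduct_smul, dotProduct_smul, dotProduct_single_one]
      simp [mul_comm])) i
    rw [mulVec_sub, mulVec_smul, mulVec_smul, mulVec_single_one] at this
    simp only [Pi.sub_apply, Pi.smul_apply, smul_eq_mul, col_apply, Pi.single_apply] at this
    simp only [Matrix.smul_apply, Matrix.sub_apply, smul_eq_mul, vecMulVec_apply, Pi.sub_apply,
      Matrix.one_apply]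
    linear_combination this
  refine ⟨e, ?_⟩
  have h1 : ((f ⬝ᵥ f) • mat g).det = (f ⬝ᵥ f) ^ 3 := by rw [det_smul, mat_det]; simp
  rw [smul_sub, sub_eq_iff_eq_add] at e
  rw [e] at h1
  generalize mat g *ᵥ f - f = y at h1
  generalize f ⬝ᵥ f = n at h1 hp
  have h2 : (vecMulVec y f + n • (1 : M3)).det = n ^ 3 + n ^ 2 * (f ⬝ᵥ y) := by
    simp only [det_fin_three, vecMulVec_apply, dot3, Matrix.add_apply, Matrix.smul_apply,
      smul_eq_mul, Matrix.one_apply]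
    simp
    ring
  rw [h2] at h1
  simpa [hp] using h1

theorem mem_of_fix {K : Subgroup G3} {f : V3} (hf : f ≠ 0) {g : G3} (hg : g ∈ K) (h1 : g ≠ 1)
    (h : ∀ x, f ⬝ᵥ x = 0 → mat g *ᵥ x = x) : ∃ y, y ≠ 0 ∧ Mem K (tv y f) := by
  obtain ⟨e, h0⟩ := fix_plane hf h
  have hp := dot_self_pos hf
  generalize mat g *ᵥ f - f = y at e h0
  have hW : (mat g - 1) * (mat g - 1) = 0 := by
    have : ((f ⬝ᵥ f) • (mat g - 1)) * ((f ⬝ᵥ f) • (mat g - 1)) = 0 := by
      rw [e, vecMulVec_mul_vecMulVec, h0]; simp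
    rw [smul_mul_smul_comm] at this
    exact (smul_eq_zero.1 this).resolve_left (by positivity)
  have hk : ∀ k : ℕ, mat (g ^ k) = 1 + (k : ℤ) • (mat g - 1) := by
    intro k
    induction k with
    | zero => simp [mat_one]
    | succ k ih =>
      have : mat g = 1 + (mat g - 1) := by simp
      rw [pow_succ, mat_mul, ih]
      generalize mat g - 1 = W at this hW
      rw [this, add_mul, mul_add, mul_add, smul_mul_assoc, smul_mul_assoc, hW]
      simp only [mul_one, one_mul, smul_zero, Nat.cast_succ, add_smul, one_smul]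
      abel
  refine ⟨y, fun e0 => h1 (mat_ext ?_), g ^ (f ⬝ᵥ f).toNat, K.pow_mem hg _, ?_⟩
  · rw [e0, zero_vecMulVec] at e
    exact sub_eq_zero.1 ((smul_eq_zero.1 e).resolve_left hp.ne')
  · rw [hk, Int.toNat_of_nonneg hp.le, e]; rfl

theorem exists_indep {f y : V3} (hf : f ≠ 0) (hy : y ≠ 0) (h : f ⬝ᵥ y = 0) :
    ∃ x, x ≠ 0 ∧ f ⬝ᵥ x = 0 ∧ cr y x ≠ 0 := by
  have h1 : cr f y ≠ 0 := cr_ne_of_dot hy h (dot_self_pos hf).ne'
  exact ⟨_, h1, dot_cr_left _ _, cr_ne_of_dot h1 (dot_cr_right _ _) (dot_self_pos hy).ne'⟩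

theorem Centres.lat {K : Subgroup G3} {f y : V3} (h : Centres K f) (hf : f ≠ 0) (hy : y ≠ 0)
    (hm : Mem K (tv y f)) : LatAx K f := by
  obtain ⟨x, hx0, hx, hc⟩ := exists_indep hf hy hm.dot
  obtain ⟨φ, hφ, hm'⟩ := h x hx0 hx
  by_cases h1 : φ ⬝ᵥ y = 0
  · exact lat_of_par hm hm' hf hφ (cr_trans hc (cr_of_perp hm.dot hx) (cr_of_perp h1 hm'.dot)) hc
  · exact lat_of_comm hm hm' hf hx0 hx h1

theorem maxHP_of_lift {H : Subgroup G3} {f : V3} (hf : f ≠ 0) (hc : Centres H f)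
    (h : IsPlaneLift f H) (hm : ∀ K, IsPlaneLift f K → H ≤ K → K = H) : MaxHP H := by
  refine ⟨h.hp hf, fun K hlt hK => ?_⟩
  have hcK := hc.mono hlt.le
  by_cases hfa : ∀ g ∈ K, (∀ x, f ⬝ᵥ x = 0 → mat g *ᵥ x = x) → g = 1
  · exact hlt.ne' (hm K ⟨hcK.stab hK hf, hfa⟩ hlt.le)
  push Not at hfa
  obtain ⟨g, hg, h1, h2⟩ := hfa
  obtain ⟨y, hy, hmy⟩ := mem_of_fix hf hg h2 h1
  obtain ⟨-, N, hN, hl⟩ := hcK.lat hf hy hmy
  obtain ⟨x, hx0, hx, hyx⟩ := exists_indep hf hy hmy.dot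
  have key : ∀ {a b φ : V3}, a ≠ 0 → φ ≠ 0 → f ⬝ᵥ a = 0 → f ⬝ᵥ b = 0 → cr a b ≠ 0 →
      Mem H (tv a φ) → (N • b) ⬝ᵥ φ ≠ 0 := by
    intro a b φ ha hφ h1 h2 hab hm' e
    rw [smul_dotProduct, smul_eq_zero, dotProduct_comm] at e
    have hp := cr_trans hab (cr_of_perp h1 h2) (cr_of_perp hm'.dot (e.resolve_left hN))
    obtain ⟨t, ht, et⟩ := hm'
    have := h.2 t ht fun z hz => by
      change mat t *ᵥ z = z
      rw [et, tv_mulVec, par_dot_zero hp hf hz]; simp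
    rw [this, mat_one, tv, left_eq_add, vecMulVec_eq_zero] at et
    tauto
  obtain ⟨φ, hφ, m1⟩ := hc y hy hmy.dot
  obtain ⟨φ', hφ', m2⟩ := hc x hx0 hx
  exact no_pair hK.tr hf (hl y hmy.dot).tr_tv (hl x hx).tr_tv
    ((m1.mono hlt.le).zsmul N).tr_tv ((m2.mono hlt.le).zsmul N).tr_tv
    (key hy hφ hmy.dot hx hyx m1) (key hx0 hφ' hx hmy.dot (cr_ne_comm hyx) m2)

theorem line_iff {H : Subgroup G3} {f : V3} (hf : f ≠ 0) (hc : Centres H f) :
    MaxHP H ↔ IsBlockType H ∨ (IsPlaneLift f H ∧ ∀ K, IsPlaneLift f K → H ≤ K → K = H) := by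
  refine ⟨fun h => ?_, fun h => h.elim IsBlockType.maxHP fun h => maxHP_of_lift hf hc h.1 h.2⟩
  by_cases hfa : ∀ g ∈ H, (∀ x, f ⬝ᵥ x = 0 → mat g *ᵥ x = x) → g = 1
  · refine Or.inr ⟨⟨hc.stab h.1 hf, hfa⟩, fun K hK hle => ?_⟩
    by_contra hne
    exact h.2 K (lt_of_le_of_ne hle (Ne.symm hne)) (hK.hp hf)
  push Not at hfa
  obtain ⟨g, hg, h1, h2⟩ := hfa
  obtain ⟨y, hy, hmy⟩ := mem_of_fix hf hg h2 h1
  exact Or.inl (block_of_lat h (hc.lat hf hy hmy))

theorem mem_Levi {v f : V3} {g : G3} : g ∈ Levi v f ↔ (mat g *ᵥ v = v ∨ mat g *ᵥ v = -v) ∧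
    (f ᵥ* mat g = f ∨ f ᵥ* mat g = -f) := Iff.rfl

theorem tr_Levi (v f : V3) : tr (Levi v f) = Levi f v := by
  ext g
  rw [mem_tr, mem_Levi, mem_Levi, mat_transpose, mulVec_transpose, vecMul_transpose, and_comm]

theorem levi_lift {v f : V3} (h : f ⬝ᵥ v ≠ 0) : IsPlaneLift f (Levi v f) := by
  have hf : f ≠ 0 := fun e => h (by simp [e])
  refine ⟨fun g hg => hg.2, fun g hg h1 => ?_⟩
  obtain ⟨e, h0⟩ := fix_plane hf h1
  have hp := (dot_self_pos hf).ne'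
  generalize mat g *ᵥ f - f = y at e h0
  have e1 := congrArg (· *ᵥ v) e
  simp only [smul_mulVec, sub_mulVec, one_mulVec, vecMulVec_mulVec, op_smul_eq_smul] at e1
  rcases (mem_Levi.1 hg).1 with h2 | h2 <;> rw [h2] at e1
  · rw [sub_self, smul_zero, eq_comm, smul_eq_zero] at e1
    rw [e1.resolve_left h, zero_vecMulVec] at e
    exact mat_ext (sub_eq_zero.1 ((smul_eq_zero.1 e).resolve_left hp))
  · have e2 := congrArg (f ⬝ᵥ ·) e1
    simp only [dotProduct_smul, dotProduct_sub, dotProduct_neg, h0, smul_eq_mul] at e2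
    exact absurd (by linarith : f ⬝ᵥ f * (f ⬝ᵥ v) = 0) (mul_ne_zero hp h)

theorem levi_centres {v f : V3} (h : f ⬝ᵥ v ≠ 0) {K : Subgroup G3}
    (hi : K.relIndex (Levi v f) ≠ 0) : Centres K f := by
  intro x hx0 hx
  have hc : cr v x ≠ 0 := cr_ne_of_dot hx0 hx h
  let t : G3 := mk3 (tv x (cr v x)) (by rw [det_tv, dotProduct_comm, dot_cr_right, add_zero])
  have ht : t ∈ Levi v f := by
    refine ⟨Or.inl ?_, Or.inl ?_⟩
    · change tv x (cr v x) *ᵥ v = v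
      rw [tv_mulVec, dotProduct_comm, dot_cr_left]; simp
    · change f ᵥ* tv x (cr v x) = f
      rw [vecMul_tv, hx]; simp
  obtain ⟨n, hn, -, hm⟩ := Subgroup.exists_pow_mem_of_relIndex_ne_zero hi ht
  refine ⟨(n : ℤ) • cr v x, smul_ne_zero (by exact_mod_cast hn.ne') hc, t ^ n, hm.1, ?_⟩
  rw [← zpow_natCast, zpow_tv (g := t) rfl, tv_smul]

theorem tr_relIndex {K L : Subgroup G3} (h : K.relIndex L ≠ 0) : (tr K).relIndex (tr L) ≠ 0 := by
  let σ : G3 →* G3 := MonoidHom.mk' (fun g => (g.transpose)⁻¹) fun a b => by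
    rw [transpose_mul', _root_.mul_inv_rev]
  have e : ∀ K : Subgroup G3, tr K = K.comap σ := fun K => by
    ext g; simp [mem_tr, σ]
  rw [e, e]
  exact Subgroup.relIndex_comap_ne_zero σ h

theorem le_Levi {v f : V3} (h : f ⬝ᵥ v ≠ 0) {K : Subgroup G3} (hK : HP K)
    (hi : K.relIndex (Levi v f) ≠ 0) : K ≤ Levi v f := by
  have hf : f ≠ 0 := fun e => h (by simp [e])
  have hv : v ≠ 0 := fun e => h (by simp [e])
  have h1 := (levi_centres h hi).stab hK hf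
  have hi' := tr_relIndex hi
  rw [tr_Levi] at hi'
  have h2 := (levi_centres (by rwa [dotProduct_comm]) hi').stab hK.tr hv
  intro g hg
  refine ⟨?_, h1 g hg⟩
  have := h2 g.transpose hg
  rwa [mat_transpose, vecMul_transpose] at this

theorem levi_iff {v f : V3} (h : f ⬝ᵥ v ≠ 0) {H : Subgroup G3}
    (hi : H.relIndex (Levi v f) ≠ 0) : MaxHP H ↔ H = Levi v f := by
  have hf : f ≠ 0 := fun e => h (by simp [e])
  have hL := (levi_lift h).hp hf
  constructor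
  · intro hm
    by_contra hne
    exact hm.2 _ (lt_of_le_of_ne (le_Levi h hm.1 hi) hne) hL
  · rintro rfl
    refine ⟨hL, fun K hlt hK => hlt.not_ge (le_Levi h hK ?_)⟩
    rw [Subgroup.relIndex_eq_one.2 hlt.le]
    exact one_ne_zero

end Pool.Agent.MP_5045a8_al

end
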